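import Pool.Agent.W656.VB5

/-!
Base change, part 6: integrality along a pencil; adjoining coefficients.
-/

set_option autoImplicit false
set_option linter.unusedSectionVars false

open scoped InnerProductSpace ENNReal
open Filter Topology

namespace Pool.Agent.W656.VA

open Pool.Agent.H80R2
open Pool.Agent.H80R2.BC (L2 GMat vdim IsTr LInv Equi act kerA dk pt vals TorDiv Coef AtR Generic)
open Pool.Agent.H812R3

variable {ι κ κ' μ ν G : Type} [Group G] [Fintype ι] [Fintype κ] [Fintype κ'] [Fintype μ]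
  [Fintype ν]

theorem coef_pen {R : Subring ℂ} {P0 P1 : GMat κ ι G} (h0 : Coef R P0) (h1 : Coef R P1) {a : ℂ}
    (ha : a ∈ R) : Coef R (BC.pen P0 P1 a) := by
  intro k p g
  unfold BC.pen
  rw [Finsupp.add_apply, Finsupp.smul_apply, smul_eq_mul]
  exact R.add_mem (h0 _ _ _) (R.mul_mem ha (h1 _ _ _))

/-- change of the parameter of a pencil -/
theorem kz_move (P0 P1 : GMat κ ι G) (z a : ℂ) (h : z - a ≠ 0) :
    kz P1 (BC.pen P0 P1 a) (z - a)⁻¹ = kz P0 P1 z := by
  unfold kz
  congr 1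
  ext x
  rw [mem_kerA, mem_kerA]
  have key : ∀ (k : κ) (g : G), act (BC.pen P0 P1 z) x k g =
      (z - a) * act (BC.pen P1 (BC.pen P0 P1 a) (z - a)⁻¹) x k g := by
    intro k g
    rw [act_pen, act_pen, act_pen]
    field_simp
    ring
  constructor
  · intro h1 k g
    exact (key k g).trans (by rw [h1 k g, mul_zero])
  · intro h1 k g
    exact (mul_eq_zero.1 ((key k g).symm.trans (h1 k g))).resolve_left h

/-- **Integrality along a pencil.** -/
theorem pencil_int (C : (G : Type) → [Group G] → Prop)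
    (hprod : ∀ (G H : Type) [Group G] [Group H], C G → C H → C (G × H))
    (hfree : ∀ (G : Type) [Group G] (m : ℕ), C G → C (Monoid.Coprod G (FreeGroup (Fin m))))
    (R : Subring ℂ)
    (hR : ∀ (G : Type) [Group G], C G → ∀ d : ℕ, IsLcm G d → ∀ v : ℝ, Val R G v →
      ∃ z : ℤ, (d : ℝ) * v = z)
    (hG : C G) {d : ℕ} (hd : IsLcm G d) (P0 P1 : GMat κ ι G) (hP0 : Coef R P0) (hP1 : Coef R P1)
    (z : ℂ) : ∃ n : ℤ, (d : ℝ) * kz P0 P1 z = n := by
  by_contra hno
  push Not at hno
  have hd0 : (0 : ℝ) < d := by exact_mod_cast hd.pos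
  have hv0 : 0 ≤ kz P0 P1 z := vdim_nonneg _
  -- an integer point with a smaller kernel
  have h1 : ∃ a : ℤ, (a : ℂ) ≠ z ∧ kz P0 P1 a < kz P0 P1 z := by
    by_contra hc
    push Not at hc
    set b0 : ℝ := (⌈(d : ℝ) * kz P0 P1 z⌉ : ℝ) / d with hb0
    have h2 : ∀ a : ℤ, (a : ℂ) ≠ z → b0 ≤ kz P0 P1 a := by
      intro a ha
      have h3 := hc a ha
      obtain ⟨n, hn⟩ := hR G hG d hd _ (val_of _ (coef_pen hP0 hP1 (a := (a : ℂ)) (by
        exact intCast_mem R a)))
      have h4 : (d : ℝ) * kz P0 P1 z ≤ n := by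
        rw [← hn]
        unfold kz at h3 ⊢
        gcongr
      have h5 : ⌈(d : ℝ) * kz P0 P1 z⌉ ≤ n := Int.ceil_le.2 h4
      rw [hb0, div_le_iff₀ hd0]
      have h6 : (⌈(d : ℝ) * kz P0 P1 z⌉ : ℝ) ≤ n := by exact_mod_cast h5
      unfold kz at h6 ⊢
      linarith
    have h3 : {a : ℂ | b0 ≤ kz P0 P1 a}.Infinite := by
      have h4 : (Set.range (fun n : ℤ => (n : ℂ)) \ {z}).Infinite :=
        (Set.infinite_range_of_injective Int.cast_injective).sdiff (Set.finite_singleton z)
      refine h4.mono ?_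
      rintro _ ⟨⟨a, rfl⟩, ha⟩
      exact h2 a (fun h => ha h)
    have h4 := semicont P0 P1 b0 h3 z
    rw [hb0, div_le_iff₀ hd0] at h4
    have h5 := Int.le_ceil ((d : ℝ) * kz P0 P1 z)
    exact hno _ (le_antisymm h5 (by linarith))
  obtain ⟨a, ha, hlt⟩ := h1
  have hza : z - a ≠ 0 := sub_ne_zero.2 (Ne.symm ha)
  have hmem : (a : ℂ) ∈ R := intCast_mem R a
  obtain ⟨n, hn⟩ := int_of_interval (a := kz P0 P1 a) (b := kz P0 P1 z) (f := kz P0 P1 z)
    (d := d) (r := 1) (vdim_nonneg _) hlt (by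
      intro N j hN h1 h2
      have h3 := stage1 C hprod hfree R hR hG hd P1 (BC.pen P0 P1 a) hP1
        (coef_pen hP0 hP1 hmem) (z - a)⁻¹ hN h1 (by rw [kz_move _ _ _ _ hza]; exact h2)
      rw [kz_move _ _ _ _ hza] at h3
      simpa using h3)
  exact hno n hn

/-! ### adjoining an element -/

/-- the matrix of the condition `∑ P_i x_i = 0` -/
def stk {D : ℕ} (P : Fin (D + 1) → GMat κ ι G) : GMat κ (ι × Fin (D + 1)) G :=
  fun k p => P p.2 k p.1

open Classical in
/-- first part of the companion pencil -/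
noncomputable def cp0 {D : ℕ} (B : GMat κ (ι × Fin (D + 1)) G) :
    GMat (κ ⊕ (ι × Fin D)) (ι × Fin (D + 1)) G :=
  Sum.elim (fun k p => B k p)
    (fun a p => if p = (a.1, a.2.succ) then Finsupp.single 1 1 else 0)

open Classical in
/-- second part of the companion pencil -/
noncomputable def cp1 (κ ι G : Type) [Group G] (D : ℕ) :
    GMat (κ ⊕ (ι × Fin D)) (ι × Fin (D + 1)) G :=
  Sum.elim (fun _ _ => 0)
    (fun a p => if p = (a.1, a.2.castSucc) then Finsupp.single 1 (-1) else 0)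

theorem act_cp0_inl {D : ℕ} (B : GMat κ (ι × Fin (D + 1)) G) (x : (ι × Fin (D + 1)) × G → ℂ)
    (k : κ) (g : G) : act (cp0 B) x (Sum.inl k) g = act B x k g := rfl

theorem act_cp0_inr {D : ℕ} (B : GMat κ (ι × Fin (D + 1)) G) (x : (ι × Fin (D + 1)) × G → ℂ)
    (p : ι) (i : Fin D) (g : G) : act (cp0 B) x (Sum.inr (p, i)) g = x ((p, i.succ), g) := by
  classical
  unfold act cp0
  rw [Finset.sum_eq_single (p, i.succ)]
  · simp only [Sum.elim_inr, if_true]
    rw [Finsupp.sum_single_index (by simp), mul_one, one_mul]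
  · intro q _ hq
    simp only [Sum.elim_inr]
    rw [if_neg hq]
    simp
  · intro h
    exact absurd (Finset.mem_univ _) h

theorem act_cp1_inl (D : ℕ) (x : (ι × Fin (D + 1)) × G → ℂ)
    (k : κ) (g : G) : act (cp1 κ ι G D) x (Sum.inl k) g = 0 := by
  unfold act cp1
  simp

theorem act_cp1_inr (D : ℕ) (x : (ι × Fin (D + 1)) × G → ℂ)
    (p : ι) (i : Fin D) (g : G) :
    act (cp1 κ ι G D) x (Sum.inr (p, i)) g = - x ((p, i.castSucc), g) := by
  classical
  unfold act cp1
  rw [Finset.sum_eq_single (p, i.castSucc)]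
  · simp only [Sum.elim_inr, if_true]
    rw [Finsupp.sum_single_index (by simp), mul_one, neg_one_mul]
  · intro q _ hq
    simp only [Sum.elim_inr]
    rw [if_neg hq]
    simp
  · intro h
    exact absurd (Finset.mem_univ _) h

theorem coef_cp0 {R : Subring ℂ} {D : ℕ} {B : GMat κ (ι × Fin (D + 1)) G} (hB : Coef R B) :
    Coef R (cp0 B) := by
  classical
  rintro (k | ⟨p, i⟩) q g
  · exact hB _ _ _
  · unfold cp0
    simp only [Sum.elim_inr]
    split_ifs
    · exact coef_single _ _ R.one_mem _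
    · exact R.zero_mem

theorem coef_cp1 {R : Subring ℂ} (D : ℕ) : Coef R (cp1 κ ι G D) := by
  classical
  rintro (k | ⟨p, i⟩) q g
  · exact R.zero_mem
  · unfold cp1
    simp only [Sum.elim_inr]
    split_ifs
    · exact coef_single _ _ (R.neg_mem R.one_mem) _
    · exact R.zero_mem

theorem span_geo_iff (z : ℂ) (D : ℕ) (φ : Fin (D + 1) → ℂ) :
    φ ∈ Submodule.span ℂ {geo z D} ↔ ∀ i : Fin D, φ i.succ = z * φ i.castSucc := by
  rw [Submodule.mem_span_singleton]
  constructor
  · rintro ⟨c, rfl⟩ i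
    simp only [Pi.smul_apply, smul_eq_mul, geo, Fin.val_castSucc, Fin.val_succ]
    ring
  · intro h
    refine ⟨φ 0, ?_⟩
    have h1 : ∀ n : ℕ, ∀ hn : n < D + 1, φ ⟨n, hn⟩ = z ^ n * φ 0 := by
      intro n
      induction n with
      | zero =>
        intro hn
        rw [pow_zero, one_mul]
        rfl
      | succ n ih =>
        intro hn
        have h2 := h ⟨n, by omega⟩
        have h3 : (⟨n, by omega⟩ : Fin D).succ = ⟨n + 1, hn⟩ := rfl
        have h4 : (⟨n, by omega⟩ : Fin D).castSucc = ⟨n, by omega⟩ := rfl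
        rw [h3, h4, ih (by omega)] at h2
        rw [h2]
        ring
    funext i
    rw [Pi.smul_apply, smul_eq_mul, geo, ← Fin.eta i i.2, h1 i i.2]
    ring

theorem kz_cp {D : ℕ} (B : GMat κ (ι × Fin (D + 1)) G) (z : ℂ) :
    kz (cp0 B) (cp1 κ ι G D) z = vdim (kerA (ev (geo z D) B)) := by
  rw [← fd_span B (geo_ne z D)]
  unfold kz fd
  congr 1
  ext x
  rw [Submodule.mem_inf, mem_kerA, mem_pt]
  constructor
  · intro h
    refine ⟨fun k g => ?_, fun p g => ?_⟩
    · have := h (Sum.inl k) g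
      rw [act_pen, act_cp0_inl, act_cp1_inl, mul_zero, add_zero] at this
      exact this
    · rw [span_geo_iff]
      intro i
      have := h (Sum.inr (p, i)) g
      rw [act_pen, act_cp0_inr, act_cp1_inr] at this
      linear_combination this
  · rintro ⟨h1, h2⟩ (k | ⟨p, i⟩) g
    · rw [act_pen, act_cp0_inl, act_cp1_inl, mul_zero, add_zero]
      exact h1 k g
    · rw [act_pen, act_cp0_inr, act_cp1_inr]
      have := (span_geo_iff z D _).1 (h2 p g) i
      linear_combination this

/-- adjoining one element -/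
theorem adjoin_step (C : (G : Type) → [Group G] → Prop)
    (hprod : ∀ (G H : Type) [Group G] [Group H], C G → C H → C (G × H))
    (hfree : ∀ (G : Type) [Group G] (m : ℕ), C G → C (Monoid.Coprod G (FreeGroup (Fin m))))
    (R : Subring ℂ)
    (hR : ∀ (G : Type) [Group G], C G → ∀ d : ℕ, IsLcm G d → ∀ v : ℝ, Val R G v →
      ∃ z : ℤ, (d : ℝ) * v = z) (z : ℂ) :
    ∀ (G : Type) [Group G], C G → ∀ d : ℕ, IsLcm G d → ∀ v : ℝ,
      Val (Polynomial.eval₂RingHom R.subtype z).range G v → ∃ n : ℤ, (d : ℝ) * v = n := by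
  classical
  intro G _ hG d hd v hv
  obtain ⟨m, n, A, hA, rfl⟩ := hv
  -- the polynomials
  have h1 : ∀ (k : Fin n) (p : Fin m) (g : G), ∃ q : Polynomial R,
      q.eval₂ R.subtype z = A k p g ∧ (A k p g = 0 → q = 0) := by
    intro k p g
    by_cases h0 : A k p g = 0
    · exact ⟨0, by rw [h0, Polynomial.eval₂_zero], fun _ => rfl⟩
    · obtain ⟨q, hq⟩ := hA k p g
      exact ⟨q, hq, fun h => absurd h h0⟩
  choose q hq1 hq2 using h1
  set D : ℕ := ∑ k, ∑ p, ∑ g ∈ (A k p).support, (q k p g).natDegree with hD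
  have hdeg : ∀ k p g, (q k p g).natDegree < D + 1 := by
    intro k p g
    by_cases h0 : A k p g = 0
    · rw [hq2 k p g h0]
      simp
    · have h2 : g ∈ (A k p).support := Finsupp.mem_support_iff.2 h0
      have e1 := Finset.single_le_sum (f := fun g => (q k p g).natDegree)
        (fun _ _ => Nat.zero_le _) h2
      have e2 := Finset.single_le_sum
        (f := fun p => ∑ g ∈ (A k p).support, (q k p g).natDegree)
        (fun _ _ => Nat.zero_le _) (Finset.mem_univ p)
      have e3 := Finset.single_le_sum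
        (f := fun k => ∑ p, ∑ g ∈ (A k p).support, (q k p g).natDegree)
        (fun _ _ => Nat.zero_le _) (Finset.mem_univ k)
      exact Nat.lt_succ_of_le ((e1.trans e2).trans e3)
  let B : GMat (Fin n) (Fin m × Fin (D + 1)) G := fun k p =>
    Finsupp.onFinset (A k p.1).support (fun g => (((q k p.1 g).coeff p.2 : R) : ℂ)) (by
      intro g hg
      rw [Finsupp.mem_support_iff]
      intro h0
      apply hg
      rw [hq2 k p.1 g h0]
      simp)
  have hB : Coef R B := by
    intro k p g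
    exact ((q k p.1 g).coeff p.2).2
  have hev : ev (geo z D) B = A := by
    funext k p
    ext g
    unfold ev
    rw [Finsupp.finsetSum_apply, ← hq1 k p g, Polynomial.eval₂_eq_sum_range' _ (hdeg k p g),
      Finset.sum_range]
    refine Finset.sum_congr rfl fun i _ => ?_
    rw [Finsupp.smul_apply, smul_eq_mul, mul_comm]
    rfl
  obtain ⟨r, hr⟩ := pencil_int C hprod hfree R hR hG hd (cp0 B) (cp1 (Fin n) (Fin m) G D)
    (coef_cp0 hB) (coef_cp1 D) z
  rw [kz_cp, hev] at hr
  exact ⟨r, hr⟩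

/-- **Base change**: integrality passes from a subring of `ℂ` to `ℂ`. -/
theorem base_change (C : (G : Type) → [Group G] → Prop)
    (hprod : ∀ (G H : Type) [Group G] [Group H], C G → C H → C (G × H))
    (hfree : ∀ (G : Type) [Group G] (m : ℕ), C G → C (Monoid.Coprod G (FreeGroup (Fin m))))
    (R : Subring ℂ)
    (hR : ∀ (G : Type) [Group G], C G → ∀ d : ℕ, IsLcm G d → ∀ v : ℝ, Val R G v →
      ∃ z : ℤ, (d : ℝ) * v = z) (R' : Subring ℂ) :
    ∀ (G : Type) [Group G], C G → ∀ d : ℕ, IsLcm G d → ∀ v : ℝ, Val R' G v →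
      ∃ z : ℤ, (d : ℝ) * v = z := by
  classical
  have key : ∀ S : Finset ℂ, ∃ R1 : Subring ℂ, (S : Set ℂ) ⊆ R1 ∧
      ∀ (G : Type) [Group G], C G → ∀ d : ℕ, IsLcm G d → ∀ v : ℝ, Val R1 G v →
        ∃ z : ℤ, (d : ℝ) * v = z := by
    intro S
    induction S using Finset.induction_on with
    | empty => exact ⟨R, by simp, hR⟩
    | insert a S _ ih =>
      obtain ⟨R1, h1, h2⟩ := ih
      refine ⟨(Polynomial.eval₂RingHom R1.subtype a).range, ?_,
        adjoin_step C hprod hfree R1 h2 a⟩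
      intro x hx
      rw [Finset.coe_insert, Set.mem_insert_iff] at hx
      rcases hx with rfl | hx
      · exact ⟨Polynomial.X, by simp⟩
      · exact ⟨Polynomial.C ⟨x, h1 hx⟩, by simp⟩
  intro G _ hG d hd v hv
  obtain ⟨m, n, A, hA, rfl⟩ := hv
  obtain ⟨R1, h1, h2⟩ := key (Finset.univ.biUnion fun k => Finset.univ.biUnion fun p =>
    (A k p).support.image (A k p))
  refine h2 G hG d hd _ ⟨m, n, A, ?_, rfl⟩
  intro k p g
  by_cases h0 : A k p g = 0
  · rw [h0]
    exact R1.zero_mem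
  · apply h1
    simp only [Finset.coe_biUnion, Finset.coe_univ, Set.mem_iUnion, Finset.coe_image,
      Set.mem_image, Finset.mem_coe]
    exact ⟨k, trivial, p, trivial, g, Finsupp.mem_support_iff.2 h0, rfl⟩

end Pool.Agent.W656.VA
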