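import Mathlib

set_option autoImplicit false

/-! Concentration of measure on a finite power of a finite set, in a weak second moment form. -/

namespace Pool.Agent.W656.Conc

open Finset

/-- Hamming distance as a real number. -/
noncomputable def hd {Γ : Type} [DecidableEq Γ] {N : ℕ} (g h : Fin N → Γ) : ℝ :=
  ∑ i, if g i = h i then (0 : ℝ) else 1

variable {Γ : Type} [DecidableEq Γ]

lemma hd_nonneg {N : ℕ} (g h : Fin N → Γ) : 0 ≤ hd g h :=
  Finset.sum_nonneg fun i _ => by split_ifs <;> norm_num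

lemma hd_self {N : ℕ} (g : Fin N → Γ) : hd g g = 0 := by
  unfold hd
  simp

lemma hd_triangle {N : ℕ} (a b c : Fin N → Γ) : hd a c ≤ hd a b + hd b c := by
  unfold hd
  rw [← Finset.sum_add_distrib]
  refine Finset.sum_le_sum fun i _ => ?_
  by_cases h1 : a i = b i <;> by_cases h2 : b i = c i <;> simp_all
  all_goals (try (split_ifs <;> norm_num))

lemma hd_comm {N : ℕ} (a b : Fin N → Γ) : hd a b = hd b a := by
  unfold hd
  refine Finset.sum_congr rfl fun i _ => ?_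
  simp only [eq_comm]

lemma hd_cons {N : ℕ} (x y : Γ) (g h : Fin N → Γ) :
    hd (Fin.cons x g : Fin (N+1) → Γ) (Fin.cons y h) = (if x = y then 0 else 1) + hd g h := by
  unfold hd
  rw [Fin.sum_univ_succ]
  simp

lemma hd_cons_same {N : ℕ} (x : Γ) (g h : Fin N → Γ) :
    hd (Fin.cons x g : Fin (N+1) → Γ) (Fin.cons x h) = hd g h := by
  rw [hd_cons]; simp

lemma hd_cons_le {N : ℕ} (x y : Γ) (g : Fin N → Γ) :
    hd (Fin.cons x g : Fin (N+1) → Γ) (Fin.cons y g) ≤ 1 := by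
  rw [hd_cons, hd_self]
  split_ifs <;> norm_num

/-- sum of pairwise squared differences -/
lemma sum_sq_sub {ι : Type} [Fintype ι] (a : ι → ℝ) :
    ∑ x, ∑ y, (a x - a y) ^ 2 = 2 * (Fintype.card ι * ∑ x, a x ^ 2 - (∑ x, a x) ^ 2) := by
  have h : ∀ x y : ι, (a x - a y) ^ 2 = a x ^ 2 - 2 * (a x * a y) + a y ^ 2 := by
    intro x y; ring
  simp only [h, Finset.sum_add_distrib, Finset.sum_sub_distrib, ← Finset.mul_sum,
    ← Finset.sum_mul, Finset.sum_const, Finset.card_univ, nsmul_eq_mul]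
  ring

variable [Fintype Γ]

/-- Variance bound (Efron-Stein type). -/
lemma variance_bound : ∀ (N : ℕ) (φ : (Fin N → Γ) → ℝ), (∀ g h, |φ g - φ h| ≤ hd g h) →
    (Fintype.card (Fin N → Γ) : ℝ) * ∑ g, φ g ^ 2 - (∑ g, φ g) ^ 2
      ≤ N * (Fintype.card (Fin N → Γ) : ℝ) ^ 2 := by
  intro N
  induction N with
  | zero =>
    intro φ _
    have hu : Fintype.card (Fin 0 → Γ) = 1 := by simp
    rw [hu]
    simp
  | succ N ih =>
    intro φ hφ
    set G : ℝ := (Fintype.card (Fin N → Γ) : ℝ) with hG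
    set K : ℝ := (Fintype.card Γ : ℝ) with hK
    have hcard : (Fintype.card (Fin (N+1) → Γ) : ℝ) = K * G := by
      rw [hK, hG]
      simp only [Fintype.card_pi, Finset.prod_const, Finset.card_univ, Fintype.card_fin]
      push_cast
      ring
    have hsum : ∀ ψ : (Fin (N+1) → Γ) → ℝ, ∑ g, ψ g = ∑ x, ∑ g : Fin N → Γ, ψ (Fin.cons x g) := by
      intro ψ
      rw [← Fintype.sum_prod_type' (f := fun x g => ψ (Fin.cons x g))]
      symm
      exact Fintype.sum_equiv (Fin.consEquiv (fun _ : Fin (N+1) => Γ)) _ _ (fun _ => rfl)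
    set a : Γ → ℝ := fun x => ∑ g : Fin N → Γ, φ (Fin.cons x g) with ha
    set b : Γ → ℝ := fun x => ∑ g : Fin N → Γ, φ (Fin.cons x g) ^ 2 with hb
    have h1 : ∀ x, G * b x - a x ^ 2 ≤ N * G ^ 2 := by
      intro x
      refine ih (fun g => φ (Fin.cons x g)) ?_
      intro g h
      have := hφ (Fin.cons x g) (Fin.cons x h)
      rwa [hd_cons_same] at this
    have h2 : ∀ x y, |a x - a y| ≤ G := by
      intro x y
      rw [ha]
      simp only
      rw [← Finset.sum_sub_distrib]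
      refine (Finset.abs_sum_le_sum_abs _ _).trans ?_
      have : ∀ g ∈ (Finset.univ : Finset (Fin N → Γ)), |φ (Fin.cons x g) - φ (Fin.cons y g)| ≤ 1 :=
        fun g _ => (hφ _ _).trans (hd_cons_le x y g)
      refine (Finset.sum_le_sum this).trans ?_
      simp [hG]
    have h3 : K * ∑ x, a x ^ 2 - (∑ x, a x) ^ 2 ≤ K ^ 2 * G ^ 2 := by
      have h4 := sum_sq_sub a
      have h5 : ∑ x, ∑ y, (a x - a y) ^ 2 ≤ K ^ 2 * G ^ 2 := by
        have : ∀ x ∈ (Finset.univ : Finset Γ), ∑ y, (a x - a y) ^ 2 ≤ K * G ^ 2 := by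
          intro x _
          have h6 : ∀ y ∈ (Finset.univ : Finset Γ), (a x - a y) ^ 2 ≤ G ^ 2 := by
            intro y _
            rw [← sq_abs]
            exact pow_le_pow_left₀ (abs_nonneg _) (h2 x y) 2
          refine (Finset.sum_le_sum h6).trans ?_
          simp [hK]
        refine (Finset.sum_le_sum this).trans ?_
        simp only [Finset.sum_const, Finset.card_univ, nsmul_eq_mul, ← hK]
        exact le_of_eq (by ring)
      have hKG : 0 ≤ K ^ 2 * G ^ 2 := by positivity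
      have h7 : 2 * (K * ∑ x, a x ^ 2 - (∑ x, a x) ^ 2) ≤ K ^ 2 * G ^ 2 := by
        rw [hK, ← h4]; exact h5
      linarith
    have h8 : G * ∑ x, b x - ∑ x, a x ^ 2 ≤ K * (N * G ^ 2) := by
      rw [Finset.mul_sum, ← Finset.sum_sub_distrib]
      refine (Finset.sum_le_sum fun x _ => h1 x).trans ?_
      simp [hK]
    have hK0 : 0 ≤ K := by positivity
    have h9 : K * (G * ∑ x, b x - ∑ x, a x ^ 2) ≤ K * (K * (N * G ^ 2)) :=
      mul_le_mul_of_nonneg_left h8 hK0
    rw [hcard, hsum (fun g => φ g ^ 2), hsum φ]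
    push_cast
    change K * G * ∑ x, b x - (∑ x, a x) ^ 2 ≤ (N + 1) * (K * G) ^ 2
    nlinarith [h9, h3]

/-- distance to a nonempty set -/
noncomputable def hs {N : ℕ} (S : Finset (Fin N → Γ)) (hS : S.Nonempty) (g : Fin N → Γ) : ℝ :=
  S.inf' hS (fun s => hd g s)

omit [Fintype Γ] in
lemma hs_nonneg {N : ℕ} (S : Finset (Fin N → Γ)) (hS : S.Nonempty) (g : Fin N → Γ) :
    0 ≤ hs S hS g := by
  unfold hs
  exact Finset.le_inf' _ _ fun s _ => hd_nonneg g s

omit [Fintype Γ] in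
lemma hs_le {N : ℕ} (S : Finset (Fin N → Γ)) (hS : S.Nonempty) (g s : Fin N → Γ) (h : s ∈ S) :
    hs S hS g ≤ hd g s :=
  Finset.inf'_le _ h

omit [Fintype Γ] in
lemma hs_exists {N : ℕ} (S : Finset (Fin N → Γ)) (hS : S.Nonempty) (g : Fin N → Γ) :
    ∃ s ∈ S, hd g s = hs S hS g := by
  obtain ⟨s, hs1, hs2⟩ := Finset.exists_mem_eq_inf' hS (fun s => hd g s)
  exact ⟨s, hs1, hs2.symm⟩

omit [Fintype Γ] in
lemma hs_mem {N : ℕ} (S : Finset (Fin N → Γ)) (hS : S.Nonempty) (g : Fin N → Γ) (h : g ∈ S) :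
    hs S hS g = 0 :=
  le_antisymm ((hs_le S hS g g h).trans (le_of_eq (hd_self g))) (hs_nonneg S hS g)

omit [Fintype Γ] in
lemma hs_lip {N : ℕ} (S : Finset (Fin N → Γ)) (hS : S.Nonempty) (g h : Fin N → Γ) :
    |hs S hS g - hs S hS h| ≤ hd g h := by
  have key : ∀ g h : Fin N → Γ, hs S hS g ≤ hs S hS h + hd g h := by
    intro g h
    obtain ⟨s, hs1, hs2⟩ := hs_exists S hS h
    have := hs_le S hS g s hs1
    have := hd_triangle g h s
    linarith
  rw [abs_sub_le_iff]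
  have h1 := key g h
  have h2 := key h g
  rw [hd_comm] at h2
  constructor <;> linarith

/-- The second moment of the distance to a set of density at least `1/M`. -/
lemma second_moment {N : ℕ} (S : Finset (Fin N → Γ)) (hS : S.Nonempty) (M : ℝ)
    (hM : (Fintype.card (Fin N → Γ) : ℝ) ≤ M * S.card) :
    ∑ g, hs S hS g ^ 2 ≤ N * M * Fintype.card (Fin N → Γ) := by
  set φ := hs S hS with hφ
  set G : ℝ := (Fintype.card (Fin N → Γ) : ℝ) with hG
  have hv := variance_bound N φ (hs_lip S hS)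
  rw [← hG] at hv
  have hcs : (∑ g, φ g) ^ 2 ≤ (G - S.card) * ∑ g, φ g ^ 2 := by
    have h1 : ∑ g, φ g = ∑ g ∈ Sᶜ, φ g := by
      rw [← Finset.sum_add_sum_compl S φ]
      rw [Finset.sum_eq_zero (s := S) (fun g hg => hs_mem S hS g hg), zero_add]
    have h2 : ∑ g ∈ Sᶜ, φ g ^ 2 ≤ ∑ g, φ g ^ 2 :=
      Finset.sum_le_sum_of_subset_of_nonneg (Finset.subset_univ _) (fun g _ _ => sq_nonneg _)
    have h3 : (∑ g ∈ Sᶜ, φ g) ^ 2 ≤ (Sᶜ.card : ℝ) * ∑ g ∈ Sᶜ, φ g ^ 2 :=
      sq_sum_le_card_mul_sum_sq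
    have h4 : (Sᶜ.card : ℝ) = G - S.card := by
      rw [Finset.card_compl, Nat.cast_sub (Finset.card_le_univ S), hG]
    rw [h1]
    refine h3.trans ?_
    rw [h4]
    refine mul_le_mul_of_nonneg_left h2 ?_
    rw [← h4]; positivity
  set T := ∑ g, φ g ^ 2 with hT
  have hT0 : 0 ≤ T := Finset.sum_nonneg fun g _ => sq_nonneg _
  have hS0 : (0:ℝ) < S.card := by exact_mod_cast hS.card_pos
  have h5 : (S.card : ℝ) * T ≤ N * G ^ 2 := by nlinarith
  have hG0 : 0 ≤ G := by positivity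
  have hN0 : (0:ℝ) ≤ N := by positivity
  have h6 : (N:ℝ) * G ^ 2 ≤ S.card * (N * M * G) := by
    have : (N:ℝ) * G * G ≤ N * G * (M * S.card) :=
      mul_le_mul_of_nonneg_left hM (by positivity)
    nlinarith
  exact le_of_mul_le_mul_left (h5.trans h6) hS0

/-- Main consequence: if `S` has density at least `1/M` in `Γ^N` (`Γ` a finite group), there is a
`g` such that all `g * γ` (`γ` diagonal) are close to `S`. -/
theorem exists_close [Group Γ] {N : ℕ} (S : Finset (Fin N → Γ)) (hS : S.Nonempty) (M : ℝ)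
    (hM : (Fintype.card (Fin N → Γ) : ℝ) ≤ M * S.card) :
    ∃ g : Fin N → Γ, ∀ γ : Γ, ∃ s ∈ S,
      hd (fun i => g i * γ) s ≤ Real.sqrt (Fintype.card Γ * (N * M)) := by
  classical
  have h1 := second_moment S hS M hM
  set φ := hs S hS with hφ
  have hG : (0:ℝ) < Fintype.card (Fin N → Γ) := by
    have : 0 < Fintype.card (Fin N → Γ) := Fintype.card_pos_iff.mpr ⟨hS.choose⟩
    exact_mod_cast this
  have h2 : ∑ g : Fin N → Γ, ∑ γ : Γ, φ (fun i => g i * γ) ^ 2
      ≤ ∑ g : Fin N → Γ, (Fintype.card Γ * (N * M) : ℝ) := by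
    rw [Finset.sum_comm]
    have h3 : ∀ γ ∈ (Finset.univ : Finset Γ),
        ∑ g : Fin N → Γ, φ (fun i => g i * γ) ^ 2 ≤ N * M * Fintype.card (Fin N → Γ) := by
      intro γ _
      refine le_of_eq_of_le ?_ h1
      exact Fintype.sum_equiv (Equiv.piCongrRight (fun _ : Fin N => Equiv.mulRight γ))
        (fun g : Fin N → Γ => φ (fun i => g i * γ) ^ 2) (fun g => φ g ^ 2) (fun g => rfl)
    refine (Finset.sum_le_sum h3).trans ?_
    simp only [Finset.sum_const, Finset.card_univ, nsmul_eq_mul]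
    exact le_of_eq (by ring)
  obtain ⟨g, -, hg⟩ := Finset.exists_le_of_sum_le (Finset.univ_nonempty_iff.mpr ⟨hS.choose⟩) h2
  refine ⟨g, fun γ => ?_⟩
  obtain ⟨s, hs1, hs2⟩ := hs_exists S hS (fun i => g i * γ)
  refine ⟨s, hs1, ?_⟩
  rw [hs2]
  apply Real.le_sqrt_of_sq_le
  refine le_trans ?_ hg
  exact Finset.single_le_sum (f := fun γ : Γ => φ (fun i => g i * γ) ^ 2)
    (fun γ _ => sq_nonneg _) (Finset.mem_univ γ)

end Pool.Agent.W656.Conc
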