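import Mathlib
import Pool.Agent.W656.Conc

set_option autoImplicit false

/-! Diagonal vectors and the geometric part of the argument. -/

namespace Pool.Agent.W656.Geo

open Finset Pool.Agent.W656.Conc ComplexConjugate

/-- Nearest point from a bound on the Hausdorff distance of finite sets. -/
lemma exists_near {X : Type} [MetricSpace X] (s t : Finset X) (hs : s.Nonempty) (ht : t.Nonempty)
    (x : X) (hx : x ∈ s) :
    ∃ y ∈ t, dist x y ≤ Metric.hausdorffDist (s : Set X) (t : Set X) := by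
  have hfin : Metric.hausdorffEDist (s : Set X) (t : Set X) ≠ ⊤ :=
    Metric.hausdorffEDist_ne_top_of_nonempty_of_bounded (by exact_mod_cast hs)
      (by exact_mod_cast ht) s.finite_toSet.isBounded t.finite_toSet.isBounded
  have h1 : Metric.infDist x (t : Set X) ≤ Metric.hausdorffDist (s : Set X) (t : Set X) :=
    Metric.infDist_le_hausdorffDist_of_mem (by exact_mod_cast hx) hfin
  obtain ⟨y, hy1, hy2⟩ := t.finite_toSet.isCompact.exists_infDist_eq_dist
    (by exact_mod_cast ht) x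
  exact ⟨y, by exact_mod_cast hy1, by rw [← hy2]; exact h1⟩

section vectors

variable {E : Type} [NormedAddCommGroup E] [InnerProductSpace ℂ E] {e : ℕ → E}

/-- the diagonal vector attached to `w`. -/
noncomputable def uvec (e : ℕ → E) {N : ℕ} (w : Fin N → ℂ) : E :=
  ∑ i : Fin N, (w i / Real.sqrt N : ℂ) • e i

lemma norm_sum_sq (he : Orthonormal ℂ e) {N : ℕ} (c : Fin N → ℂ) :
    ‖∑ i : Fin N, c i • e i‖ ^ 2 = ∑ i, ‖c i‖ ^ 2 := by
  have he' : Orthonormal ℂ (fun i : Fin N => e i) := he.comp _ Fin.val_injective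
  have h := he'.inner_sum c c Finset.univ
  have h2 : ((‖∑ i : Fin N, c i • e i‖ ^ 2 : ℝ) : ℂ) = ((∑ i, ‖c i‖ ^ 2 : ℝ) : ℂ) := by
    have h3 := inner_self_eq_norm_sq_to_K (𝕜 := ℂ) (∑ i : Fin N, c i • e i)
    push_cast
    have h4 : ((RCLike.ofReal ‖∑ i : Fin N, c i • e i‖ : ℂ)) = ((‖∑ i : Fin N, c i • e i‖ : ℝ) : ℂ) := rfl
    rw [h4] at h3
    rw [← h3, h]
    refine Finset.sum_congr rfl fun i _ => ?_
    rw [mul_comm, Complex.mul_conj, Complex.normSq_eq_norm_sq]
    push_cast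
    rfl
  exact_mod_cast h2

lemma norm_uvec (he : Orthonormal ℂ e) {N : ℕ} (hN : 0 < N) (w : Fin N → ℂ)
    (hw : ∀ i, ‖w i‖ = 1) : ‖uvec e w‖ = 1 := by
  have h : ‖uvec e w‖ ^ 2 = 1 := by
    unfold uvec
    rw [norm_sum_sq he]
    have : ∀ i, ‖(w i / Real.sqrt N : ℂ)‖ ^ 2 = 1 / N := by
      intro i
      rw [norm_div, hw i, Complex.norm_real, Real.norm_of_nonneg (Real.sqrt_nonneg _), div_pow,
        Real.sq_sqrt (Nat.cast_nonneg _), one_pow]
    simp only [this, Finset.sum_const, Finset.card_univ, Fintype.card_fin, nsmul_eq_mul]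
    have : (N : ℝ) ≠ 0 := by exact_mod_cast hN.ne'
    field_simp
  nlinarith [norm_nonneg (uvec e w), sq_nonneg (‖uvec e w‖ - 1)]

lemma uvec_sub (he : Orthonormal ℂ e) {N : ℕ} (hN : 0 < N) (w w' : Fin N → ℂ)
    (hw : ∀ i, ‖w i‖ = 1) (hw' : ∀ i, ‖w' i‖ = 1) (D : ℝ)
    (hD : ∑ i, (if w i = w' i then (0 : ℝ) else 1) ≤ D) :
    ‖uvec e w - uvec e w'‖ ^ 2 ≤ 4 * D / N := by
  have h1 : uvec e w - uvec e w' = ∑ i : Fin N, ((w i - w' i) / Real.sqrt N : ℂ) • e i := by
    unfold uvec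
    rw [← Finset.sum_sub_distrib]
    refine Finset.sum_congr rfl fun i _ => ?_
    rw [← sub_smul, sub_div]
  have hN' : (0 : ℝ) < N := by exact_mod_cast hN
  rw [h1, norm_sum_sq he]
  have h2 : ∀ i ∈ (Finset.univ : Finset (Fin N)), ‖((w i - w' i) / Real.sqrt N : ℂ)‖ ^ 2
      ≤ (4 / N) * (if w i = w' i then (0 : ℝ) else 1) := by
    intro i _
    rw [norm_div, Complex.norm_real, Real.norm_of_nonneg (Real.sqrt_nonneg _), div_pow,
      Real.sq_sqrt (Nat.cast_nonneg _)]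
    split_ifs with h
    · rw [h]; simp
    · have h3 : ‖w i - w' i‖ ≤ 2 := by
        refine (norm_sub_le _ _).trans ?_
        rw [hw i, hw' i]; norm_num
      have h4 : ‖w i - w' i‖ ^ 2 ≤ 4 := by nlinarith [norm_nonneg (w i - w' i)]
      rw [mul_one]
      gcongr
  refine (Finset.sum_le_sum h2).trans ?_
  rw [← Finset.mul_sum]
  calc (4 / N : ℝ) * ∑ i, (if w i = w' i then (0 : ℝ) else 1) ≤ (4 / N) * D := by
        gcongr
    _ = 4 * D / N := by ring

lemma uvec_mul (e : ℕ → E) {N : ℕ} (w : Fin N → ℂ) (c : ℂ) :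
    uvec e (fun i => w i * c) = c • uvec e w := by
  unfold uvec
  rw [Finset.smul_sum]
  refine Finset.sum_congr rfl fun i _ => ?_
  rw [smul_smul]
  congr 1
  ring

end vectors

end Pool.Agent.W656.Geo
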