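import Mathlib
import Pool.Agent.W656.Conc
import Pool.Agent.W656.Geo

set_option autoImplicit false

/-! No uniformly Lipschitz retractions between finite subset spaces of an infinite-dimensional
Hilbert space. -/

namespace Pool.Agent.W656.MainA

open Finset Pool.Agent.W656.Conc Pool.Agent.W656.Geo ComplexConjugate

/-- the cell of side `ε` containing `z`. -/
noncomputable def cell (ε : ℝ) (z : ℂ) : ℤ × ℤ := (⌊z.re / ε⌋, ⌊z.im / ε⌋)

lemma floor_close {ε a b : ℝ} (hε : 0 < ε) (h : ⌊a / ε⌋ = ⌊b / ε⌋) : |a - b| ≤ ε := by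
  have h1 := Int.abs_sub_lt_one_of_floor_eq_floor h
  have h2 : a / ε - b / ε = (a - b) / ε := by ring
  rw [h2, abs_div, abs_of_pos hε, div_lt_one hε] at h1
  exact h1.le

lemma cell_close {ε : ℝ} (hε : 0 < ε) {z w : ℂ} (h : cell ε z = cell ε w) : ‖z - w‖ ≤ 2 * ε := by
  have h1 : ⌊z.re / ε⌋ = ⌊w.re / ε⌋ := congrArg Prod.fst h
  have h2 : ⌊z.im / ε⌋ = ⌊w.im / ε⌋ := congrArg Prod.snd h
  have h3 := floor_close hε h1
  have h4 := floor_close hε h2
  refine (Complex.norm_le_abs_re_add_abs_im _).trans ?_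
  rw [Complex.sub_re, Complex.sub_im]
  linarith

lemma floor_mem {ε a : ℝ} (hε : 0 < ε) (ha : |a| ≤ 2) :
    ⌊a / ε⌋ ∈ Finset.Icc (⌊-2 / ε⌋) (⌊2 / ε⌋) := by
  rw [abs_le] at ha
  rw [Finset.mem_Icc]
  constructor
  · apply Int.floor_le_floor
    exact div_le_div_of_nonneg_right ha.1 hε.le
  · apply Int.floor_le_floor
    exact div_le_div_of_nonneg_right ha.2 hε.le

lemma cell_mem {ε : ℝ} (hε : 0 < ε) {z : ℂ} (hz : ‖z‖ ≤ 2) :
    cell ε z ∈ (Finset.Icc (⌊-2 / ε⌋) (⌊2 / ε⌋)) ×ˢ (Finset.Icc (⌊-2 / ε⌋) (⌊2 / ε⌋)) := by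
  rw [Finset.mem_product]
  exact ⟨floor_mem hε ((Complex.abs_re_le_norm z).trans hz),
    floor_mem hε ((Complex.abs_im_le_norm z).trans hz)⟩

theorem core (E : Type) [NormedAddCommGroup E] [InnerProductSpace ℂ E] (e : ℕ → E)
    (he : Orthonormal ℂ e) (C' : ℝ) (hC0 : 0 ≤ C') (n : ℕ) (hn2 : 2 ≤ n)
    (Γ : Type) [Group Γ] [Fintype Γ] [DecidableEq Γ] (ev : Γ → ℂ) (hev1 : ∀ γ, ‖ev γ‖ = 1)
    (hevinj : Function.Injective ev) (hevmul : ∀ a b : Γ, ev (a * b) = ev a * ev b)
    (hevone : ev 1 = 1) (hcard : Fintype.card Γ = n) (ζ : Γ) (hζ1 : ζ ≠ 1)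
    (hζC : C' * ‖ev ζ - 1‖ ≤ 1 / 2) (r : Finset E → Finset E)
    (hr1 : ∀ s : Finset E, s.Nonempty → s.card ≤ n → (r s).Nonempty ∧ (r s).card ≤ n - 1)
    (hr2 : ∀ s : Finset E, s.Nonempty → s.card ≤ n - 1 → r s = s)
    (hr4 : ∀ s t : Finset E, s.Nonempty → s.card ≤ n → t.Nonempty → t.card ≤ n →
        Metric.hausdorffDist ((r s : Finset E) : Set E) ((r t : Finset E) : Set E)
          ≤ C' * Metric.hausdorffDist ((s : Finset E) : Set E) ((t : Finset E) : Set E)) :
    False := by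
  classical
  -- separation of the elements of `Γ`
  obtain ⟨σ, hσ0, hσ⟩ : ∃ σ : ℝ, 0 < σ ∧ ∀ a b : Γ, a ≠ b → σ ≤ ‖ev a - ev b‖ := by
    have hne : ((Finset.univ : Finset (Γ × Γ)).filter (fun p => p.1 ≠ p.2)).Nonempty :=
      ⟨(ζ, 1), by simp [hζ1]⟩
    refine ⟨((Finset.univ : Finset (Γ × Γ)).filter (fun p => p.1 ≠ p.2)).inf' hne
      (fun p => ‖ev p.1 - ev p.2‖), ?_, ?_⟩
    · rw [Finset.lt_inf'_iff]
      intro p hp
      rw [norm_pos_iff, sub_ne_zero]
      exact fun h => (Finset.mem_filter.mp hp).2 (hevinj h)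
    · intro a b hab
      exact Finset.inf'_le (fun p : Γ × Γ => ‖ev p.1 - ev p.2‖)
        (Finset.mem_filter.mpr ⟨Finset.mem_univ (a, b), hab⟩)
  -- parameters
  set ε : ℝ := σ / 32 with hε
  have hε0 : 0 < ε := by positivity
  set box : Finset (ℤ × ℤ) :=
    (Finset.Icc (⌊-2 / ε⌋) (⌊2 / ε⌋)) ×ˢ (Finset.Icc (⌊-2 / ε⌋) (⌊2 / ε⌋)) with hbox
  set M : ℕ := box.powerset.card with hM
  have hM0 : 0 < M := Finset.card_pos.mpr ⟨∅, Finset.empty_mem_powerset _⟩
  set L : ℝ := C' + 2 with hL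
  have hL0 : 0 < L := by positivity
  set θ : ℝ := σ / (32 * L) with hθ
  have hθ0 : 0 < θ := by positivity
  obtain ⟨N, hN⟩ := exists_nat_gt (16 * n * M / θ ^ 4)
  have hN0' : (0 : ℝ) < N := lt_of_le_of_lt (by positivity) hN
  have hN0 : 0 < N := by exact_mod_cast hN0'
  have hθN : 4 * Real.sqrt (Fintype.card Γ * (N * M)) / N ≤ θ ^ 2 := by
    rw [hcard, div_le_iff₀ hN0']
    have h1 : (n : ℝ) * (N * M) ≤ (θ ^ 2 * N / 4) ^ 2 := by
      rw [div_lt_iff₀ (by positivity)] at hN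
      have h2 : (θ ^ 2 * N / 4) ^ 2 = (N * θ ^ 4) * N / 16 := by ring
      rw [h2]
      have h3 : 16 * (n : ℝ) * M * N ≤ N * θ ^ 4 * N :=
        mul_le_mul_of_nonneg_right hN.le hN0'.le
      linarith
    have h4 : Real.sqrt (n * (N * M)) ≤ θ ^ 2 * N / 4 :=
      Real.sqrt_le_iff.mpr ⟨by positivity, h1⟩
    linarith
  -- the vectors and the sets
  let u : (Fin N → Γ) → E := fun g => uvec e (fun i => ev (g i))
  have hu1 : ∀ g, ‖u g‖ = 1 := fun g => norm_uvec he hN0 _ (fun i => hev1 _)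
  have hu0 : ∀ g, u g ≠ 0 := fun g h => by
    have := hu1 g
    rw [h, norm_zero] at this
    exact zero_ne_one this
  have humul : ∀ g (γ : Γ), u (fun i => g i * γ) = ev γ • u g := by
    intro g γ
    rw [← uvec_mul e (fun i => ev (g i)) (ev γ)]
    simp only [u, hevmul]
  have husub : ∀ g g' : Fin N → Γ, hd g g' ≤ Real.sqrt (Fintype.card Γ * (N * M)) →
      ‖u g - u g'‖ ≤ θ := by
    intro g g' h
    have h1 := uvec_sub he hN0 (fun i => ev (g i)) (fun i => ev (g' i)) (fun i => hev1 _)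
      (fun i => hev1 _) (Real.sqrt (Fintype.card Γ * (N * M))) (by
        refine le_trans (le_of_eq ?_) h
        unfold hd
        refine Finset.sum_congr rfl fun i _ => ?_
        simp only [hevinj.eq_iff])
    have h2 : ‖u g - u g'‖ ^ 2 ≤ θ ^ 2 := h1.trans hθN
    exact (pow_le_pow_iff_left₀ (norm_nonneg _) hθ0.le two_ne_zero).mp h2
  let A : (Fin N → Γ) → Finset E := fun g => Finset.univ.image (fun γ : Γ => ev γ • u g)
  have hAmem : ∀ g x, x ∈ A g ↔ ∃ γ : Γ, ev γ • u g = x := by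
    intro g x
    simp only [A, Finset.mem_image, Finset.mem_univ, true_and]
  have hAinj : ∀ g, Function.Injective (fun γ : Γ => ev γ • u g) := fun g a b h =>
    hevinj (smul_left_injective ℂ (hu0 g) h)
  have hAcard : ∀ g, (A g).card = n := by
    intro g
    rw [Finset.card_image_of_injective _ (hAinj g), Finset.card_univ, hcard]
  have hAne : ∀ g, (A g).Nonempty := fun g => ⟨ev 1 • u g, (hAmem _ _).mpr ⟨1, rfl⟩⟩
  have hAinv : ∀ g (γ : Γ), A (fun i => g i * γ) = A g := by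
    intro g γ
    ext x
    rw [hAmem, hAmem, humul]
    constructor
    · rintro ⟨a, rfl⟩
      exact ⟨a * γ, by rw [hevmul, mul_smul]⟩
    · rintro ⟨a, rfl⟩
      exact ⟨a * γ⁻¹, by rw [smul_smul, ← hevmul, inv_mul_cancel_right]⟩
  have hR : ∀ g, (r (A g)).Nonempty ∧ (r (A g)).card ≤ n - 1 := fun g =>
    hr1 _ (hAne g) (hAcard g).le
  -- points of `r (A g)` are close to `A g`
  have hclose : ∀ g, ∀ x ∈ r (A g), ∃ γ : Γ, ‖x - ev γ • u g‖ ≤ 1 / 2 := by
    intro g x hx
    have hmem1 : ev 1 • u g ∈ A g := (hAmem _ _).mpr ⟨1, rfl⟩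
    set B := (A g).erase (ev 1 • u g) with hB
    have hBcard : B.card = n - 1 := by rw [hB, Finset.card_erase_of_mem hmem1, hAcard]
    have hBne : B.Nonempty := Finset.card_pos.mp (by omega)
    have hrB : r B = B := hr2 B hBne hBcard.le
    have hζB : ev ζ • u g ∈ B := by
      rw [hB, Finset.mem_erase]
      exact ⟨fun h => hζ1 (hAinj g h), (hAmem _ _).mpr ⟨ζ, rfl⟩⟩
    have hdist : Metric.hausdorffDist ((A g : Finset E) : Set E) ((B : Finset E) : Set E)
        ≤ ‖ev ζ - 1‖ := by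
      apply Metric.hausdorffDist_le_of_mem_dist (norm_nonneg _)
      · intro y hy
        by_cases h : y = ev 1 • u g
        · refine ⟨ev ζ • u g, hζB, ?_⟩
          rw [h, dist_comm, dist_eq_norm, ← sub_smul, norm_smul, hu1, mul_one, hevone]
        · exact ⟨y, by
            rw [Finset.mem_coe, hB, Finset.mem_erase]; exact ⟨h, hy⟩, by simp⟩
      · intro y hy
        exact ⟨y, Finset.mem_of_mem_erase hy, by simp⟩
    have h1 := hr4 (A g) B (hAne g) (hAcard g).le hBne (by omega)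
    rw [hrB] at h1
    obtain ⟨y, hy1, hy2⟩ := exists_near (r (A g)) B (hR g).1 hBne x hx
    have hy3 : y ∈ A g := Finset.mem_of_mem_erase hy1
    obtain ⟨γ, rfl⟩ := (hAmem _ _).mp hy3
    refine ⟨γ, ?_⟩
    rw [← dist_eq_norm]
    calc dist x (ev γ • u g) ≤ _ := hy2
      _ ≤ _ := h1
      _ ≤ C' * ‖ev ζ - 1‖ := mul_le_mul_of_nonneg_left hdist hC0
      _ ≤ 1 / 2 := hζC
  have hnorm : ∀ g, ∀ x ∈ r (A g), ‖x‖ ≤ 3 / 2 := by
    intro g x hx
    obtain ⟨γ, hγ⟩ := hclose g x hx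
    have h1 : ‖x‖ ≤ ‖x - ev γ • u g‖ + ‖ev γ • u g‖ := by
      have := norm_add_le (x - ev γ • u g) (ev γ • u g)
      rwa [sub_add_cancel] at this
    rw [norm_smul, hev1, hu1] at h1
    linarith
  -- the projections
  let p : (Fin N → Γ) → E → ℂ := fun g x => inner ℂ (u g) x
  have hpn : ∀ g, ∀ x ∈ r (A g), ‖p g x‖ ≤ 2 := by
    intro g x hx
    refine (norm_inner_le_norm _ _).trans ?_
    rw [hu1, one_mul]
    linarith [hnorm g x hx]
  have hpl : ∀ g, ∀ x ∈ r (A g), 1 / 2 ≤ ‖p g x‖ := by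
    intro g x hx
    obtain ⟨γ, hγ⟩ := hclose g x hx
    have h1 : p g x - ev γ = inner ℂ (u g) (x - ev γ • u g) := by
      simp only [p]
      rw [inner_sub_right, inner_smul_right, inner_self_eq_norm_sq_to_K, hu1]
      simp
    have h2 : ‖p g x - ev γ‖ ≤ 1 / 2 := by
      rw [h1]
      refine (norm_inner_le_norm _ _).trans ?_
      rw [hu1, one_mul]
      exact hγ
    have h3 : ‖ev γ‖ ≤ ‖p g x‖ + ‖p g x - ev γ‖ := by
      have := norm_sub_le (p g x) (p g x - ev γ)
      rwa [sub_sub_cancel] at this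
    rw [hev1] at h3
    linarith
  have hpmul : ∀ g (γ : Γ) x, p (fun i => g i * γ) x = conj (ev γ) * p g x := by
    intro g γ x
    simp only [p]
    rw [humul, inner_smul_left]
  -- closeness relation for nearby `g`, `g'`
  have hrel : ∀ g g', ‖u g - u g'‖ ≤ θ → ∀ x ∈ r (A g), ∃ x' ∈ r (A g'),
      ‖p g x - p g' x'‖ ≤ σ / 32 := by
    intro g g' h x hx
    have hdist : Metric.hausdorffDist ((A g : Finset E) : Set E) ((A g' : Finset E) : Set E)
        ≤ θ := by
      apply Metric.hausdorffDist_le_of_mem_dist hθ0.le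
      · intro y hy
        obtain ⟨γ, rfl⟩ := (hAmem _ _).mp hy
        refine ⟨ev γ • u g', (hAmem _ _).mpr ⟨γ, rfl⟩, ?_⟩
        rw [dist_eq_norm, ← smul_sub, norm_smul, hev1, one_mul]
        exact h
      · intro y hy
        obtain ⟨γ, rfl⟩ := (hAmem _ _).mp hy
        refine ⟨ev γ • u g, (hAmem _ _).mpr ⟨γ, rfl⟩, ?_⟩
        rw [dist_eq_norm, ← smul_sub, norm_smul, hev1, one_mul, norm_sub_rev]
        exact h
    have h1 := hr4 (A g) (A g') (hAne g) (hAcard g).le (hAne g') (hAcard g').le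
    obtain ⟨x', hx1, hx2⟩ := exists_near (r (A g)) (r (A g')) (hR g).1 (hR g').1 x hx
    refine ⟨x', hx1, ?_⟩
    have h2 : ‖x - x'‖ ≤ C' * θ := by
      rw [← dist_eq_norm]
      exact hx2.trans (h1.trans (mul_le_mul_of_nonneg_left hdist hC0))
    have h3 : p g x - p g' x' = inner ℂ (u g - u g') x + inner ℂ (u g') (x - x') := by
      simp only [p]
      rw [inner_sub_left, inner_sub_right]
      ring
    rw [h3]
    refine (norm_add_le _ _).trans ?_
    have h4 : ‖inner ℂ (u g - u g') x‖ ≤ θ * (3 / 2) :=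
      (norm_inner_le_norm _ _).trans
        (mul_le_mul h (hnorm g x hx) (norm_nonneg _) hθ0.le)
    have h5 : ‖inner ℂ (u g') (x - x')‖ ≤ C' * θ := by
      refine (norm_inner_le_norm _ _).trans ?_
      rw [hu1, one_mul]
      exact h2
    have h6 : θ * (3 / 2) + C' * θ ≤ θ * L := by
      rw [hL]; nlinarith
    have h7 : θ * L = σ / 32 := by
      rw [hθ]
      field_simp
    linarith
  -- colouring
  let col : (Fin N → Γ) → Finset (ℤ × ℤ) := fun g => (r (A g)).image (fun x => cell ε (p g x))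
  have hcol : ∀ g ∈ (Finset.univ : Finset (Fin N → Γ)), col g ∈ box.powerset := by
    intro g _
    rw [Finset.mem_powerset]
    intro c hc
    obtain ⟨x, hx, rfl⟩ := Finset.mem_image.mp hc
    exact cell_mem hε0 (hpn g x hx)
  have hGpos : (0 : ℝ) < Fintype.card (Fin N → Γ) := by
    have : 0 < Fintype.card (Fin N → Γ) := Fintype.card_pos_iff.mpr ⟨fun _ => 1⟩
    exact_mod_cast this
  have hMr : (0 : ℝ) < M := by exact_mod_cast hM0
  obtain ⟨c, hc1, hc2⟩ := Finset.exists_le_card_fiber_of_nsmul_le_card_of_maps_to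
    (s := (Finset.univ : Finset (Fin N → Γ))) (t := box.powerset) (f := col)
    (b := (Fintype.card (Fin N → Γ) : ℝ) / M) hcol ⟨∅, Finset.empty_mem_powerset _⟩ (by
      rw [nsmul_eq_mul, Finset.card_univ, ← hM]
      rw [mul_div_cancel₀ _ hMr.ne'])
  set S := (Finset.univ : Finset (Fin N → Γ)).filter (fun g => col g = c) with hS
  have hSne : S.Nonempty := by
    rw [← Finset.card_pos]
    have : (0 : ℝ) < S.card := lt_of_lt_of_le (by positivity) hc2
    exact_mod_cast this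
  have hSM : (Fintype.card (Fin N → Γ) : ℝ) ≤ M * S.card := by
    rw [div_le_iff₀ hMr] at hc2
    linarith
  obtain ⟨g, hg⟩ := exists_close S hSne M hSM
  -- all `g * γ` are close to each other
  have hcolrel : ∀ s s', s ∈ S → s' ∈ S → ∀ x ∈ r (A s), ∃ x' ∈ r (A s'),
      ‖p s x - p s' x'‖ ≤ σ / 16 := by
    intro s s' hs hs' x hx
    have h1 : cell ε (p s x) ∈ col s := Finset.mem_image.mpr ⟨x, hx, rfl⟩
    rw [(Finset.mem_filter.mp hs).2, ← (Finset.mem_filter.mp hs').2] at h1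
    obtain ⟨x', hx', h2⟩ := Finset.mem_image.mp h1
    refine ⟨x', hx', ?_⟩
    have := cell_close hε0 h2
    rw [norm_sub_rev]
    linarith
  have hall : ∀ γ : Γ, ∀ x ∈ r (A g), ∃ x' ∈ r (A g),
      ‖conj (ev γ) * p g x - p g x'‖ ≤ σ / 8 := by
    intro γ x hx
    obtain ⟨s, hs1, hs2⟩ := hg γ
    obtain ⟨s', hs1', hs2'⟩ := hg 1
    have hx' : x ∈ r (A (fun i => g i * γ)) := by rw [hAinv]; exact hx
    obtain ⟨y, hy1, hy2⟩ := hrel _ s (husub _ s hs2) x hx'
    obtain ⟨z, hz1, hz2⟩ := hcolrel s s' hs1 hs1' y hy1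
    obtain ⟨w, hw1, hw2⟩ := hrel s' (fun i => g i * 1) (by
      rw [norm_sub_rev]; exact husub _ s' hs2') z hz1
    have hg1 : (fun i => g i * (1 : Γ)) = g := by funext i; rw [mul_one]
    rw [hg1] at hw1 hw2
    refine ⟨w, hw1, ?_⟩
    rw [hpmul] at hy2
    have h3 : conj (ev γ) * p g x - p g w = (conj (ev γ) * p g x - p s y) + (p s y - p s' z)
        + (p s' z - p g w) := by ring
    rw [h3]
    have h4 := norm_add₃_le (a := conj (ev γ) * p g x - p s y) (b := p s y - p s' z)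
      (c := p s' z - p g w)
    linarith
  -- contradiction by counting
  obtain ⟨x, hx⟩ := (hR g).1
  choose f hf1 hf2 using fun γ => hall γ x hx
  have hfinj : Function.Injective f := by
    intro a b hab
    by_contra hne
    have h1 := hf2 a
    have h2 := hf2 b
    rw [hab] at h1
    have h3 : ‖conj (ev a) * p g x - conj (ev b) * p g x‖ ≤ σ / 4 := by
      have : conj (ev a) * p g x - conj (ev b) * p g x
          = (conj (ev a) * p g x - p g (f b)) - (conj (ev b) * p g x - p g (f b)) := by ring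
      rw [this]
      refine (norm_sub_le _ _).trans ?_
      linarith
    have h4 : ‖conj (ev a) * p g x - conj (ev b) * p g x‖ = ‖ev a - ev b‖ * ‖p g x‖ := by
      rw [← sub_mul, norm_mul, ← map_sub, RCLike.norm_conj]
    have h5 := hσ a b hne
    have h6 := hpl g x hx
    rw [h4] at h3
    nlinarith [norm_nonneg (ev a - ev b)]
  have h1 : Fintype.card Γ ≤ (r (A g)).card := by
    rw [← Finset.card_univ]
    exact Finset.card_le_card_of_injOn f (fun γ _ => hf1 γ) (fun a _ b _ h => hfinj h)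
  have h2 := (hR g).2
  rw [hcard] at h1
  omega

theorem main (E : Type) [NormedAddCommGroup E] [InnerProductSpace ℂ E] (e : ℕ → E)
    (he : Orthonormal ℂ e) (C : ℝ) :
    ∃ n : ℕ, 2 ≤ n ∧ ¬ ∃ r : Finset E → Finset E,
      (∀ s : Finset E, s.Nonempty → s.card ≤ n → (r s).Nonempty ∧ (r s).card ≤ n - 1) ∧
      (∀ s : Finset E, s.Nonempty → s.card ≤ n - 1 → r s = s) ∧
      (∀ s t : Finset E, s.Nonempty → s.card ≤ n → t.Nonempty → t.card ≤ n →
        Metric.hausdorffDist ((r s : Finset E) : Set E) ((r t : Finset E) : Set E)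
          ≤ C * Metric.hausdorffDist ((s : Finset E) : Set E) ((t : Finset E) : Set E)) := by
  classical
  set C' := max C 0 with hC'
  have hC0 : 0 ≤ C' := le_max_right _ _
  obtain ⟨n, hn⟩ := exists_nat_gt (4 * Real.pi * C' + 2)
  have hn2' : (2 : ℝ) < n := by
    have : 0 ≤ 4 * Real.pi * C' := by positivity
    linarith
  have hn2 : 2 ≤ n := by exact_mod_cast hn2'.le
  have hn0 : n ≠ 0 := by omega
  have : NeZero n := ⟨hn0⟩
  refine ⟨n, hn2, ?_⟩
  rintro ⟨r, hr1, hr2, hr3⟩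
  have hr4 : ∀ s t : Finset E, s.Nonempty → s.card ≤ n → t.Nonempty → t.card ≤ n →
        Metric.hausdorffDist ((r s : Finset E) : Set E) ((r t : Finset E) : Set E)
          ≤ C' * Metric.hausdorffDist ((s : Finset E) : Set E) ((t : Finset E) : Set E) := by
    intro s t h1 h2 h3 h4
    refine (hr3 s t h1 h2 h3 h4).trans ?_
    exact mul_le_mul_of_nonneg_right (le_max_left _ _) Metric.hausdorffDist_nonneg
  -- the group of roots of unity
  have hprim := Complex.isPrimitiveRoot_exp n hn0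
  have hζ : ((((hprim.toRootsOfUnity : rootsOfUnity n ℂ) : ℂˣ) : ℂ))
      = Complex.exp (2 * Real.pi * Complex.I / n) := rfl
  have hζ1 : hprim.toRootsOfUnity ≠ 1 := by
    intro h
    rw [h] at hζ
    have : n = 1 := by
      have h2 := hprim
      rw [← hζ] at h2
      exact h2.unique IsPrimitiveRoot.one
    omega
  have hζd : ‖((((hprim.toRootsOfUnity : rootsOfUnity n ℂ) : ℂˣ) : ℂ)) - 1‖ ≤ 2 * Real.pi / n := by
    rw [hζ]
    have h1 : (2 * Real.pi * Complex.I / n : ℂ) = Complex.I * ((2 * Real.pi / n : ℝ) : ℂ) := by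
      push_cast
      ring
    rw [h1]
    refine Real.norm_exp_I_mul_ofReal_sub_one_le.trans ?_
    rw [Real.norm_of_nonneg (by positivity)]
  have hζC : C' * ‖((((hprim.toRootsOfUnity : rootsOfUnity n ℂ) : ℂˣ) : ℂ)) - 1‖ ≤ 1 / 2 := by
    have hn0' : (0 : ℝ) < n := by linarith
    refine (mul_le_mul_of_nonneg_left hζd hC0).trans ?_
    have : C' * (2 * Real.pi / n) = (2 * Real.pi * C') / n := by ring
    rw [this, div_le_iff₀ hn0']
    linarith
  have : Finite (rootsOfUnity n ℂ) := inferInstance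
  let _ : Fintype (rootsOfUnity n ℂ) := Fintype.ofFinite _
  exact core E e he C' hC0 n hn2 (rootsOfUnity n ℂ)
    (fun γ => (((γ : rootsOfUnity n ℂ) : ℂˣ) : ℂ))
    (fun γ => Complex.norm_eq_one_of_mem_rootsOfUnity γ.2)
    (fun a b h => Subtype.ext (Units.ext h)) (fun a b => rfl) rfl
    (by rw [← Nat.card_eq_fintype_card]; exact Complex.card_rootsOfUnity n) hprim.toRootsOfUnity hζ1 hζC r hr1 hr2 hr4

end Pool.Agent.W656.MainA
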