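import Pool.Agent.H80R2.BC.Grp
import Pool.Agent.H812R3.KP.Defs

/-!
Von Neumann dimension of closed invariant subspaces of `ℓ²(ι × G)`: the trace property and the
rank-nullity theorem.
-/

set_option autoImplicit false
set_option linter.unusedSectionVars false

open scoped InnerProductSpace ENNReal
open Filter Topology

namespace Pool.Agent.W656.VA

open Pool.Agent.H80R2
open Pool.Agent.H80R2.BC (L2 GMat vdim IsTr LInv Equi act kerA dk pt vals TorDiv Coef AtR)
open Pool.Agent.H812R3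

/-- basis vector -/
noncomputable abbrev de {X : Type} (x : X) : L2 X := KP.dl x

theorem dl_eq {ι G : Type} [Group G] (i : ι) : BC.dl G i = de (i, (1 : G)) := by
  classical
  unfold BC.dl de
  rw [← KP.dl_eq_single]

variable {ι κ G : Type} [Group G]

/-- left translation: `(lt g x) (i, h) = x (i, g * h)` -/
noncomputable def lt (ι : Type) (g : G) : L2 (ι × G) →L[ℂ] L2 (ι × G) :=
  KP.pull (fun p => (p.1, g * p.2)) (by
    rintro ⟨a, b⟩ ⟨c, d⟩ h
    simpa using h)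

theorem lt_apply (g : G) (x : L2 (ι × G)) (i : ι) (h : G) : lt ι g x (i, h) = x (i, g * h) := rfl

theorem isTr_lt (g : G) (x : L2 (ι × G)) : IsTr g x (lt ι g x) := fun _ _ => rfl

theorem isTr_iff (g : G) (x y : L2 (ι × G)) : IsTr g x y ↔ y = lt ι g x := by
  constructor
  · intro h
    ext ⟨i, k⟩
    exact h i k
  · rintro rfl
    exact isTr_lt g x

theorem equi_lt {T : L2 (ι × G) →L[ℂ] L2 (κ × G)} (hT : Equi T) (g : G) (x : L2 (ι × G)) :
    T (VA.lt ι g x) = VA.lt κ g (T x) :=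
  (isTr_iff _ _ _).1 (hT g x _ (isTr_lt g x))

theorem equi_of {T : L2 (ι × G) →L[ℂ] L2 (κ × G)}
    (h : ∀ (g : G) (x : L2 (ι × G)), T (VA.lt ι g x) = VA.lt κ g (T x)) : Equi T := by
  intro g x y hy
  rw [isTr_iff] at hy ⊢
  rw [hy, h]

theorem linv_lt {K : Submodule ℂ (L2 (ι × G))} (hK : LInv K) (g : G) {x : L2 (ι × G)} (hx : x ∈ K) :
    VA.lt ι g x ∈ K := hK g x _ hx (isTr_lt g x)

theorem linv_of {K : Submodule ℂ (L2 (ι × G))}
    (h : ∀ (g : G) (x : L2 (ι × G)), x ∈ K → VA.lt ι g x ∈ K) : LInv K := by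
  intro g x y hx hy
  rw [isTr_iff] at hy
  rw [hy]
  exact h g x hx

theorem lt_lt (g h : G) (x : L2 (ι × G)) : lt ι g (lt ι h x) = lt ι (h * g) x := by
  ext ⟨i, k⟩
  simp [lt_apply, mul_assoc]

theorem lt_one (x : L2 (ι × G)) : lt ι (1 : G) x = x := by
  ext ⟨i, k⟩
  simp [lt_apply]

/-- the bijection behind `lt` -/
def ltE (ι : Type) (g : G) : (ι × G) ≃ (ι × G) := (Equiv.refl ι).prodCongr (Equiv.mulLeft g)

theorem inner_lt_lt (g : G) (x y : L2 (ι × G)) : ⟪lt ι g x, lt ι g y⟫_ℂ = ⟪x, y⟫_ℂ := by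
  rw [lp.inner_eq_tsum, lp.inner_eq_tsum]
  exact (ltE ι g).tsum_eq (fun p => ⟪x p, y p⟫_ℂ)

theorem inner_lt_left (g : G) (x y : L2 (ι × G)) : ⟪lt ι g x, y⟫_ℂ = ⟪x, lt ι g⁻¹ y⟫_ℂ := by
  rw [← inner_lt_lt g x (lt ι g⁻¹ y), lt_lt]
  simp [lt_one]

theorem de_apply_self {X : Type} (x : X) : de x x = 1 := by
  classical
  rw [KP.dl_apply, if_pos rfl]

theorem de_apply_ne {X : Type} {x y : X} (h : y ≠ x) : de x y = 0 := by
  classical
  rw [KP.dl_apply, if_neg h]

theorem lt_de (g h : G) (i : ι) : lt ι g (de (i, h)) = de (i, g⁻¹ * h) := by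
  classical
  ext ⟨j, k⟩
  rw [lt_apply, KP.dl_apply, KP.dl_apply]
  have : ((j, g * k) = (i, h)) ↔ ((j, k) = (i, g⁻¹ * h)) := by
    simp only [Prod.mk.injEq]
    constructor
    · rintro ⟨h1, h2⟩
      exact ⟨h1, by rw [← h2]; group⟩
    · rintro ⟨h1, h2⟩
      exact ⟨h1, by rw [h2]; group⟩
  by_cases hc : (j, g * k) = (i, h)
  · rw [if_pos hc, if_pos (this.1 hc)]
  · rw [if_neg hc, if_neg (fun h' => hc (this.2 h'))]

theorem de_eq_lt (i : ι) (h : G) : de (i, h) = lt ι h⁻¹ (de (i, (1 : G))) := by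
  rw [lt_de]
  simp

theorem equi_adj {T : L2 (ι × G) →L[ℂ] L2 (κ × G)} (hT : Equi T) :
    Equi (ContinuousLinearMap.adjoint T) := by
  apply equi_of
  intro g x
  refine ext_inner_right ℂ fun w => ?_
  rw [ContinuousLinearMap.adjoint_inner_left, inner_lt_left, ← equi_lt hT, inner_lt_left,
    ContinuousLinearMap.adjoint_inner_left]

theorem equi_comp {μ : Type} {S : L2 (κ × G) →L[ℂ] L2 (μ × G)} {T : L2 (ι × G) →L[ℂ] L2 (κ × G)}
    (hS : Equi S) (hT : Equi T) : Equi (S.comp T) := by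
  apply equi_of
  intro g x
  simp only [ContinuousLinearMap.comp_apply]
  rw [equi_lt hT, equi_lt hS]

theorem inner_de {X : Type} (x : X) (f : L2 X) : ⟪de x, f⟫_ℂ = f x := KP.inner_dl x f

theorem inner_de_right {X : Type} (x : X) (f : L2 X) : ⟪f, de x⟫_ℂ = (starRingEnd ℂ) (f x) := by
  rw [← inner_conj_symm, inner_de]

theorem norm_de {X : Type} (x : X) : ‖(de x : L2 X)‖ = 1 := KP.norm_dl x

theorem tsum_prod_fin [Fintype ι] (F : ι × G → ℂ) (hF : Summable F) :
    ∑' x, F x = ∑ j, ∑' h, F (j, h) := by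
  rw [Summable.tsum_prod hF, tsum_fintype]

/-- the Hilbert-Schmidt form of the trace property -/
theorem HS [Fintype ι] [Fintype κ] (X Y : L2 (ι × G) →L[ℂ] L2 (κ × G)) (hX : Equi X)
    (hY : Equi Y) :
    ∑ i : ι, ⟪X (de (i, 1)), Y (de (i, 1))⟫_ℂ
      = ∑ j : κ, ⟪ContinuousLinearMap.adjoint Y (de (j, 1)),
          ContinuousLinearMap.adjoint X (de (j, 1))⟫_ℂ := by
  have key : ∀ (Z : L2 (ι × G) →L[ℂ] L2 (κ × G)) (_ : Equi Z) (h : G) (i : ι) (j : κ),
      ContinuousLinearMap.adjoint Z (de (j, (1 : G))) (i, h)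
        = (starRingEnd ℂ) (Z (de (i, 1)) (j, h⁻¹)) := by
    intro Z hZ h i j
    rw [← inner_de (i, h), ContinuousLinearMap.adjoint_inner_right, inner_de_right]
    congr 1
    rw [de_eq_lt i h, equi_lt hZ, lt_apply, mul_one]
  have e1 : ∀ i, ⟪X (de (i, 1)), Y (de (i, 1))⟫_ℂ
      = ∑ j, ∑' h : G, ⟪X (de (i, 1)) (j, h), Y (de (i, 1)) (j, h)⟫_ℂ := by
    intro i
    rw [lp.inner_eq_tsum]
    exact tsum_prod_fin _ (lp.summable_inner _ _)
  have e2 : ∀ j, ⟪ContinuousLinearMap.adjoint Y (de (j, 1)),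
          ContinuousLinearMap.adjoint X (de (j, 1))⟫_ℂ
      = ∑ i, ∑' h : G, ⟪X (de (i, 1)) (j, h), Y (de (i, 1)) (j, h)⟫_ℂ := by
    intro j
    rw [lp.inner_eq_tsum]
    rw [tsum_prod_fin _ (lp.summable_inner _ _)]
    refine Finset.sum_congr rfl fun i _ => ?_
    rw [← Equiv.tsum_eq (Equiv.inv G)]
    refine tsum_congr fun h => ?_
    simp only [Equiv.inv_apply]
    rw [key X hX, key Y hY, inv_inv]
    simp only [RCLike.inner_apply, RingHomCompTriple.comp_apply, RingHom.id_apply]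
    ring
  rw [Finset.sum_congr rfl fun i _ => e1 i, Finset.sum_congr rfl fun j _ => e2 j,
    Finset.sum_comm]

/-- the trace -/
noncomputable def trc [Fintype ι] (T : L2 (ι × G) →L[ℂ] L2 (ι × G)) : ℂ :=
  ∑ i : ι, ⟪(de (i, (1 : G)) : L2 (ι × G)), T (de (i, 1))⟫_ℂ

theorem trc_comm [Fintype ι] [Fintype κ] (S : L2 (ι × G) →L[ℂ] L2 (κ × G))
    (R : L2 (κ × G) →L[ℂ] L2 (ι × G)) (hS : Equi S) (hR : Equi R) :
    trc (S.comp R) = trc (R.comp S) := by
  have h := HS (ContinuousLinearMap.adjoint R) S (equi_adj hR) hS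
  rw [ContinuousLinearMap.adjoint_adjoint] at h
  unfold trc
  have e1 : ∀ i : ι, ⟪(de (i, (1 : G)) : L2 (ι × G)), (R.comp S) (de (i, 1))⟫_ℂ
      = ⟪ContinuousLinearMap.adjoint R (de (i, 1)), S (de (i, 1))⟫_ℂ := by
    intro i
    rw [ContinuousLinearMap.adjoint_inner_left]
    rfl
  have e2 : ∀ j : κ, ⟪(de (j, (1 : G)) : L2 (κ × G)), (S.comp R) (de (j, 1))⟫_ℂ
      = ⟪ContinuousLinearMap.adjoint S (de (j, 1)), R (de (j, 1))⟫_ℂ := by
    intro j
    rw [ContinuousLinearMap.adjoint_inner_left]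
    rfl
  rw [Finset.sum_congr rfl fun i _ => e1 i, Finset.sum_congr rfl fun j _ => e2 j, h]

/-! ### dimension via projections -/

theorem hasProj {E : Type*} [NormedAddCommGroup E] [InnerProductSpace ℂ E] [CompleteSpace E]
    {K : Submodule ℂ E} (h : IsClosed (K : Set E)) : K.HasOrthogonalProjection := by
  have : CompleteSpace K := h.completeSpace_coe
  infer_instance

theorem infDist_eq {E : Type*} [NormedAddCommGroup E] [InnerProductSpace ℂ E]
    (K : Submodule ℂ E) [K.HasOrthogonalProjection] (d : E) (hd : ‖d‖ = 1) :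
    1 - Metric.infDist d (K : Set E) ^ 2 = ‖K.starProjection d‖ ^ 2 := by
  have h1 : Metric.infDist d (K : Set E) = ‖d - K.starProjection d‖ := by
    rw [Submodule.starProjection_minimal, Metric.infDist_eq_iInf]
    simp only [dist_eq_norm]
    rfl
  have h2 : ‖d‖ ^ 2 = ‖K.starProjection d‖ ^ 2 + ‖Kᗮ.starProjection d‖ ^ 2 :=
    Submodule.norm_sq_eq_add_norm_sq_starProjection d K
  have h3 : Kᗮ.starProjection d = d - K.starProjection d := by
    rw [← Submodule.starProjection_orthogonal_val]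
  rw [h1, ← h3]
  rw [hd] at h2
  linarith

theorem vdim_eq [Fintype ι] (K : Submodule ℂ (L2 (ι × G))) [K.HasOrthogonalProjection] :
    vdim K = ∑ i : ι, ‖K.starProjection (de (i, (1 : G)))‖ ^ 2 := by
  unfold vdim
  refine Finset.sum_congr rfl fun i _ => ?_
  rw [dl_eq, infDist_eq K _ (norm_de _)]

theorem norm_sq_star {E : Type*} [NormedAddCommGroup E] [InnerProductSpace ℂ E]
    (P : Submodule ℂ E) [P.HasOrthogonalProjection] (v : E) :
    ⟪v, P.starProjection v⟫_ℂ = ((‖P.starProjection v‖ ^ 2 : ℝ) : ℂ) := by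
  have h1 : ⟪v - P.starProjection v, P.starProjection v⟫_ℂ = 0 :=
    Submodule.starProjection_inner_eq_zero v _ (Submodule.starProjection_apply_mem P v)
  rw [inner_sub_left, sub_eq_zero] at h1
  rw [h1, inner_self_eq_norm_sq_to_K]
  norm_cast

theorem trc_proj [Fintype ι] (K : Submodule ℂ (L2 (ι × G))) [K.HasOrthogonalProjection] :
    trc K.starProjection = (vdim K : ℂ) := by
  rw [vdim_eq]
  unfold trc
  push_cast
  refine Finset.sum_congr rfl fun i _ => ?_
  rw [norm_sq_star]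
  push_cast
  rfl

theorem vdim_mono [Fintype ι] {K L : Submodule ℂ (L2 (ι × G))} (h : K ≤ L) : vdim K ≤ vdim L := by
  unfold vdim
  refine Finset.sum_le_sum fun i _ => ?_
  have h1 : Metric.infDist (BC.dl G i) (L : Set (L2 (ι × G))) ≤
      Metric.infDist (BC.dl G i) (K : Set (L2 (ι × G))) :=
    Metric.infDist_le_infDist_of_subset h ⟨0, K.zero_mem⟩
  have h2 := pow_le_pow_left₀ Metric.infDist_nonneg h1 2
  linarith

theorem vdim_bot [Fintype ι] : vdim (⊥ : Submodule ℂ (L2 (ι × G))) = 0 := by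
  rw [vdim_eq]
  apply Finset.sum_eq_zero
  intro i _
  simp

theorem vdim_top [Fintype ι] : vdim (⊤ : Submodule ℂ (L2 (ι × G))) = Fintype.card ι := by
  rw [vdim_eq]
  have : ∀ i : ι, ‖(⊤ : Submodule ℂ (L2 (ι × G))).starProjection (de (i, (1 : G)))‖ ^ 2 = 1 := by
    intro i
    rw [Submodule.starProjection_top]
    simp [norm_de]
  rw [Finset.sum_congr rfl fun i _ => this i]
  simp

theorem vdim_nonneg [Fintype ι] (K : Submodule ℂ (L2 (ι × G))) : 0 ≤ vdim K := by
  rw [← vdim_bot (ι := ι) (G := G)]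
  exact vdim_mono bot_le

theorem vdim_le_card [Fintype ι] (K : Submodule ℂ (L2 (ι × G))) : vdim K ≤ Fintype.card ι := by
  rw [← vdim_top (ι := ι) (G := G)]
  exact vdim_mono le_top

theorem vdim_orth [Fintype ι] (K : Submodule ℂ (L2 (ι × G))) [K.HasOrthogonalProjection] :
    vdim Kᗮ = Fintype.card ι - vdim K := by
  rw [vdim_eq, vdim_eq, eq_sub_iff_add_eq, ← Finset.sum_add_distrib]
  have : ∀ i : ι, ‖Kᗮ.starProjection (de (i, (1 : G)))‖ ^ 2 +
      ‖K.starProjection (de (i, (1 : G)))‖ ^ 2 = 1 := by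
    intro i
    have := Submodule.norm_sq_eq_add_norm_sq_starProjection (de (i, (1 : G))) K
    rw [norm_de] at this
    linarith
  rw [Finset.sum_congr rfl fun i _ => this i]
  simp

end Pool.Agent.W656.VA
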