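import Pool.Agent.W656.VA1

/-!
Von Neumann dimension: kernel of the adjoint, rank-nullity, supermodularity.
-/

set_option autoImplicit false
set_option linter.unusedSectionVars false

open scoped InnerProductSpace ENNReal
open Filter Topology

namespace Pool.Agent.W656.VA

open Pool.Agent.H80R2
open Pool.Agent.H80R2.BC (L2 GMat vdim IsTr LInv Equi act kerA dk pt vals TorDiv Coef AtR)
open Pool.Agent.H812R3

variable {ι κ G : Type} [Group G] [Fintype ι] [Fintype κ]

/-- mean ergodic theorem -/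
theorem erg (C : L2 (ι × G) →L[ℂ] L2 (ι × G)) (hC : ‖C‖ ≤ 1) (K : Submodule ℂ (L2 (ι × G)))
    [K.HasOrthogonalProjection] (hK : ∀ x, x ∈ K ↔ C x = x) :
    Tendsto (fun N : ℕ => (N : ℂ)⁻¹ * ∑ n ∈ Finset.range N, trc (C ^ n)) atTop
      (𝓝 (vdim K : ℂ)) := by
  have h1 : ∀ i : ι, Tendsto (fun N : ℕ => (N : ℂ)⁻¹ * ∑ n ∈ Finset.range N,
      ⟪(de (i, (1 : G)) : L2 (ι × G)), (C ^ n) (de (i, 1))⟫_ℂ) atTop
      (𝓝 ⟪(de (i, (1 : G)) : L2 (ι × G)), K.starProjection (de (i, 1))⟫_ℂ) := by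
    intro i
    have h := ContinuousLinearMap.tendsto_birkhoffAverage_orthogonalProjection C hC
      (de (i, (1 : G)))
    have h3 : Tendsto (fun N : ℕ => ⟪(de (i, (1 : G)) : L2 (ι × G)),
        birkhoffAverage ℂ C _root_.id N (de (i, (1 : G)))⟫_ℂ) atTop
        (𝓝 ⟪(de (i, (1 : G)) : L2 (ι × G)),
          ((C.eqLocus (1 : L2 (ι × G) →L[ℂ] L2 (ι × G))).orthogonalProjectionOnto
            (de (i, (1 : G))) : L2 (ι × G))⟫_ℂ) :=
      ((innerSL ℂ (de (i, (1 : G)))).continuous.tendsto _).comp h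
    have hKeq : K = C.eqLocus (1 : L2 (ι × G) →L[ℂ] L2 (ι × G)) := by
      ext x
      rw [hK]
      rfl
    have h4 : ⟪(de (i, (1 : G)) : L2 (ι × G)),
          ((C.eqLocus (1 : L2 (ι × G) →L[ℂ] L2 (ι × G))).orthogonalProjectionOnto
            (de (i, (1 : G))) : L2 (ι × G))⟫_ℂ
        = ⟪(de (i, (1 : G)) : L2 (ι × G)), K.starProjection (de (i, 1))⟫_ℂ := by
      subst hKeq
      rfl
    rw [h4] at h3
    refine h3.congr fun N => ?_
    rw [birkhoffAverage, inner_smul_right, birkhoffSum, inner_sum]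
    congr 1
    refine Finset.sum_congr rfl fun n _ => ?_
    simp only [_root_.id]
    congr 1
    rw [← ContinuousLinearMap.coe_pow']
  have h2 := tendsto_finset_sum (Finset.univ : Finset ι) fun i _ => h1 i
  have h3 : ∑ i : ι, ⟪(de (i, (1 : G)) : L2 (ι × G)), K.starProjection (de (i, 1))⟫_ℂ
      = (vdim K : ℂ) := trc_proj K
  rw [h3] at h2
  refine h2.congr fun N => ?_
  rw [← Finset.mul_sum, Finset.sum_comm]
  rfl

theorem trc_sub (S T : L2 (ι × G) →L[ℂ] L2 (ι × G)) : trc (S - T) = trc S - trc T := by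
  unfold trc
  rw [← Finset.sum_sub_distrib]
  refine Finset.sum_congr rfl fun i _ => ?_
  rw [_root_.sub_apply, inner_sub_right]

theorem trc_smul (c : ℂ) (T : L2 (ι × G) →L[ℂ] L2 (ι × G)) : trc (c • T) = c * trc T := by
  unfold trc
  rw [Finset.mul_sum]
  refine Finset.sum_congr rfl fun i _ => ?_
  rw [_root_.smul_apply, inner_smul_right]

theorem trc_one : trc (1 : L2 (ι × G) →L[ℂ] L2 (ι × G)) = Fintype.card ι := by
  unfold trc
  have : ∀ i : ι, ⟪(de (i, (1 : G)) : L2 (ι × G)), (1 : L2 (ι × G) →L[ℂ] L2 (ι × G)) (de (i, 1))⟫_ℂ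
      = 1 := by
    intro i
    show ⟪(de (i, (1 : G)) : L2 (ι × G)), de (i, 1)⟫_ℂ = 1
    rw [inner_de, de_apply_self]
  rw [Finset.sum_congr rfl fun i _ => this i]
  simp

theorem equi_one : Equi (1 : L2 (ι × G) →L[ℂ] L2 (ι × G)) := fun _ _ _ h => h

theorem equi_sub {S T : L2 (ι × G) →L[ℂ] L2 (κ × G)} (hS : Equi S) (hT : Equi T) :
    Equi (S - T) := by
  apply equi_of
  intro g x
  rw [_root_.sub_apply, _root_.sub_apply, equi_lt hS, equi_lt hT, map_sub]

theorem equi_smul {S : L2 (ι × G) →L[ℂ] L2 (κ × G)} (c : ℂ) (hS : Equi S) : Equi (c • S) := by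
  apply equi_of
  intro g x
  rw [_root_.smul_apply, _root_.smul_apply, equi_lt hS, map_smul]

theorem equi_pow {S : L2 (ι × G) →L[ℂ] L2 (ι × G)} (hS : Equi S) (n : ℕ) : Equi (S ^ n) := by
  induction n with
  | zero => rw [pow_zero]; exact equi_one
  | succ n ih => rw [pow_succ]; exact equi_comp ih hS

theorem trc_pow (S : L2 (ι × G) →L[ℂ] L2 (κ × G)) (hS : Equi S) (c : ℂ) (n : ℕ) :
    trc ((1 - c • ((ContinuousLinearMap.adjoint S).comp S)) ^ n) - Fintype.card ι
      = trc ((1 - c • (S.comp (ContinuousLinearMap.adjoint S))) ^ n) - Fintype.card κ := by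
  set A := 1 - c • ((ContinuousLinearMap.adjoint S).comp S) with hA
  set B := 1 - c • (S.comp (ContinuousLinearMap.adjoint S)) with hB
  have hS' := equi_adj hS
  have hAe : Equi A := equi_sub equi_one (equi_smul c (equi_comp hS' hS))
  have hBe : Equi B := equi_sub equi_one (equi_smul c (equi_comp hS hS'))
  have hcomm : ∀ n : ℕ, (B ^ n).comp S = S.comp (A ^ n) := by
    intro n
    induction n with
    | zero => rfl
    | succ n ih =>
      have h1 : B.comp S = S.comp A := by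
        ext1 x
        simp only [hA, hB, ContinuousLinearMap.comp_apply, _root_.sub_apply, _root_.smul_apply,
          map_sub, map_smul]
        rfl
      calc (B ^ (n + 1)).comp S = (B ^ n).comp (B.comp S) := by rw [pow_succ]; rfl
        _ = ((B ^ n).comp S).comp A := by rw [h1]; rfl
        _ = S.comp ((A ^ n) * A) := by rw [ih]; rfl
        _ = _ := by rw [← pow_succ]
  induction n with
  | zero => rw [pow_zero, pow_zero, trc_one, trc_one]; ring
  | succ n ih =>
    have e1 : A ^ (n + 1) = A ^ n - c • ((A ^ n).comp ((ContinuousLinearMap.adjoint S).comp S)) := by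
      rw [pow_succ]
      ext1 x
      show (A ^ n) (A x) = _
      rw [hA]
      simp only [_root_.sub_apply, _root_.smul_apply, map_sub, map_smul]
      rfl
    have e2 : B ^ (n + 1) = B ^ n - c • ((B ^ n).comp (S.comp (ContinuousLinearMap.adjoint S))) := by
      rw [pow_succ]
      ext1 x
      show (B ^ n) (B x) = _
      rw [hB]
      simp only [_root_.sub_apply, _root_.smul_apply, map_sub, map_smul]
      rfl
    have e3 : trc ((A ^ n).comp ((ContinuousLinearMap.adjoint S).comp S))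
        = trc ((B ^ n).comp (S.comp (ContinuousLinearMap.adjoint S))) := by
      rw [← ContinuousLinearMap.comp_assoc (B ^ n), hcomm n,
        ← ContinuousLinearMap.comp_assoc (A ^ n),
        ← trc_comm S ((A ^ n).comp (ContinuousLinearMap.adjoint S)) hS
          (equi_comp (equi_pow hAe n) hS')]
      rfl
    rw [e1, e2, trc_sub, trc_sub, trc_smul, trc_smul, e3]
    linear_combination ih

theorem contr (S : L2 (ι × G) →L[ℂ] L2 (κ × G)) (c : ℝ) (hc : 0 ≤ c) (hc2 : c * ‖S‖ ^ 2 ≤ 1) :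
    ‖(1 - (c : ℂ) • ((ContinuousLinearMap.adjoint S).comp S) :
      L2 (ι × G) →L[ℂ] L2 (ι × G))‖ ≤ 1 := by
  refine ContinuousLinearMap.opNorm_le_bound _ zero_le_one fun x => ?_
  rw [one_mul]
  apply le_of_sq_le_sq _ (norm_nonneg _)
  set A := (ContinuousLinearMap.adjoint S).comp S with hA
  have h1 : (1 - (c : ℂ) • A : L2 (ι × G) →L[ℂ] L2 (ι × G)) x = x - (c : ℂ) • A x := rfl
  have hAx : A x = ContinuousLinearMap.adjoint S (S x) := rfl
  rw [h1, @norm_sub_sq ℂ]
  have h2 : RCLike.re ⟪x, (c : ℂ) • A x⟫_ℂ = c * ‖S x‖ ^ 2 := by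
    rw [inner_smul_right, hAx, ContinuousLinearMap.adjoint_inner_right,
      inner_self_eq_norm_sq_to_K]
    have : (c : ℂ) * ((‖S x‖ : ℂ)) ^ 2 = ((c * ‖S x‖ ^ 2 : ℝ) : ℂ) := by push_cast; ring
    erw [this]
    simp only [RCLike.re_to_complex, Complex.ofReal_re]
  rw [h2, norm_smul, Complex.norm_real, Real.norm_of_nonneg hc]
  have h3 : ‖A x‖ ≤ ‖S‖ * ‖S x‖ := by
    rw [hAx]
    refine (ContinuousLinearMap.le_opNorm _ _).trans ?_
    rw [LinearIsometryEquiv.norm_map]
  have h4 : (c * ‖A x‖) ^ 2 ≤ c * ‖S x‖ ^ 2 := by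
    have h5 : ‖A x‖ ^ 2 ≤ ‖S‖ ^ 2 * ‖S x‖ ^ 2 := by
      rw [← mul_pow]
      exact pow_le_pow_left₀ (norm_nonneg _) h3 2
    calc (c * ‖A x‖) ^ 2 = c * (c * ‖A x‖ ^ 2) := by ring
      _ ≤ c * (c * (‖S‖ ^ 2 * ‖S x‖ ^ 2)) := by gcongr
      _ = c * ((c * ‖S‖ ^ 2) * ‖S x‖ ^ 2) := by ring
      _ ≤ c * (1 * ‖S x‖ ^ 2) := by gcongr
      _ = c * ‖S x‖ ^ 2 := by ring
  nlinarith [sq_nonneg ‖S x‖, mul_nonneg hc (sq_nonneg ‖S x‖)]

theorem ker_adj_comp (S : L2 (ι × G) →L[ℂ] L2 (κ × G)) (x : L2 (ι × G)) :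
    ((ContinuousLinearMap.adjoint S).comp S) x = 0 ↔ S x = 0 := by
  constructor
  · intro h
    have h1 : ⟪x, ((ContinuousLinearMap.adjoint S).comp S) x⟫_ℂ = 0 := by rw [h, inner_zero_right]
    have h2 : ((ContinuousLinearMap.adjoint S).comp S) x = ContinuousLinearMap.adjoint S (S x) := rfl
    rw [h2, ContinuousLinearMap.adjoint_inner_right] at h1
    exact inner_self_eq_zero.1 h1
  · intro h
    show ContinuousLinearMap.adjoint S (S x) = 0
    rw [h, map_zero]

/-- the kernel of an operator as a submodule -/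
noncomputable def kr (S : L2 (ι × G) →L[ℂ] L2 (κ × G)) : Submodule ℂ (L2 (ι × G)) :=
  LinearMap.ker (S : L2 (ι × G) →ₗ[ℂ] L2 (κ × G))

theorem mem_kr (S : L2 (ι × G) →L[ℂ] L2 (κ × G)) (x : L2 (ι × G)) : x ∈ kr S ↔ S x = 0 :=
  LinearMap.mem_ker

theorem isClosed_kr (S : L2 (ι × G) →L[ℂ] L2 (κ × G)) : IsClosed (kr S : Set (L2 (ι × G))) :=
  S.isClosed_ker

/-- the dimensions of the kernels of an operator and its adjoint -/
theorem vdim_ker_adjoint (S : L2 (ι × G) →L[ℂ] L2 (κ × G)) (hS : Equi S) :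
    vdim (kr S) - Fintype.card ι = vdim (kr (ContinuousLinearMap.adjoint S)) - Fintype.card κ := by
  set c : ℝ := 1 / (‖S‖ ^ 2 + 1) with hcdef
  have hpos : 0 < ‖S‖ ^ 2 + 1 := by positivity
  have hc : 0 < c := by positivity
  have hc2 : c * ‖S‖ ^ 2 ≤ 1 := by
    rw [hcdef, one_div, inv_mul_le_iff₀ hpos]
    linarith
  have hcc : (c : ℂ) ≠ 0 := by exact_mod_cast hc.ne'
  have hadj : ContinuousLinearMap.adjoint (ContinuousLinearMap.adjoint S) = S :=
    ContinuousLinearMap.adjoint_adjoint S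
  have hP1 := hasProj (isClosed_kr S)
  have hP2 := hasProj (isClosed_kr (ContinuousLinearMap.adjoint S))
  have fix1 : ∀ (x : L2 (ι × G)), x ∈ kr S ↔
        (1 - (c : ℂ) • ((ContinuousLinearMap.adjoint S).comp S) :
          L2 (ι × G) →L[ℂ] L2 (ι × G)) x = x := by
    intro x
    rw [mem_kr]
    have h1 : (1 - (c : ℂ) • ((ContinuousLinearMap.adjoint S).comp S) :
        L2 (ι × G) →L[ℂ] L2 (ι × G)) x
        = x - (c : ℂ) • ((ContinuousLinearMap.adjoint S).comp S) x := rfl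
    rw [h1, sub_eq_self, smul_eq_zero, or_iff_right hcc, ker_adj_comp]
  have fix2 : ∀ (x : L2 (κ × G)), x ∈ kr (ContinuousLinearMap.adjoint S) ↔
        (1 - (c : ℂ) • (S.comp (ContinuousLinearMap.adjoint S)) :
          L2 (κ × G) →L[ℂ] L2 (κ × G)) x = x := by
    intro x
    rw [mem_kr]
    have h1 : (1 - (c : ℂ) • (S.comp (ContinuousLinearMap.adjoint S)) :
        L2 (κ × G) →L[ℂ] L2 (κ × G)) x
        = x - (c : ℂ) • (S.comp (ContinuousLinearMap.adjoint S)) x := rfl
    have h2 := ker_adj_comp (ContinuousLinearMap.adjoint S) x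
    rw [hadj] at h2
    rw [h1, sub_eq_self, smul_eq_zero, or_iff_right hcc, h2]
  have e1 := erg _ (contr S c hc.le hc2) (kr S) fix1
  have hc3 : c * ‖ContinuousLinearMap.adjoint S‖ ^ 2 ≤ 1 := by
    rwa [LinearIsometryEquiv.norm_map]
  have hcon := contr (ContinuousLinearMap.adjoint S) c hc.le hc3
  rw [hadj] at hcon
  have e2 := erg _ hcon (kr (ContinuousLinearMap.adjoint S)) fix2
  have e3 : ∀ N : ℕ, 0 < N → (N : ℂ)⁻¹ * ∑ n ∈ Finset.range N,
      trc ((1 - (c : ℂ) • ((ContinuousLinearMap.adjoint S).comp S)) ^ n)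
      = (N : ℂ)⁻¹ * ∑ n ∈ Finset.range N,
        trc ((1 - (c : ℂ) • (S.comp (ContinuousLinearMap.adjoint S))) ^ n)
        + (Fintype.card ι - Fintype.card κ) := by
    intro N hN
    have hN' : (N : ℂ) ≠ 0 := by exact_mod_cast hN.ne'
    have h1 : ∀ n ∈ Finset.range N,
        trc ((1 - (c : ℂ) • ((ContinuousLinearMap.adjoint S).comp S)) ^ n)
        = trc ((1 - (c : ℂ) • (S.comp (ContinuousLinearMap.adjoint S))) ^ n)
          + (Fintype.card ι - Fintype.card κ) := by
      intro n _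
      have := trc_pow S hS c n
      linear_combination this
    rw [Finset.sum_congr rfl h1, Finset.sum_add_distrib, Finset.sum_const, Finset.card_range,
      nsmul_eq_mul]
    field_simp
  have e4 := e2.add_const ((Fintype.card ι : ℂ) - Fintype.card κ)
  have e5 := tendsto_nhds_unique (e1.congr' (by
    filter_upwards [eventually_gt_atTop 0] with N hN
    exact e3 N hN)) e4
  have e6 : vdim (kr S) = vdim (kr (ContinuousLinearMap.adjoint S)) +
      ((Fintype.card ι : ℝ) - Fintype.card κ) := by exact_mod_cast e5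
  linarith

end Pool.Agent.W656.VA
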