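import Pool.Agent.W656.VA4

/-!
The cut lemma: imposing generic conditions.
-/

set_option autoImplicit false
set_option linter.unusedSectionVars false

open scoped InnerProductSpace ENNReal
open Filter Topology

namespace Pool.Agent.W656.VA

open Pool.Agent.H80R2
open Pool.Agent.H80R2.BC (L2 GMat vdim IsTr LInv Equi act kerA dk pt vals TorDiv Coef AtR Generic)
open Pool.Agent.H812R3

/-- restriction of a vector to a set -/
noncomputable def rs {X : Type} (s : X → Bool) (x : L2 X) : L2 X :=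
  ⟨fun y => if s y then x y else 0, KP.mem_of_summable (by
    refine Summable.of_nonneg_of_le (fun _ => by positivity) (fun y => ?_) (KP.summable_sq x)
    by_cases h : s y
    · simp [h]
    · simp [h])⟩

theorem rs_apply {X : Type} (s : X → Bool) (x : L2 X) (y : X) :
    rs s x y = if s y then x y else 0 := rfl

theorem top_of_de {X : Type} {M : Submodule ℂ (L2 X)} (h : ∀ x : X, de x ∈ M) :
    M.topologicalClosure = ⊤ := by
  rw [eq_top_iff]
  intro x _
  have h1 := KP.hasSum_dl x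
  refine mem_closure_of_tendsto h1 (Eventually.of_forall fun s => ?_)
  exact M.sum_mem fun y _ => M.smul_mem _ (h y)

variable {ι κ η μ G G' : Type} [Group G] [Group G'] [Fintype ι] [Fintype κ] [Fintype η] [Fintype μ]

theorem act_Th (u : ι → η → G') (x : (ι × μ) × G' → ℂ) (q : η) (i : μ) (r : G') :
    act (BC.Th u) x (q, i) r = ∑ p, x ((p, i), r * u p q) := by
  classical
  unfold act BC.Th
  rw [Fintype.sum_prod_type]
  refine Finset.sum_congr rfl fun p _ => ?_
  rw [Finset.sum_eq_single i]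
  · simp only [if_pos]
    rw [Finsupp.sum_single_index (by simp), one_mul]
  · intro j _ hj
    simp only
    rw [if_neg hj]
    simp
  · intro h
    exact absurd (Finset.mem_univ _) h

/-- coordinates on `Φ` -/
theorem exists_coord (Φ : Submodule ℂ (μ → ℂ)) :
    ∃ L : (μ → ℂ) →ₗ[ℂ] (Fin (Module.finrank ℂ Φ) → ℂ),
      (∀ φ ∈ Φ, L φ = 0 → φ = 0) ∧ ∀ v, ∃ φ ∈ Φ, L φ = v := by
  set e := (Module.finBasis ℂ Φ).equivFun with he
  obtain ⟨L, hL⟩ := LinearMap.exists_leftInverse_of_injective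
    (Φ.subtype ∘ₗ (e.symm : (Fin (Module.finrank ℂ Φ) → ℂ) →ₗ[ℂ] Φ)) (by
      rw [LinearMap.ker_eq_bot]
      exact Φ.injective_subtype.comp e.symm.injective)
  have h1 : ∀ v, L (e.symm v : μ → ℂ) = v := fun v => LinearMap.congr_fun hL v
  refine ⟨L, ?_, ?_⟩
  · intro φ hφ h
    have h2 := h1 (e ⟨φ, hφ⟩)
    rw [LinearEquiv.symm_apply_apply] at h2
    simp only at h2
    rw [h] at h2
    have h3 : (⟨φ, hφ⟩ : Φ) = 0 := by
      apply e.injective
      rw [← h2, map_zero]
    exact congrArg Subtype.val h3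
  · intro v
    exact ⟨e.symm v, (e.symm v).2, h1 v⟩

theorem mem_pt_slice (f : G →* G') (hf : Function.Injective f) (Φ : Submodule ℂ (μ → ℂ))
    (x : L2 ((ι × μ) × G')) : x ∈ pt Φ ↔ ∀ g, slice (ι × μ) f hf g x ∈ pt Φ := by
  constructor
  · intro h g p a
    exact h p (g * f a)
  · intro h p g
    have := h g p 1
    simp only [slice_apply, map_one, mul_one] at this
    exact this

theorem mem_push_cs (f : G →* G') (hf : Function.Injective f) (A : GMat κ (ι × μ) G)
    (Φ : Submodule ℂ (μ → ℂ)) (x : L2 ((ι × μ) × G')) :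
    x ∈ kerA (BC.push f (BC.stack A (cs ι G Φ))) ↔ x ∈ kerA (BC.push f A) ∧ x ∈ pt Φ := by
  rw [mem_push_iff f hf, mem_push_iff f hf, mem_pt_slice f hf]
  constructor
  · intro h
    refine ⟨fun g => ((mem_stack _ _ _).1 (h g)).1, fun g => ?_⟩
    have := ((mem_stack _ _ _).1 (h g)).2
    rwa [kerA_cs] at this
  · rintro ⟨h1, h2⟩ g
    rw [mem_stack, kerA_cs]
    exact ⟨h1 g, h2 g⟩

/-- the window dimension -/
noncomputable def fd (A : GMat κ (ι × μ) G) (Φ : Submodule ℂ (μ → ℂ)) : ℝ :=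
  vdim (kerA A ⊓ pt Φ)

theorem fd_eq_push (f : G →* G') (hf : Function.Injective f) (A : GMat κ (ι × μ) G)
    (Φ : Submodule ℂ (μ → ℂ)) : vdim (kerA (BC.push f (BC.stack A (cs ι G Φ)))) = fd A Φ := by
  rw [vdim_push f hf, kerA_stack, kerA_cs]
  rfl

/-- the composite of the generic conditions with coordinates -/
noncomputable def Tc (u : ι → η → G') {d : ℕ} (L : (μ → ℂ) →ₗ[ℂ] (Fin d → ℂ)) :
    L2 ((ι × μ) × G') →L[ℂ] L2 ((η × Fin d) × G') :=
  (op (sc η G' L)).comp (op (BC.Th u))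

theorem Tc_apply (u : ι → η → G') {d : ℕ} (L : (μ → ℂ) →ₗ[ℂ] (Fin d → ℂ))
    (x : L2 ((ι × μ) × G')) (q : η) (j : Fin d) (r : G') :
    Tc u L x ((q, j), r) = L (fun i => ∑ p, x ((p, i), r * u p q)) j := by
  unfold Tc
  rw [ContinuousLinearMap.comp_apply, op_apply, act_sc]
  have : (fun i => (op (BC.Th u)) x ((q, i), r)) = fun i => ∑ p, x ((p, i), r * u p q) := by
    funext i
    rw [op_apply, act_Th]
  rw [this]

theorem equi_Tc (u : ι → η → G') {d : ℕ} (L : (μ → ℂ) →ₗ[ℂ] (Fin d → ℂ)) : Equi (Tc u L) :=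
  equi_comp (equi_op _) (equi_op _)

/-- values of `Th u x` lie in `Φ` when those of `x` do -/
theorem Th_mem {u : ι → η → G'} {Φ : Submodule ℂ (μ → ℂ)} {x : L2 ((ι × μ) × G')} (hx : x ∈ pt Φ)
    (q : η) (r : G') : (fun i => ∑ p, x ((p, i), r * u p q)) ∈ Φ := by
  have : (fun i => ∑ p, x ((p, i), r * u p q)) = ∑ p, fun i => x ((p, i), r * u p q) := by
    funext i
    rw [Finset.sum_apply]
  rw [this]
  exact Φ.sum_mem fun p _ => hx p _

theorem mem_cut_iff (inc : G →* G') (u : ι → η → G') (A : GMat κ (ι × μ) G)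
    (x : L2 ((ι × μ) × G')) : x ∈ kerA (BC.Cut inc u A) ↔
      x ∈ kerA (BC.push inc A) ∧ ∀ q i r, ∑ p, x ((p, i), r * u p q) = 0 := by
  unfold BC.Cut
  rw [mem_stack]
  refine and_congr_right fun _ => ?_
  rw [mem_kerA]
  constructor
  · intro h q i r
    rw [← act_Th]
    exact h (q, i) r
  · rintro h ⟨q, i⟩ r
    rw [act_Th]
    exact h q i r

theorem ker_Tc (inc : G →* G') (hinc : Function.Injective inc) (u : ι → η → G')
    (A : GMat κ (ι × μ) G) (Φ : Submodule ℂ (μ → ℂ)) {d : ℕ}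
    (L : (μ → ℂ) →ₗ[ℂ] (Fin d → ℂ)) (hL : ∀ φ ∈ Φ, L φ = 0 → φ = 0) :
    kerA (BC.push inc (BC.stack A (cs ι G Φ))) ⊓ kr (Tc u L) = kerA (BC.Cut inc u A) ⊓ pt Φ := by
  ext x
  rw [Submodule.mem_inf, Submodule.mem_inf, mem_push_cs inc hinc, mem_cut_iff, mem_kr]
  constructor
  · rintro ⟨⟨h1, h2⟩, h3⟩
    refine ⟨⟨h1, fun q i r => ?_⟩, h2⟩
    have h4 : (fun i => ∑ p, x ((p, i), r * u p q)) = 0 := by
      apply hL _ (Th_mem h2 q r)
      funext j
      rw [← Tc_apply, h3]
      rfl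
    exact congrFun h4 i
  · rintro ⟨⟨h1, h3⟩, h2⟩
    refine ⟨⟨h1, h2⟩, ?_⟩
    ext ⟨⟨q, j⟩, r⟩
    rw [Tc_apply]
    have : (fun i => ∑ p, x ((p, i), r * u p q)) = 0 := by
      funext i
      exact h3 q i r
    rw [this, map_zero]
    rfl

/-- **Cut lemma, lower bound.** -/
theorem cut_ge (inc : G →* G') (hinc : Function.Injective inc) (u : ι → η → G')
    (A : GMat κ (ι × μ) G) (Φ : Submodule ℂ (μ → ℂ)) :
    fd A Φ - Fintype.card η * Module.finrank ℂ Φ ≤ vdim (kerA (BC.Cut inc u A) ⊓ pt Φ) := by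
  obtain ⟨L, hL, -⟩ := exists_coord Φ
  have h := vdim_rank_le (isClosed_kerA (BC.push inc (BC.stack A (cs ι G Φ))))
    (linv_kerA _) (Tc u L) (equi_Tc u L) (R := ⊤) isClosed_univ (fun _ _ => trivial)
  rw [ker_Tc inc hinc u A Φ L hL, fd_eq_push inc hinc, vdim_top] at h
  simp only [Fintype.card_prod, Fintype.card_fin] at h
  push_cast at h
  linarith

/-- the vector `w ⊗ δ_{(q,r)}` -/
noncomputable def Dv {d : ℕ} (q : η) (r : G') (w : Fin d → ℂ) : L2 ((η × Fin d) × G') :=
  ∑ j, w j • de ((q, j), r)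

open Classical in
theorem Dv_apply {d : ℕ} (q : η) (r : G') (w : Fin d → ℂ) (q' : η) (j : Fin d) (r' : G') :
    Dv q r w ((q', j), r') = if q' = q ∧ r' = r then w j else 0 := by
  unfold Dv
  rw [lp.coeFn_sum, Finset.sum_apply]
  have : ∀ j' : Fin d, (w j' • de ((q, j'), r) : L2 ((η × Fin d) × G')) ((q', j), r')
      = if j' = j then (if q' = q ∧ r' = r then w j else 0) else 0 := by
    intro j'
    rw [lp.coeFn_smul, Pi.smul_apply, smul_eq_mul]
    by_cases h : ((q', j), r') = ((q, j'), r)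
    · rw [h, de_apply_self]
      simp only [Prod.mk.injEq] at h
      obtain ⟨⟨h1, h2⟩, h3⟩ := h
      rw [if_pos h2.symm, if_pos ⟨h1, h3⟩, h2, mul_one]
    · rw [de_apply_ne h, mul_zero]
      by_cases h1 : j' = j
      · rw [if_pos h1, if_neg]
        rintro ⟨h2, h3⟩
        exact h (by rw [h1, h2, h3])
      · rw [if_neg h1]
  rw [Finset.sum_congr rfl fun j' _ => this j', Finset.sum_ite_eq' Finset.univ j,
    if_pos (Finset.mem_univ _)]

theorem lt_Dv {d : ℕ} (q : η) (r g : G') (w : Fin d → ℂ) :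
    lt (η × Fin d) g (Dv q r w) = Dv q (g⁻¹ * r) w := by
  unfold Dv
  rw [map_sum]
  refine Finset.sum_congr rfl fun j _ => ?_
  rw [map_smul, lt_de]

/-- the key computation -/
theorem Tc_rs (inc : G →* G') (u : ι → η → G') (A : GMat κ (ι × μ) G) {d : ℕ}
    (L : (μ → ℂ) →ₗ[ℂ] (Fin d → ℂ)) (p0 : ι) (q0 : η) (h0 : G') (χ : G' → Bool)
    (hχ : ∀ p q h, (χ (h * (u p q)⁻¹) ≠ χ h ↔ (p = p0 ∧ q = q0 ∧ h = h0)))
    (x : L2 ((ι × μ) × G')) (hx : x ∈ kerA (BC.Cut inc u A)) :
    ∃ ε : ℂ, ε * ε = 1 ∧ Tc u L (rs (fun y => χ y.2) x) =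
      ε • Dv q0 (h0 * (u p0 q0)⁻¹) (L fun i => x ((p0, i), h0)) := by
  classical
  have hZ := ((mem_cut_iff inc u A x).1 hx).2
  set r0 := h0 * (u p0 q0)⁻¹ with hr0
  have hr0' : r0 * u p0 q0 = h0 := by rw [hr0]; group
  have hflip : ∀ p q r, (χ r ≠ χ (r * u p q) ↔ (p = p0 ∧ q = q0 ∧ r = r0)) := by
    intro p q r
    have h1 := hχ p q (r * u p q)
    rw [mul_inv_cancel_right] at h1
    rw [h1]
    constructor
    · rintro ⟨rfl, rfl, h3⟩
      exact ⟨rfl, rfl, by rw [hr0, ← h3]; group⟩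
    · rintro ⟨rfl, rfl, rfl⟩
      exact ⟨rfl, rfl, hr0'⟩
  refine ⟨if χ r0 then -1 else 1, by split_ifs <;> norm_num, ?_⟩
  ext ⟨⟨q, j⟩, r⟩
  rw [Tc_apply, lp.coeFn_smul, Pi.smul_apply, Dv_apply, smul_eq_mul]
  simp only [rs_apply]
  by_cases hqr : q = q0 ∧ r = r0
  · obtain ⟨rfl, rfl⟩ := hqr
    rw [if_pos (⟨rfl, rfl⟩ : q = q ∧ r0 = r0)]
    have hp0 : χ (r0 * u p0 q) = !χ r0 :=
      Bool.eq_not.2 (Ne.symm ((hflip p0 q r0).2 ⟨rfl, rfl, rfl⟩))
    have hp : ∀ p, p ≠ p0 → χ (r0 * u p q) = χ r0 := by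
      intro p hp
      by_contra hc
      exact hp ((hflip p q r0).1 (fun h => hc h.symm)).1
    have hs : (fun i => ∑ p, if χ (r0 * u p q) = true then x ((p, i), r0 * u p q) else 0)
        = (if χ r0 = true then (-1 : ℂ) else 1) • fun i => x ((p0, i), h0) := by
      funext i
      have h1 := hZ q i r0
      rw [← Finset.add_sum_erase _ _ (Finset.mem_univ p0)] at h1 ⊢
      have h2 : ∑ p ∈ Finset.univ.erase p0, (if χ (r0 * u p q) = true then
          x ((p, i), r0 * u p q) else 0)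
          = if χ r0 = true then ∑ p ∈ Finset.univ.erase p0, x ((p, i), r0 * u p q) else 0 := by
        by_cases h3 : χ r0 = true
        · rw [if_pos h3]
          refine Finset.sum_congr rfl fun p hp' => ?_
          rw [hp p (Finset.ne_of_mem_erase hp'), if_pos h3]
        · rw [if_neg h3]
          refine Finset.sum_eq_zero fun p hp' => ?_
          rw [hp p (Finset.ne_of_mem_erase hp'), if_neg h3]
      rw [h2, hp0, hr0', Pi.smul_apply, smul_eq_mul]
      rw [hr0'] at h1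
      by_cases h3 : χ r0 = true
      · simp only [h3, Bool.not_true, if_true]
        rw [if_neg (by simp)]
        linear_combination h1
      · have h4 : χ r0 = false := by simpa using h3
        simp [h4]
    rw [hs, map_smul, Pi.smul_apply, smul_eq_mul]
  · rw [if_neg hqr, mul_zero]
    have hp : ∀ p, χ (r * u p q) = χ r := by
      intro p
      by_contra hc
      have h1 := (hflip p q r).1 (fun h => hc h.symm)
      exact hqr ⟨h1.2.1, h1.2.2⟩
    have : (fun i => ∑ p, if χ (r * u p q) = true then x ((p, i), r * u p q) else 0) = 0 := by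
      funext i
      simp only [hp]
      by_cases h3 : χ r = true
      · simp only [h3, if_true]
        exact hZ q i r
      · simp [h3]
    rw [this, map_zero]
    rfl

theorem rs_mem (inc : G →* G') (hinc : Function.Injective inc) (A : GMat κ (ι × μ) G)
    (Φ : Submodule ℂ (μ → ℂ)) (χ : G' → Bool) (hχ : ∀ r g, χ (r * inc g) = χ r)
    (x : L2 ((ι × μ) × G')) (hx : x ∈ kerA (BC.push inc (BC.stack A (cs ι G Φ)))) :
    rs (fun y => χ y.2) x ∈ kerA (BC.push inc (BC.stack A (cs ι G Φ))) := by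
  rw [mem_push_iff inc hinc] at hx ⊢
  intro g
  by_cases h : χ g = true
  · have : slice (ι × μ) inc hinc g (rs (fun y => χ y.2) x) = slice (ι × μ) inc hinc g x := by
      ext ⟨p, a⟩
      rw [slice_apply, slice_apply, rs_apply]
      simp only
      rw [hχ, if_pos h]
    rw [this]
    exact hx g
  · have : slice (ι × μ) inc hinc g (rs (fun y => χ y.2) x) = 0 := by
      ext ⟨p, a⟩
      rw [slice_apply, rs_apply]
      simp only
      rw [hχ, if_neg h]
      rfl
    rw [this]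
    exact Submodule.zero_mem _

/-- **Cut lemma, equality.** -/
theorem cut_eq (inc : G →* G') (hinc : Function.Injective inc) (u : ι → η → G')
    (hu : Generic inc u) (A : GMat κ (ι × μ) G) :
    vdim (kerA (BC.Cut inc u A)) = fd A (vals (kerA (BC.Cut inc u A))) -
      Fintype.card η * Module.finrank ℂ (vals (kerA (BC.Cut inc u A))) := by
  set Z := kerA (BC.Cut inc u A) with hZdef
  set Φ := vals Z with hΦ
  obtain ⟨L, hL, hLs⟩ := exists_coord Φ
  set K := kerA (BC.push inc (BC.stack A (cs ι G Φ))) with hK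
  have hZK : K ⊓ kr (Tc u L) = Z := by
    rw [hK, ker_Tc inc hinc u A Φ L hL]
    exact inf_eq_left.2 (le_pt_vals Z)
  have hZle : Z ≤ K := by rw [← hZK]; exact inf_le_left
  have h := vdim_rank (isClosed_kerA (BC.push inc (BC.stack A (cs ι G Φ))))
    (linv_kerA _) (Tc u L) (equi_Tc u L)
  rw [← hK, hZK, fd_eq_push inc hinc] at h
  set M := K.map (Tc u L : L2 ((ι × μ) × G') →ₗ[ℂ]
    L2 ((η × Fin (Module.finrank ℂ Φ)) × G')) with hM
  have hMi : LInv M := linv_map (equi_Tc u L) (linv_kerA _)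
  have hMv : ∀ φ ∈ Φ, ∀ q r, Dv q r (L φ) ∈ M := by
    intro φ hφ
    refine Submodule.span_induction ?_ ?_ ?_ ?_ hφ
    · rintro _ ⟨x, hx, p0, h0, rfl⟩ q r
      obtain ⟨χ, hχ1, hχ2⟩ := hu p0 q h0
      obtain ⟨ε, hε, h1⟩ := Tc_rs inc u A L p0 q h0 χ hχ2 x hx
      have h2 : Tc u L (rs (fun y => χ y.2) x) ∈ M :=
        ⟨_, rs_mem inc hinc A Φ χ hχ1 x (hZle hx), rfl⟩
      rw [h1] at h2
      have h3 := M.smul_mem ε h2
      rw [smul_smul, hε, one_smul] at h3
      have h4 := linv_lt hMi ((h0 * (u p0 q)⁻¹) * r⁻¹) h3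
      rw [lt_Dv] at h4
      have h5 : ((h0 * (u p0 q)⁻¹) * r⁻¹)⁻¹ * (h0 * (u p0 q)⁻¹) = r := by group
      rwa [h5] at h4
    · intro q r
      have : Dv q r (L 0) = 0 := by
        unfold Dv
        simp
      rw [this]
      exact M.zero_mem
    · intro φ ψ _ _ h1 h2 q r
      have : Dv q r (L (φ + ψ)) = Dv q r (L φ) + Dv q r (L ψ) := by
        unfold Dv
        rw [← Finset.sum_add_distrib]
        refine Finset.sum_congr rfl fun j _ => ?_
        rw [map_add, Pi.add_apply, add_smul]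
      rw [this]
      exact M.add_mem (h1 q r) (h2 q r)
    · intro c φ _ h1 q r
      have : Dv q r (L (c • φ)) = c • Dv q r (L φ) := by
        unfold Dv
        rw [Finset.smul_sum]
        refine Finset.sum_congr rfl fun j _ => ?_
        rw [map_smul, Pi.smul_apply, smul_smul, smul_eq_mul]
      rw [this]
      exact M.smul_mem _ (h1 q r)
  have htop : M.topologicalClosure = ⊤ := by
    apply top_of_de
    rintro ⟨⟨q, j⟩, r⟩
    obtain ⟨φ, hφ, h1⟩ := hLs (Pi.single j 1)
    have h2 := hMv φ hφ q r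
    rw [h1] at h2
    have h3 : Dv q r (Pi.single j (1 : ℂ)) = de ((q, j), r) := by
      unfold Dv
      rw [Finset.sum_eq_single j]
      · simp
      · intro b _ hb
        rw [Pi.single_eq_of_ne hb, zero_smul]
      · intro h
        exact absurd (Finset.mem_univ _) h
    rwa [h3] at h2
  rw [htop, vdim_top] at h
  simp only [Fintype.card_prod, Fintype.card_fin] at h
  push_cast at h
  linarith

end Pool.Agent.W656.VA
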