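import Pool.Agent.W656.VA5

/-!
Products, direct sums, finite subgroups, reindexing.
-/

set_option autoImplicit false
set_option linter.unusedSectionVars false

open scoped InnerProductSpace ENNReal
open Filter Topology

namespace Pool.Agent.W656.VA

open Pool.Agent.H80R2
open Pool.Agent.H80R2.BC (L2 GMat vdim IsTr LInv Equi act kerA dk pt vals TorDiv Coef AtR Generic)
open Pool.Agent.H812R3

variable {ι κ ι' κ' G G' : Type} [Group G] [Group G'] [Fintype ι] [Fintype ι']

/-! ### products -/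

theorem vec_real {K : Submodule ℂ (L2 (ι × G))} {u : ι → L2 (ι × G)} (hu : ∀ i, u i ∈ K)
    (h : ∀ i, ∀ x ∈ K, ⟪u i, x⟫_ℂ = x (i, 1)) (i : ι) :
    u i (i, 1) = ((u i (i, 1)).re : ℂ) := by
  rw [← h i _ (hu i), inner_self_eq_norm_sq_to_K]
  norm_cast

/-- slice in the first factor -/
noncomputable def sl1 (ι G : Type) (i' : ι') (g' : G') :
    L2 ((ι × ι') × (G × G')) →L[ℂ] L2 (ι × G) :=
  KP.pull (fun p => ((p.1, i'), (p.2, g'))) (by
    rintro ⟨a, b⟩ ⟨c, d⟩ h
    simpa using h)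

/-- slice in the second factor -/
noncomputable def sl2 (ι' G' : Type) (i : ι) (g : G) :
    L2 ((ι × ι') × (G × G')) →L[ℂ] L2 (ι' × G') :=
  KP.pull (fun p => ((i, p.1), (g, p.2))) (by
    rintro ⟨a, b⟩ ⟨c, d⟩ h
    simpa using h)

theorem act_ext_inl (A : GMat κ ι G) (A' : GMat κ' ι' G') (x : L2 ((ι × ι') × (G × G'))) (k : κ)
    (i' : ι') (g : G) (g' : G') :
    act (BC.ext A A') x (Sum.inl (k, i')) (g, g') = act A (sl1 ι G i' g' x) k g := by
  classical
  unfold act BC.ext
  rw [Fintype.sum_prod_type]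
  refine Finset.sum_congr rfl fun i _ => ?_
  rw [Finset.sum_eq_single i']
  · simp only [Sum.elim_inl, if_true]
    rw [Finsupp.sum_mapDomain_index]
    · simp only [Prod.mk_mul_mk, mul_one]
      rfl
    · intro b; simp
    · intro b c d; ring
  · intro j _ hj
    simp only [Sum.elim_inl]
    rw [if_neg (fun h => hj h.symm)]
    simp
  · intro h
    exact absurd (Finset.mem_univ _) h

theorem act_ext_inr (A : GMat κ ι G) (A' : GMat κ' ι' G') (x : L2 ((ι × ι') × (G × G'))) (k : κ')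
    (i : ι) (g : G) (g' : G') :
    act (BC.ext A A') x (Sum.inr (i, k)) (g, g') = act A' (sl2 ι' G' i g x) k g' := by
  classical
  unfold act BC.ext
  rw [Fintype.sum_prod_type, Finset.sum_eq_single i]
  · refine Finset.sum_congr rfl fun i' _ => ?_
    simp only [Sum.elim_inr, if_true]
    rw [Finsupp.sum_mapDomain_index]
    · simp only [Prod.mk_mul_mk, mul_one]
      rfl
    · intro b; simp
    · intro b c d; ring
  · intro j _ hj
    refine Finset.sum_eq_zero fun i' _ => ?_
    simp only [Sum.elim_inr]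
    rw [if_neg (fun h => hj h.symm)]
    simp
  · intro h
    exact absurd (Finset.mem_univ _) h

theorem mem_ext_iff (A : GMat κ ι G) (A' : GMat κ' ι' G') (x : L2 ((ι × ι') × (G × G'))) :
    x ∈ kerA (BC.ext A A') ↔ (∀ i' g', sl1 ι G i' g' x ∈ kerA A) ∧
      (∀ i g, sl2 ι' G' i g x ∈ kerA A') := by
  constructor
  · intro h
    refine ⟨fun i' g' k g => ?_, fun i g k g' => ?_⟩
    · rw [← act_ext_inl A A']
      exact h _ _
    · rw [← act_ext_inr A A']
      exact h _ _
  · rintro ⟨h1, h2⟩ (⟨k, i'⟩ | ⟨i, k⟩) ⟨g, g'⟩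
    · rw [act_ext_inl]
      exact h1 i' g' k g
    · rw [act_ext_inr]
      exact h2 i g k g'

/-- the bijection behind slicing -/
def exE (ι ι' G G' : Type) : ((ι × ι') × (G × G')) ≃ ((ι' × G') × (ι × G)) where
  toFun p := ((p.1.2, p.2.2), (p.1.1, p.2.1))
  invFun p := ((p.2.1, p.1.1), (p.2.2, p.1.2))
  left_inv _ := rfl
  right_inv _ := rfl

/-- tensor product of two vectors -/
noncomputable def tn (u : L2 (ι × G)) (v : L2 (ι' × G')) : L2 ((ι × ι') × (G × G')) :=
  ⟨fun p => u (p.1.1, p.2.1) * v (p.1.2, p.2.2), KP.mem_of_summable (by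
    have h := (KP.summable_sq v).mul_of_nonneg (KP.summable_sq u) (fun _ => by positivity)
      (fun _ => by positivity)
    rw [← (exE ι ι' G G').summable_iff] at h
    refine h.congr fun p => ?_
    simp only [Function.comp, exE, Equiv.coe_fn_mk, norm_mul]
    ring)⟩

theorem tn_apply (u : L2 (ι × G)) (v : L2 (ι' × G')) (i : ι) (i' : ι') (g : G) (g' : G') :
    tn u v ((i, i'), (g, g')) = u (i, g) * v (i', g') := rfl

theorem inner_tn (u : L2 (ι × G)) (v : L2 (ι' × G')) (x : L2 ((ι × ι') × (G × G'))) :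
    ⟪tn u v, x⟫_ℂ = ∑' q : ι' × G', (starRingEnd ℂ) (v q) * ⟪u, sl1 ι G q.1 q.2 x⟫_ℂ := by
  rw [lp.inner_eq_tsum]
  have h1 : Summable fun q : (ι' × G') × (ι × G) =>
      ⟪tn u v ((exE ι ι' G G').symm q), x ((exE ι ι' G G').symm q)⟫_ℂ :=
    ((exE ι ι' G G').symm.summable_iff).2 (lp.summable_inner (tn u v) x)
  rw [← (exE ι ι' G G').symm.tsum_eq (fun p => ⟪tn u v p, x p⟫_ℂ), h1.tsum_prod]
  refine tsum_congr fun q => ?_
  rw [lp.inner_eq_tsum, ← tsum_mul_left]
  refine tsum_congr fun p => ?_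
  show ⟪tn u v ((p.1, q.1), (p.2, q.2)), x ((p.1, q.1), (p.2, q.2))⟫_ℂ = _
  rw [tn_apply]
  simp only [RCLike.inner_apply, map_mul]
  have : sl1 ι G q.1 q.2 x p = x ((p.1, q.1), (p.2, q.2)) := rfl
  rw [this]
  ring

/-- **Product formula.** -/
theorem vdim_ext [Fintype κ] [Fintype κ'] (A : GMat κ ι G) (A' : GMat κ' ι' G') :
    vdim (kerA (BC.ext A A')) = vdim (kerA A) * vdim (kerA A') := by
  obtain ⟨u, hu, hu2, hu3⟩ := exists_vec (isClosed_kerA A)
  obtain ⟨v, hv, hv2, hv3⟩ := exists_vec (isClosed_kerA A')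
  rw [vdim_of_vec (isClosed_kerA (BC.ext A A')) (fun i => tn (u i.1) (v i.2)), hu3, hv3,
    Finset.sum_mul_sum, Fintype.sum_prod_type]
  · refine Finset.sum_congr rfl fun i _ => Finset.sum_congr rfl fun i' _ => ?_
    show (tn (u i) (v i') ((i, i'), ((1 : G), (1 : G')))).re = _
    rw [tn_apply, vec_real hu hu2 i, vec_real hv hv2 i', ← Complex.ofReal_mul, Complex.ofReal_re,
      Complex.ofReal_re, Complex.ofReal_re]
  · rintro ⟨i, i'⟩
    rw [mem_ext_iff]
    refine ⟨fun j' g' => ?_, fun j g => ?_⟩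
    · have : sl1 ι G j' g' (tn (u i) (v i')) = (v i' (j', g')) • u i := by
        ext ⟨a, b⟩
        show tn (u i) (v i') ((a, j'), (b, g')) = v i' (j', g') * u i (a, b)
        rw [tn_apply, mul_comm]
      rw [this]
      exact Submodule.smul_mem _ _ (hu i)
    · have : sl2 ι' G' j g (tn (u i) (v i')) = (u i (j, g)) • v i' := by
        ext ⟨a, b⟩
        rfl
      rw [this]
      exact Submodule.smul_mem _ _ (hv i')
  · rintro ⟨i, i'⟩ x hx
    rw [mem_ext_iff] at hx
    rw [inner_tn]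
    have h1 : ∀ q : ι' × G', (starRingEnd ℂ) (v i' q) * ⟪u i, sl1 ι G q.1 q.2 x⟫_ℂ
        = ⟪v i' q, sl2 ι' G' i 1 x q⟫_ℂ := by
      intro q
      rw [hu2 i _ (hx.1 q.1 q.2)]
      simp only [RCLike.inner_apply]
      rw [mul_comm]
      rfl
    rw [tsum_congr h1, ← lp.inner_eq_tsum, hv2 i' _ (hx.2 i 1)]
    rfl

/-! ### direct sums -/

/-- block diagonal matrix -/
def bd (A : GMat κ ι G) (A' : GMat κ' ι' G) : GMat (κ ⊕ κ') (ι ⊕ ι') G :=
  Sum.elim (fun k => Sum.elim (A k) (fun _ => 0)) (fun k => Sum.elim (fun _ => 0) (A' k))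

/-- the part in the first summand -/
noncomputable def pl1 (ι ι' G : Type) : L2 ((ι ⊕ ι') × G) →L[ℂ] L2 (ι × G) :=
  KP.pull (fun p => (Sum.inl p.1, p.2)) (by
    rintro ⟨a, b⟩ ⟨c, d⟩ h
    simpa using h)

/-- the part in the second summand -/
noncomputable def pl2 (ι ι' G : Type) : L2 ((ι ⊕ ι') × G) →L[ℂ] L2 (ι' × G) :=
  KP.pull (fun p => (Sum.inr p.1, p.2)) (by
    rintro ⟨a, b⟩ ⟨c, d⟩ h
    simpa using h)

theorem mem_bd_iff (A : GMat κ ι G) (A' : GMat κ' ι' G) (x : L2 ((ι ⊕ ι') × G)) :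
    x ∈ kerA (bd A A') ↔ pl1 ι ι' G x ∈ kerA A ∧ pl2 ι ι' G x ∈ kerA A' := by
  have h1 : ∀ k g, act (bd A A') x (Sum.inl k) g = act A (pl1 ι ι' G x) k g := by
    intro k g
    unfold act bd
    rw [Fintype.sum_sum_type]
    simp only [Sum.elim_inl, Sum.elim_inr, Finsupp.sum_zero_index, Finset.sum_const_zero, add_zero]
    rfl
  have h2 : ∀ k g, act (bd A A') x (Sum.inr k) g = act A' (pl2 ι ι' G x) k g := by
    intro k g
    unfold act bd
    rw [Fintype.sum_sum_type]
    simp only [Sum.elim_inl, Sum.elim_inr, Finsupp.sum_zero_index, Finset.sum_const_zero, zero_add]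
    rfl
  constructor
  · intro h
    refine ⟨fun k g => ?_, fun k g => ?_⟩
    · rw [← h1]; exact h _ _
    · rw [← h2]; exact h _ _
  · rintro ⟨h3, h4⟩ (k | k) g
    · rw [h1]; exact h3 k g
    · rw [h2]; exact h4 k g

theorem vdim_bd [Fintype κ] [Fintype κ'] (A : GMat κ ι G) (A' : GMat κ' ι' G) :
    vdim (kerA (bd A A')) = vdim (kerA A) + vdim (kerA A') := by
  obtain ⟨u, hu, hu2, hu3⟩ := exists_vec (isClosed_kerA A)
  obtain ⟨v, hv, hv2, hv3⟩ := exists_vec (isClosed_kerA A')
  have i1 : Function.Injective (fun p : ι × G => ((Sum.inl p.1 : ι ⊕ ι'), p.2)) := by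
    rintro ⟨a, b⟩ ⟨c, d⟩ h
    simpa using h
  have i2 : Function.Injective (fun p : ι' × G => ((Sum.inr p.1 : ι ⊕ ι'), p.2)) := by
    rintro ⟨a, b⟩ ⟨c, d⟩ h
    simpa using h
  set w : ι ⊕ ι' → L2 ((ι ⊕ ι') × G) := Sum.elim (fun i => KP.push _ i1 (u i))
    (fun i => KP.push _ i2 (v i)) with hw
  rw [vdim_of_vec (isClosed_kerA (bd A A')) w, hu3, hv3, Fintype.sum_sum_type]
  · congr 1
    · refine Finset.sum_congr rfl fun i _ => ?_
      rw [hw]
      simp only [Sum.elim_inl]
      rw [pushL_apply _ i1 (u i) (i, 1)]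
    · refine Finset.sum_congr rfl fun i _ => ?_
      rw [hw]
      simp only [Sum.elim_inr]
      rw [pushL_apply _ i2 (v i) (i, 1)]
  · rintro (i | i)
    · rw [mem_bd_iff]
      have e1 : pl1 ι ι' G (w (Sum.inl i)) = u i := by
        ext p
        exact pushL_apply _ i1 (u i) p
      have e2 : pl2 ι ι' G (w (Sum.inl i)) = 0 := by
        ext p
        exact pushL_apply_ne _ i1 (u i) _ (by rintro ⟨a, b⟩ h; simp at h)
      rw [e1, e2]
      exact ⟨hu i, Submodule.zero_mem _⟩
    · rw [mem_bd_iff]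
      have e1 : pl2 ι ι' G (w (Sum.inr i)) = v i := by
        ext p
        exact pushL_apply _ i2 (v i) p
      have e2 : pl1 ι ι' G (w (Sum.inr i)) = 0 := by
        ext p
        exact pushL_apply_ne _ i2 (v i) _ (by rintro ⟨a, b⟩ h; simp at h)
      rw [e1, e2]
      exact ⟨Submodule.zero_mem _, hv i⟩
  · rintro (i | i) x hx
    · rw [mem_bd_iff] at hx
      rw [hw]
      simp only [Sum.elim_inl]
      rw [KP.push, ContinuousLinearMap.adjoint_inner_left]
      exact hu2 i _ hx.1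
    · rw [mem_bd_iff] at hx
      rw [hw]
      simp only [Sum.elim_inr]
      rw [KP.push, ContinuousLinearMap.adjoint_inner_left]
      exact hv2 i _ hx.2

/-! ### reindexing -/

/-- the matrix with reindexed columns and rows -/
def ri {κ₂ ι₂ : Type} (e : κ₂ → κ) (f : ι₂ ≃ ι) (A : GMat κ ι G) : GMat κ₂ ι₂ G :=
  fun k i => A (e k) (f i)

theorem act_ri {κ₂ ι₂ : Type} [Fintype ι₂] (e : κ₂ → κ) (f : ι₂ ≃ ι) (A : GMat κ ι G)
    (x : ι₂ × G → ℂ) (k : κ₂) (g : G) :
    act (ri e f A) x k g = act A (fun p => x (f.symm p.1, p.2)) (e k) g := by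
  unfold act ri
  rw [← Equiv.sum_comp f]
  simp only [Equiv.symm_apply_apply]

theorem vdim_ri [Fintype κ] {κ₂ ι₂ : Type} [Fintype κ₂] [Fintype ι₂] (e : κ₂ ≃ κ) (f : ι₂ ≃ ι)
    (A : GMat κ ι G) : vdim (kerA (ri e f A)) = vdim (kerA A) := by
  obtain ⟨u, hu, hu2, hu3⟩ := exists_vec (isClosed_kerA A)
  have i1 : Function.Injective (fun p : ι × G => (f.symm p.1, p.2)) := by
    rintro ⟨a, b⟩ ⟨c, d⟩ h
    simpa using h
  have hmem : ∀ x : L2 (ι₂ × G), x ∈ kerA (ri e f A) ↔
      KP.pull (fun p : ι × G => (f.symm p.1, p.2)) i1 x ∈ kerA A := by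
    intro x
    constructor
    · intro h k g
      have := h (e.symm k) g
      rw [act_ri, e.apply_symm_apply] at this
      exact this
    · intro h k g
      rw [act_ri]
      exact h (e k) g
  rw [vdim_of_vec (isClosed_kerA (ri e f A)) (fun i => KP.push _ i1 (u (f i))), hu3]
  · rw [← Equiv.sum_comp f]
    refine Finset.sum_congr rfl fun i _ => ?_
    have := pushL_apply _ i1 (u (f i)) (f i, 1)
    simp only [Equiv.symm_apply_apply] at this
    rw [this]
  · intro i
    rw [hmem]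
    have : KP.pull (fun p : ι × G => (f.symm p.1, p.2)) i1 (KP.push _ i1 (u (f i))) = u (f i) := by
      ext p
      exact pushL_apply _ i1 (u (f i)) p
    rw [this]
    exact hu _
  · intro i x hx
    rw [hmem] at hx
    rw [KP.push, ContinuousLinearMap.adjoint_inner_left, hu2 (f i) _ hx]
    show x (f.symm (f i), 1) = x (i, 1)
    rw [Equiv.symm_apply_apply]

/-! ### finite subgroups -/

/-- the matrix whose kernel consists of the right `H`-invariant vectors -/
noncomputable def sgM (H : Subgroup G) : GMat H Unit G :=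
  fun h _ => Finsupp.single (h : G) 1 - Finsupp.single 1 1

theorem act_sgM (H : Subgroup G) (x : Unit × G → ℂ) (h : H) (g : G) :
    act (sgM H) x h g = x ((), g * h) - x ((), g) := by
  unfold act sgM
  rw [Fintype.sum_unique]
  rw [Finsupp.sum_sub_index (by intros; ring), Finsupp.sum_single_index (by simp),
    Finsupp.sum_single_index (by simp)]
  simp

theorem vdim_sgM (H : Subgroup G) [Fintype H] :
    vdim (kerA (sgM H)) = 1 / (Nat.card H : ℝ) := by
  classical
  have hcard : (Fintype.card H : ℂ) ≠ 0 := by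
    exact_mod_cast Fintype.card_ne_zero
  set u : L2 (Unit × G) := ∑ h : H, (1 / (Fintype.card H : ℂ)) • de ((), (h : G)) with hu
  have happ : ∀ g : G, u ((), g) = if g ∈ H then 1 / (Fintype.card H : ℂ) else 0 := by
    intro g
    rw [hu, lp.coeFn_sum, Finset.sum_apply]
    have : ∀ h : H, ((1 / (Fintype.card H : ℂ)) • (de ((), (h : G)) : L2 (Unit × G))) ((), g)
        = if g = h then 1 / (Fintype.card H : ℂ) else 0 := by
      intro h
      rw [lp.coeFn_smul, Pi.smul_apply, smul_eq_mul]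
      by_cases hg : g = h
      · subst hg
        rw [de_apply_self, if_pos rfl, mul_one]
      · rw [de_apply_ne (by simpa using hg), if_neg hg, mul_zero]
    rw [Finset.sum_congr rfl fun h _ => this h]
    by_cases hg : g ∈ H
    · rw [if_pos hg, Finset.sum_eq_single (⟨g, hg⟩ : H)]
      · rw [if_pos rfl]
      · intro b _ hb
        rw [if_neg]
        rintro rfl
        exact hb rfl
      · intro h
        exact absurd (Finset.mem_univ _) h
    · rw [if_neg hg]
      refine Finset.sum_eq_zero fun h _ => ?_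
      rw [if_neg]
      rintro rfl
      exact hg h.2
  rw [vdim_of_vec (isClosed_kerA (sgM H)) (fun _ => u), Fintype.sum_unique]
  · show (u ((), 1)).re = _
    rw [happ, if_pos H.one_mem, Nat.card_eq_fintype_card]
    rw [← Complex.ofReal_natCast, ← Complex.ofReal_one, ← Complex.ofReal_div, Complex.ofReal_re]
  · rintro _ h g
    rw [act_sgM, happ, happ, if_congr (Subgroup.mul_mem_cancel_right H h.2) rfl rfl, sub_self]
  · rintro ⟨⟩ x hx
    rw [hu, sum_inner]
    have h1 : ∀ h : H, ⟪(1 / (Fintype.card H : ℂ)) • (de ((), (h : G)) : L2 (Unit × G)), x⟫_ℂ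
        = (1 / (Fintype.card H : ℂ)) * x ((), 1) := by
      intro h
      rw [inner_smul_left, inner_de]
      have h2 := hx h 1
      rw [act_sgM, one_mul, sub_eq_zero] at h2
      rw [h2]
      simp
    rw [Finset.sum_congr rfl fun h _ => h1 h, Finset.sum_const, Finset.card_univ, nsmul_eq_mul]
    field_simp

end Pool.Agent.W656.VA
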