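import Pool.Agent.W656.VA7

/-!
The gap theorem for classes of groups; the kernel dimension in the format of the problem.
-/

set_option autoImplicit false
set_option linter.unusedSectionVars false

open scoped InnerProductSpace ENNReal
open Filter Topology

namespace Pool.Agent.W656.VA

open Pool.Agent.H80R2
open Pool.Agent.H80R2.BC (L2 GMat vdim IsTr LInv Equi act kerA dk pt vals TorDiv Coef AtR Generic)
open Pool.Agent.H812R3

/-- powers of a normalised value -/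
theorem powers (C : (G : Type) → [Group G] → Prop)
    (hprod : ∀ (G H : Type) [Group G] [Group H], C G → C H → C (G × H)) {R : Subring ℂ}
    {G : Type} [Group G] (hG : C G) {d : ℕ} (hd : IsLcm G d) {v : ℝ} (hv : Val R G v) (k : ℕ) :
    ∃ (H : Type) (_ : Group H), C H ∧ ∃ (e : ℕ) (w : ℝ), IsLcm H e ∧ Val R H w ∧
      (e : ℝ) * w = ((d : ℝ) * v) ^ (2 ^ k) := by
  induction k with
  | zero => exact ⟨G, inferInstance, hG, d, v, hd, hv, by simp⟩
  | succ k ih =>
    obtain ⟨H, _, hH, e, w, he, hw, h⟩ := ih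
    refine ⟨H × H, inferInstance, hprod _ _ hH hH, e * e, w * w, he.prod he, val_mul hw hw, ?_⟩
    rw [pow_succ, pow_mul, ← h]
    push_cast
    ring

theorem exists_pow_lt {l ε : ℝ} (h0 : 0 < l) (h1 : l < 1) (hε : 0 < ε) :
    ∃ k : ℕ, l ^ (2 ^ k) < ε := by
  obtain ⟨n, hn⟩ := exists_pow_lt_of_lt_one hε h1
  refine ⟨n, lt_of_le_of_lt ?_ hn⟩
  apply pow_le_pow_of_le_one h0.le h1.le
  exact Nat.lt_two_pow_self.le

/-- **The gap theorem.** -/
theorem gap_val (C : (G : Type) → [Group G] → Prop)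
    (hprod : ∀ (G H : Type) [Group G] [Group H], C G → C H → C (G × H))
    (hfree : ∀ (G : Type) [Group G] (m : ℕ), C G → C (Monoid.Coprod G (FreeGroup (Fin m))))
    (R : Subring ℂ) (a b : ℝ) (ha : 0 ≤ a) (hab : a < b)
    (hgap : ∀ (G : Type) [Group G], C G → ∀ d : ℕ, IsLcm G d → ∀ v : ℝ, Val R G v →
      ¬ (a < (d : ℝ) * v ∧ (d : ℝ) * v < b))
    (G : Type) [Group G] (hG : C G) (d : ℕ) (hd : IsLcm G d) (v : ℝ) (hv : Val R G v) :
    ∃ z : ℤ, (d : ℝ) * v = z := by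
  by_contra hcon
  obtain ⟨m, ρ, hρ, h0, h1⟩ := val_small hd hv hcon
  have hd0 : (0 : ℝ) < d := by exact_mod_cast hd.pos
  obtain ⟨k, hk⟩ := exists_pow_lt (mul_pos hd0 h0) h1 (sub_pos.2 hab)
  obtain ⟨H, _, hH, e, w, he, hw, h2⟩ := powers C hprod (hfree G m hG) (hd.coprod m) hρ k
  set l := ((d : ℝ) * ρ) ^ (2 ^ k) with hl
  have hl0 : 0 < l := pow_pos (mul_pos hd0 h0) _
  have h3 := val_nsmul hw (⌊a / l⌋₊ + 1)
  refine hgap H hH e he _ h3 ?_
  have h4 : (e : ℝ) * (((⌊a / l⌋₊ + 1 : ℕ) : ℝ) * w) = ((⌊a / l⌋₊ : ℝ) + 1) * l := by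
    rw [← h2]
    push_cast
    ring
  rw [h4]
  have h5 : a / l < (⌊a / l⌋₊ : ℝ) + 1 := Nat.lt_floor_add_one _
  have h6 : (⌊a / l⌋₊ : ℝ) ≤ a / l := Nat.floor_le (div_nonneg ha hl0.le)
  rw [div_lt_iff₀ hl0] at h5
  rw [le_div_iff₀ hl0] at h6
  exact ⟨h5, by nlinarith⟩

/-! ### the format of the problem -/

/-- The kernel of right multiplication by `A` on `ℓ²(G)^m`. -/
def kernelSet {G : Type} [Group G] {m n : ℕ} (A : Matrix (Fin m) (Fin n) (G →₀ ℂ)) :
    Set (lp (fun _ : Fin m × G => ℂ) 2) :=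
  {x | ∀ (j : Fin n) (g : G),
    ∑ i' : Fin m, (A i' j).sum (fun h c => x (i', g * h⁻¹) * c) = 0}

open Classical in
/-- Its von Neumann dimension. -/
noncomputable def kerDim {G : Type} [Group G] {m n : ℕ}
    (A : Matrix (Fin m) (Fin n) (G →₀ ℂ)) : ℝ :=
  ∑ i : Fin m, (1 - (Metric.infDist
    (lp.single 2 (i, (1 : G)) (1 : ℂ) : lp (fun _ : Fin m × G => ℂ) 2) (kernelSet A)) ^ 2)

/-- change of convention -/
noncomputable def cv {G : Type} [Group G] {m n : ℕ} (A : Matrix (Fin m) (Fin n) (G →₀ ℂ)) :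
    GMat (Fin n) (Fin m) G := fun j i => (A i j).mapDomain (fun g => g⁻¹)

theorem kernelSet_eq {G : Type} [Group G] {m n : ℕ} (A : Matrix (Fin m) (Fin n) (G →₀ ℂ)) :
    kernelSet A = (kerA (cv A) : Set (L2 (Fin m × G))) := by
  ext x
  simp only [kernelSet, Set.mem_ofPred_eq, SetLike.mem_coe, mem_kerA]
  refine forall_congr' fun j => forall_congr' fun g => ?_
  have : act (cv A) x j g = ∑ i' : Fin m, (A i' j).sum (fun h c => x (i', g * h⁻¹) * c) := by
    unfold act cv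
    refine Finset.sum_congr rfl fun i _ => ?_
    rw [Finsupp.sum_mapDomain_index]
    · refine Finsupp.sum_congr fun h _ => ?_
      ring
    · intro b; simp
    · intro b c e; ring
  rw [this]

theorem kerDim_eq {G : Type} [Group G] {m n : ℕ} (A : Matrix (Fin m) (Fin n) (G →₀ ℂ)) :
    kerDim A = vdim (kerA (cv A)) := by
  classical
  unfold kerDim vdim
  rw [kernelSet_eq]
  refine Finset.sum_congr rfl fun i _ => ?_
  rw [dl_eq]
  unfold de
  rw [← KP.dl_eq_single]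

theorem val_kerDim {G : Type} [Group G] {R : Subring ℂ} {m n : ℕ}
    (A : Matrix (Fin m) (Fin n) (G →₀ ℂ)) (hA : ∀ i j g, A i j g ∈ R) : Val R G (kerDim A) := by
  rw [kerDim_eq]
  exact ⟨m, n, cv A, fun k i h => coef_mapDomain _ _ (hA i k) h, rfl⟩

theorem exists_kerDim {G : Type} [Group G] {R : Subring ℂ} {v : ℝ} (hv : Val R G v) :
    ∃ (m n : ℕ) (A : Matrix (Fin m) (Fin n) (G →₀ ℂ)), (∀ i j g, A i j g ∈ R) ∧ kerDim A = v := by
  obtain ⟨m, n, A, hA, rfl⟩ := hv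
  set B : Matrix (Fin m) (Fin n) (G →₀ ℂ) :=
    Matrix.of fun i j => (A j i).mapDomain (fun g => g⁻¹) with hB
  refine ⟨m, n, B, fun i j g => coef_mapDomain _ _ (hA j i) g, ?_⟩
  rw [kerDim_eq]
  have : cv B = A := by
    funext j i
    unfold cv
    rw [hB, Matrix.of_apply, ← Finsupp.mapDomain_comp]
    have : ((fun g : G => g⁻¹) ∘ fun g : G => g⁻¹) = id := by
      funext g
      simp
    rw [this, Finsupp.mapDomain_id]
  rw [this]

end Pool.Agent.W656.VA
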