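import Pool.Agent.W656.VB1

/-!
Base change, part 2: maximizers and the denominators of break points.
-/

set_option autoImplicit false
set_option linter.unusedSectionVars false

open scoped InnerProductSpace ENNReal
open Filter Topology

namespace Pool.Agent.W656.VA

open Pool.Agent.H80R2
open Pool.Agent.H80R2.BC (L2 GMat vdim IsTr LInv Equi act kerA dk pt vals TorDiv Coef AtR Generic)
open Pool.Agent.H812R3

variable {ι κ μ G : Type} [Group G] [Fintype ι] [Fintype κ] [Fintype μ]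

/-- `Φ` maximizes `fd A Φ - θ dim Φ` -/
def IsMx (A : GMat κ (ι × μ) G) (θ : ℝ) (Φ : Submodule ℂ (μ → ℂ)) : Prop :=
  ∀ Ψ : Submodule ℂ (μ → ℂ),
    fd A Ψ - θ * Module.finrank ℂ Ψ ≤ fd A Φ - θ * Module.finrank ℂ Φ

theorem finrank_sup_inf (Φ Ψ : Submodule ℂ (μ → ℂ)) :
    (Module.finrank ℂ (Φ ⊔ Ψ : Submodule ℂ (μ → ℂ)) : ℝ) +
      Module.finrank ℂ (Φ ⊓ Ψ : Submodule ℂ (μ → ℂ)) =
      Module.finrank ℂ Φ + Module.finrank ℂ Ψ := by
  exact_mod_cast Submodule.finrank_sup_add_finrank_inf_eq Φ Ψ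

theorem finrank_le_card (Φ : Submodule ℂ (μ → ℂ)) : Module.finrank ℂ Φ ≤ Fintype.card μ := by
  have := Submodule.finrank_le Φ
  rwa [Module.finrank_fintype_fun_eq_card] at this

theorem mx_sup {A : GMat κ (ι × μ) G} {θ : ℝ} {Φ Ψ : Submodule ℂ (μ → ℂ)} (hΦ : IsMx A θ Φ)
    (hΨ : IsMx A θ Ψ) : IsMx A θ (Φ ⊔ Ψ) := by
  intro X
  have h1 := hΦ (Φ ⊓ Ψ)
  have h2 := hΨ X
  have h3 := fd_super A Φ Ψ
  have h4 := finrank_sup_inf Φ Ψ
  have h5 : θ * (Module.finrank ℂ (Φ ⊔ Ψ : Submodule ℂ (μ → ℂ)) : ℝ) =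
      θ * Module.finrank ℂ Φ + θ * Module.finrank ℂ Ψ -
        θ * Module.finrank ℂ (Φ ⊓ Ψ : Submodule ℂ (μ → ℂ)) := by
    rw [← mul_add, ← mul_sub]
    congr 1
    linarith
  linarith

theorem mx_cross {A : GMat κ (ι × μ) G} {θ θ' : ℝ} (hθ : θ < θ') {Φ Ψ : Submodule ℂ (μ → ℂ)}
    (hΦ : IsMx A θ Φ) (hΨ : IsMx A θ' Ψ) : Ψ ≤ Φ := by
  have h1 := hΦ (Φ ⊔ Ψ)
  have h2 := hΨ (Φ ⊓ Ψ)
  have h3 := fd_super A Φ Ψ
  have h4 := finrank_sup_inf Φ Ψ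
  have h5 : Module.finrank ℂ (Φ ⊓ Ψ : Submodule ℂ (μ → ℂ)) ≤ Module.finrank ℂ Ψ :=
    Submodule.finrank_mono inf_le_right
  have h6 : (Module.finrank ℂ (Φ ⊓ Ψ : Submodule ℂ (μ → ℂ)) : ℝ) ≤ Module.finrank ℂ Ψ := by
    exact_mod_cast h5
  have h9 : (Module.finrank ℂ (Φ ⊔ Ψ : Submodule ℂ (μ → ℂ)) : ℝ) =
      Module.finrank ℂ Φ + Module.finrank ℂ Ψ -
        Module.finrank ℂ (Φ ⊓ Ψ : Submodule ℂ (μ → ℂ)) := by linarith
  rw [h9] at h1
  have h10 : (θ' - θ) * ((Module.finrank ℂ Ψ : ℝ) -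
      Module.finrank ℂ (Φ ⊓ Ψ : Submodule ℂ (μ → ℂ))) ≤ 0 := by nlinarith
  have h7 : (Module.finrank ℂ Ψ : ℝ) ≤ Module.finrank ℂ (Φ ⊓ Ψ : Submodule ℂ (μ → ℂ)) := by
    by_contra hc
    push Not at hc
    have := mul_pos (sub_pos.2 hθ) (sub_pos.2 hc)
    linarith
  have h8 : Φ ⊓ Ψ = Ψ := Submodule.eq_of_le_of_finrank_le inf_le_right (by exact_mod_cast h7)
  exact inf_eq_right.1 h8

/-- the value space of the cut system is a maximizer -/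
theorem mx_vals (A : GMat κ (ι × μ) G) (N j : ℕ) (hN : 0 < N) :
    IsMx A (j / N) (vals (kerA (ct N j A))) ∧
      N * fd A (vals (kerA (ct N j A))) - j * Module.finrank ℂ (vals (kerA (ct N j A))) =
        vdim (kerA (ct N j A)) := by
  have hN' : (0 : ℝ) < N := by exact_mod_cast hN
  have h1 := ct_eq N j A ⊤
  rw [fd_top, pt_top, inf_top_eq] at h1
  refine ⟨?_, h1.symm⟩
  intro Ψ
  have h2 := (ct_ge N j A Ψ).trans (fd_mono _ (le_top : Ψ ≤ ⊤))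
  rw [fd_top, h1] at h2
  set Φ := vals (kerA (ct N j A))
  have h3 : ∀ X : Submodule ℂ (μ → ℂ), fd A X - (j / N : ℝ) * Module.finrank ℂ X =
      (N * fd A X - j * Module.finrank ℂ X) / N := by
    intro X
    field_simp
  rw [h3, h3]
  gcongr

theorem mx_value {A : GMat κ (ι × μ) G} {N j : ℕ} (hN : 0 < N) {Φ : Submodule ℂ (μ → ℂ)}
    (h : IsMx A (j / N) Φ) :
    N * fd A Φ - j * Module.finrank ℂ Φ = vdim (kerA (ct N j A)) := by
  have hN' : (0 : ℝ) < N := by exact_mod_cast hN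
  obtain ⟨h1, h2⟩ := mx_vals A N j hN
  rw [← h2]
  have h3 := le_antisymm (h1 Φ) (h _)
  have h4 : ∀ X : Submodule ℂ (μ → ℂ), fd A X - (j / N : ℝ) * Module.finrank ℂ X =
      (N * fd A X - j * Module.finrank ℂ X) / N := by
    intro X
    field_simp
  rw [h4, h4] at h3
  field_simp at h3
  linarith

theorem exists_frac {a b : ℝ} (ha : 0 ≤ a) (hab : a < b) :
    ∃ N0 : ℕ, 0 < N0 ∧ ∀ N : ℕ, N0 ≤ N → ∃ j : ℕ, a < j / N ∧ (j : ℝ) / N < b := by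
  obtain ⟨N0, hN0⟩ := exists_nat_gt (1 / (b - a))
  have h0 : 0 < b - a := sub_pos.2 hab
  have h1 : (0 : ℝ) < N0 := lt_trans (by positivity) hN0
  refine ⟨N0, by exact_mod_cast h1, fun N hN => ?_⟩
  have hN' : (N0 : ℝ) ≤ N := by exact_mod_cast hN
  have h2 : (0 : ℝ) < N := by linarith
  refine ⟨⌊(N : ℝ) * a⌋₊ + 1, ?_, ?_⟩
  · rw [lt_div_iff₀ h2]
    push_cast
    have := Nat.lt_floor_add_one ((N : ℝ) * a)
    linarith
  · rw [div_lt_iff₀ h2]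
    push_cast
    have h3 := Nat.floor_le (a := (N : ℝ) * a) (by positivity)
    rw [div_lt_iff₀ h0] at hN0
    nlinarith

/-- integrality from an interval of thresholds -/
theorem int_of_interval {a b f : ℝ} {d r : ℕ} (ha : 0 ≤ a) (hab : a < b)
    (h : ∀ N j : ℕ, 0 < N → a < (j : ℝ) / N → (j : ℝ) / N < b →
      ∃ z : ℤ, (d : ℝ) * (N * f - j * r) = z) : ∃ z : ℤ, (d : ℝ) * f = z := by
  obtain ⟨N, hN, hNj⟩ := exists_frac ha hab
  obtain ⟨j, hj1, hj2⟩ := hNj N le_rfl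
  obtain ⟨j', hj1', hj2'⟩ := hNj (N + 1) (Nat.le_succ N)
  obtain ⟨z, hz⟩ := h N j hN hj1 hj2
  obtain ⟨z', hz'⟩ := h (N + 1) j' (Nat.succ_pos N) hj1' hj2'
  refine ⟨z' - z + d * ((j' : ℤ) - j) * r, ?_⟩
  push_cast at hz' ⊢
  linarith

/-- **Break points have small denominators.** -/
theorem break_point {A : GMat κ (ι × μ) G} {d : ℕ}
    (hint : ∀ N j : ℕ, 0 < N → ∃ z : ℤ, (d : ℝ) * vdim (kerA (ct N j A)) = z)
    {Φ0 : Submodule ℂ (μ → ℂ)} (hΦ0 : kerA A ≤ pt Φ0) (T : (μ → ℂ) →ₗ[ℂ] (μ → ℂ))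
    (hT : ∀ x ∈ kerA A, op (sc ι G T) x ∈ kerA A) {ψ : μ → ℂ} (hψ0 : ψ ≠ 0)
    (hker : ∀ φ ∈ Φ0, T φ = 0 → φ ∈ Submodule.span ℂ {ψ}) (hψT : T ψ = 0)
    (hs : 0 < fd A (Submodule.span ℂ {ψ})) :
    ∃ m : ℕ, 1 ≤ m ∧ m ≤ Fintype.card μ ∧
      ∃ z : ℤ, (d : ℝ) * m * fd A (Submodule.span ℂ {ψ}) = z := by
  classical
  set s := fd A (Submodule.span ℂ {ψ}) with hsdef
  have hrank1 : Module.finrank ℂ (Submodule.span ℂ {ψ}) = 1 := finrank_span_singleton hψ0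
  have hmx : ∀ N j : ℕ, 0 < N → ∃ Φ, IsMx A ((j : ℝ) / N) Φ :=
    fun N j hN => ⟨_, (mx_vals A N j hN).1⟩
  -- left
  have hL : ∃ n : ℕ, ∃ N j : ℕ, 0 < N ∧ (j : ℝ) / N < s ∧ ∃ Φ, IsMx A ((j : ℝ) / N) Φ ∧
      Module.finrank ℂ Φ = n := by
    obtain ⟨Φ, hΦ⟩ := hmx 1 0 one_pos
    exact ⟨_, 1, 0, one_pos, by simpa using hs, Φ, hΦ, rfl⟩
  obtain ⟨N0, j0, hN0, hθ0, Φm, hΦm, hrm⟩ := Nat.find_spec hL
  have hLmin : ∀ N j : ℕ, 0 < N → (j : ℝ) / N < s → ∀ Φ, IsMx A ((j : ℝ) / N) Φ →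
      Module.finrank ℂ Φm ≤ Module.finrank ℂ Φ := by
    intro N j hN hj Φ hΦ
    rw [hrm]
    exact Nat.find_min' hL ⟨N, j, hN, hj, Φ, hΦ, rfl⟩
  have hLmx : ∀ N j : ℕ, 0 < N → (j0 : ℝ) / N0 < (j : ℝ) / N → (j : ℝ) / N < s →
      IsMx A ((j : ℝ) / N) Φm := by
    intro N j hN hj1 hj2
    obtain ⟨Ψ, hΨ⟩ := hmx N j hN
    have h1 := mx_cross hj1 hΦm hΨ
    have h2 : Ψ = Φm := Submodule.eq_of_le_of_finrank_le h1 (hLmin N j hN hj2 Ψ hΨ)
    rwa [← h2]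
  -- right
  have hR : ∃ n : ℕ, ∃ N j : ℕ, 0 < N ∧ s < (j : ℝ) / N ∧ ∃ Φ, IsMx A ((j : ℝ) / N) Φ ∧
      Module.finrank ℂ Φ = Fintype.card μ - n ∧ n ≤ Fintype.card μ := by
    obtain ⟨j, hj⟩ := exists_nat_gt s
    obtain ⟨Φ, hΦ⟩ := hmx 1 j one_pos
    refine ⟨Fintype.card μ - Module.finrank ℂ Φ, 1, j, one_pos, by simpa using hj, Φ, hΦ, ?_, ?_⟩
    · have := finrank_le_card Φ
      omega
    · omega
  obtain ⟨N1, j1, hN1, hθ1, Φp, hΦp, hrp, hrp'⟩ := Nat.find_spec hR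
  have hRmax : ∀ N j : ℕ, 0 < N → s < (j : ℝ) / N → ∀ Φ, IsMx A ((j : ℝ) / N) Φ →
      Module.finrank ℂ Φ ≤ Module.finrank ℂ Φp := by
    intro N j hN hj Φ hΦ
    have h1 := finrank_le_card Φ
    have h2 := Nat.find_min' hR (m := Fintype.card μ - Module.finrank ℂ Φ)
      ⟨N, j, hN, hj, Φ, hΦ, by omega, by omega⟩
    rw [hrp]
    omega
  have hRmx : ∀ N j : ℕ, 0 < N → s < (j : ℝ) / N → (j : ℝ) / N < (j1 : ℝ) / N1 →
      IsMx A ((j : ℝ) / N) Φp := by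
    intro N j hN hj1 hj2
    obtain ⟨Ψ, hΨ⟩ := hmx N j hN
    have h1 := mx_cross hj2 hΨ hΦp
    have h2 : Φp = Ψ := Submodule.eq_of_le_of_finrank_le h1 (hRmax N j hN hj1 Ψ hΨ)
    rwa [h2]
  have hs0 : (0 : ℝ) ≤ s := hs.le
  have hθ00 : (0 : ℝ) ≤ (j0 : ℝ) / N0 := by positivity
  -- integrality
  have hdm : ∃ z : ℤ, (d : ℝ) * fd A Φm = z := by
    refine int_of_interval (r := Module.finrank ℂ Φm) hθ00 hθ0 ?_
    intro N j hN h1 h2
    rw [mx_value hN (hLmx N j hN h1 h2)]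
    exact hint N j hN
  have hdp : ∃ z : ℤ, (d : ℝ) * fd A Φp = z := by
    refine int_of_interval (r := Module.finrank ℂ Φp) hs0 hθ1 ?_
    intro N j hN h1 h2
    rw [mx_value hN (hRmx N j hN h1 h2)]
    exact hint N j hN
  -- one threshold on each side
  obtain ⟨NL, hNL, hNL2⟩ := exists_frac hθ00 hθ0
  obtain ⟨jL, hjL1, hjL2⟩ := hNL2 NL le_rfl
  obtain ⟨NR, hNR, hNR2⟩ := exists_frac hs0 hθ1
  obtain ⟨jR, hjR1, hjR2⟩ := hNR2 NR le_rfl
  have hmL := hLmx NL jL hNL hjL1 hjL2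
  have hmR := hRmx NR jR hNR hjR1 hjR2
  set θL := (jL : ℝ) / NL with hθL
  set θR := (jR : ℝ) / NR with hθR
  have hle : Φp ≤ Φm := mx_cross (hjL2.trans hjR1) hmL hmR
  -- ψ ∈ Φm
  have hψm : ψ ∈ Φm := by
    by_contra hno
    have hdis : Φm ⊓ Submodule.span ℂ {ψ} = ⊥ := by
      rw [eq_bot_iff]
      rintro x ⟨hx1, hx2⟩
      rw [SetLike.mem_coe, Submodule.mem_span_singleton] at hx2
      obtain ⟨c, rfl⟩ := hx2
      by_cases hc : c = 0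
      · simp [hc]
      · exact absurd ((Φm.smul_mem_iff hc).1 hx1) hno
    have h1 := hmL (Φm ⊔ Submodule.span ℂ {ψ})
    have h2 := fd_super A Φm (Submodule.span ℂ {ψ})
    have h3 := finrank_sup_inf Φm (Submodule.span ℂ {ψ})
    rw [hdis, fd_bot] at h2
    rw [hdis, finrank_bot, hrank1] at h3
    push_cast at h3
    rw [← hsdef] at h2
    nlinarith
  -- ψ ∉ Φp
  have hψp : ψ ∉ Φp := by
    intro hyes
    have hθR0 : 0 < θR := hs.trans hjR1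
    have hsub : Φp ≤ Φ0 := by
      by_contra hno
      have h1 : fd A (Φp ⊓ Φ0) = fd A Φp := by
        unfold fd
        congr 1
        ext x
        simp only [Submodule.mem_inf, mem_pt]
        constructor
        · rintro ⟨h1, h2⟩
          exact ⟨h1, fun p g => (h2 p g).1⟩
        · rintro ⟨h1, h2⟩
          exact ⟨h1, fun p g => ⟨h2 p g, hΦ0 h1 p g⟩⟩
      have h2 : Module.finrank ℂ (Φp ⊓ Φ0 : Submodule ℂ (μ → ℂ)) < Module.finrank ℂ Φp := by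
        apply Submodule.finrank_lt_finrank_of_lt
        exact lt_of_le_of_ne inf_le_left (fun h => hno (inf_eq_left.1 h))
      have h3 := hmR (Φp ⊓ Φ0)
      rw [h1] at h3
      have h4 : (Module.finrank ℂ (Φp ⊓ Φ0 : Submodule ℂ (μ → ℂ)) : ℝ) <
          Module.finrank ℂ Φp := by exact_mod_cast h2
      nlinarith
    have hk : Φp ⊓ LinearMap.ker T = Submodule.span ℂ {ψ} := by
      apply le_antisymm
      · rintro x ⟨hx1, hx2⟩
        exact hker x (hsub hx1) hx2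
      · rw [Submodule.span_singleton_le_iff_mem]
        exact ⟨hyes, hψT⟩
    have h1 := fd_rank A A T Φp (fun x hx => hT x hx.1)
    have h2 := finrank_rank T Φp
    rw [hk, ← hsdef] at h1
    rw [hk, hrank1] at h2
    have h3 := hmR (Φp.map T)
    have h4 : (Module.finrank ℂ Φp : ℝ) = 1 + Module.finrank ℂ (Φp.map T) := by
      exact_mod_cast h2
    nlinarith
  have hlt : Φp < Φm := lt_of_le_of_ne hle (fun h => hψp (h ▸ hψm))
  have hflt := Submodule.finrank_lt_finrank_of_lt hlt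
  set rm := Module.finrank ℂ Φm with hrmdef
  set rp := Module.finrank ℂ Φp with hrpdef
  have hr : (0 : ℝ) < (rm : ℝ) - rp := by
    have : (rp : ℝ) < rm := by exact_mod_cast hflt
    linarith
  -- equality at s
  have hge : s * ((rm : ℝ) - rp) ≤ fd A Φm - fd A Φp := by
    by_contra hno
    push Not at hno
    have h1 : (fd A Φm - fd A Φp) / ((rm : ℝ) - rp) < s := by
      rw [div_lt_iff₀ hr]
      exact hno
    obtain ⟨N, hN, hN2⟩ := exists_frac (a := max ((j0 : ℝ) / N0)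
      ((fd A Φm - fd A Φp) / ((rm : ℝ) - rp))) (b := s) (le_max_of_le_left hθ00)
      (max_lt hθ0 h1)
    obtain ⟨j, hj1, hj2⟩ := hN2 N le_rfl
    have h2 := hLmx N j hN ((le_max_left _ _).trans_lt hj1) hj2 Φp
    have h3 := (le_max_right _ _).trans_lt hj1
    rw [div_lt_iff₀ hr] at h3
    nlinarith
  have hle2 : fd A Φm - fd A Φp ≤ s * ((rm : ℝ) - rp) := by
    by_contra hno
    push Not at hno
    have h1 : s < (fd A Φm - fd A Φp) / ((rm : ℝ) - rp) := by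
      rw [lt_div_iff₀ hr]
      exact hno
    obtain ⟨N, hN, hN2⟩ := exists_frac (a := s) (b := min ((j1 : ℝ) / N1)
      ((fd A Φm - fd A Φp) / ((rm : ℝ) - rp))) hs0 (lt_min hθ1 h1)
    obtain ⟨j, hj1, hj2⟩ := hN2 N le_rfl
    have h2 := hRmx N j hN hj1 (hj2.trans_le (min_le_left _ _)) Φm
    have h3 := hj2.trans_le (min_le_right _ _)
    rw [lt_div_iff₀ hr] at h3
    nlinarith
  refine ⟨rm - rp, by omega, ?_, ?_⟩
  · have := finrank_le_card Φm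
    omega
  · obtain ⟨z, hz⟩ := hdm
    obtain ⟨z', hz'⟩ := hdp
    refine ⟨z - z', ?_⟩
    have h1 : fd A Φm - fd A Φp = s * ((rm : ℝ) - rp) := le_antisymm hle2 hge
    have h2 : ((rm - rp : ℕ) : ℝ) = (rm : ℝ) - rp := by
      rw [Nat.cast_sub hflt.le]
    rw [h2]
    push_cast
    rw [← hz, ← hz', ← mul_sub, h1]
    ring

end Pool.Agent.W656.VA
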