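import Pool.Agent.W656.VB2

/-!
Base change, part 3: squares of systems; integrality of the eigenvalue dimensions.
-/

set_option autoImplicit false
set_option linter.unusedSectionVars false

open scoped InnerProductSpace ENNReal
open Filter Topology

namespace Pool.Agent.W656.VA

open Pool.Agent.H80R2
open Pool.Agent.H80R2.BC (L2 GMat vdim IsTr LInv Equi act kerA dk pt vals TorDiv Coef AtR Generic)
open Pool.Agent.H812R3

variable {ι κ μ G : Type} [Group G] [Fintype ι] [Fintype κ] [Fintype μ]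

/-! ### one-dimensional windows -/

open Classical in
/-- tensoring with `ψ` -/
noncomputable def tp (ι G : Type) [Group G] (ψ : μ → ℂ) : GMat (ι × μ) ι G :=
  fun a p => if a.1 = p then Finsupp.single 1 (ψ a.2) else 0

theorem act_tp (ψ : μ → ℂ) (y : ι × G → ℂ) (p : ι) (i : μ) (g : G) :
    act (tp ι G ψ) y (p, i) g = ψ i * y (p, g) := by
  classical
  unfold act tp
  rw [Finset.sum_eq_single p]
  · simp only [if_true]
    rw [Finsupp.sum_single_index (by simp), mul_one]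
  · intro q _ hq
    simp only
    rw [if_neg (fun h => hq h.symm)]
    simp
  · intro h
    exact absurd (Finset.mem_univ _) h

open Classical in
/-- the coordinate `i0` -/
noncomputable def cd (ι G : Type) [Group G] (i0 : μ) (c : ℂ) : GMat ι (ι × μ) G :=
  fun p a => if a = (p, i0) then Finsupp.single 1 c else 0

theorem act_cd (i0 : μ) (c : ℂ) (x : (ι × μ) × G → ℂ) (p : ι) (g : G) :
    act (cd ι G i0 c) x p g = c * x ((p, i0), g) := by
  classical
  unfold act cd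
  rw [Finset.sum_eq_single (p, i0)]
  · simp only [if_true]
    rw [Finsupp.sum_single_index (by simp), mul_one]
  · intro q _ hq
    rw [if_neg hq]
    simp
  · intro h
    exact absurd (Finset.mem_univ _) h

/-- the system evaluated on vectors `y ⊗ ψ` -/
noncomputable def ev (ψ : μ → ℂ) (A : GMat κ (ι × μ) G) : GMat κ ι G :=
  fun k p => ∑ i, ψ i • A k (p, i)

theorem act_ev (ψ : μ → ℂ) (A : GMat κ (ι × μ) G) (y : L2 (ι × G)) (k : κ) (g : G) :
    act (ev ψ A) y k g = act A (op (tp ι G ψ) y) k g := by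
  unfold act ev
  rw [Fintype.sum_prod_type]
  refine Finset.sum_congr rfl fun p _ => ?_
  rw [← Finsupp.sum_finsetSum_index (h := fun h c => c * y (p, g * h))]
  · refine Finset.sum_congr rfl fun i _ => ?_
    rw [Finsupp.sum_smul_index (by simp)]
    refine Finsupp.sum_congr fun h _ => ?_
    rw [op_apply, act_tp]
    ring
  · intro b; simp
  · intro b c d; ring

theorem mem_ev_iff (ψ : μ → ℂ) (A : GMat κ (ι × μ) G) (y : L2 (ι × G)) :
    y ∈ kerA (ev ψ A) ↔ op (tp ι G ψ) y ∈ kerA A := by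
  rw [mem_kerA, mem_kerA]
  simp only [act_ev]

theorem fd_span (A : GMat κ (ι × μ) G) {ψ : μ → ℂ} (hψ : ψ ≠ 0) :
    fd A (Submodule.span ℂ {ψ}) = vdim (kerA (ev ψ A)) := by
  obtain ⟨i0, hi0⟩ : ∃ i0, ψ i0 ≠ 0 := by
    by_contra h
    push Not at h
    exact hψ (funext h)
  apply le_antisymm
  · -- the coordinate map
    have hback : ∀ x ∈ kerA A ⊓ (pt (Submodule.span ℂ {ψ}) : Submodule ℂ (L2 ((ι × μ) × G))),
        op (tp ι G ψ) (op (cd ι G i0 (ψ i0)⁻¹) x) = x := by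
      intro x hx
      ext ⟨⟨p, i⟩, g⟩
      rw [op_apply, act_tp, op_apply, act_cd]
      have h1 := hx.2 p g
      rw [Submodule.mem_span_singleton] at h1
      obtain ⟨c, hc⟩ := h1
      have e1 : x ((p, i), g) = c * ψ i := (congrFun hc i).symm
      have e2 : x ((p, i0), g) = c * ψ i0 := (congrFun hc i0).symm
      rw [e1, e2]
      field_simp
    refine vdim_inj_le (isClosed_fd A _) (linv_fd A _) (op (cd ι G i0 (ψ i0)⁻¹)) (equi_op _)
      (isClosed_kerA _) ?_ ?_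
    · intro x hx
      rw [mem_ev_iff, hback x hx]
      exact hx.1
    · intro x hx h0
      rw [← hback x hx, h0, map_zero]
  · refine vdim_inj_le (isClosed_kerA _) (linv_kerA _) (op (tp ι G ψ)) (equi_op _)
      (isClosed_fd A _) ?_ ?_
    · intro y hy
      refine ⟨(mem_ev_iff ψ A y).1 hy, fun p g => ?_⟩
      rw [Submodule.mem_span_singleton]
      refine ⟨y (p, g), ?_⟩
      funext i
      rw [op_apply, act_tp, Pi.smul_apply, smul_eq_mul, mul_comm]
    · intro y _ h0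
      ext ⟨p, g⟩
      have h1 : op (tp ι G ψ) y ((p, i0), g) = 0 := by rw [h0]; rfl
      rw [op_apply, act_tp] at h1
      exact (mul_eq_zero.1 h1).resolve_left hi0

/-! ### squares -/

open Classical in
/-- the square of a system -/
noncomputable def sq (A : GMat κ (ι × μ) G) :
    GMat ((κ × ι) ⊕ (ι × κ)) ((ι × ι) × μ) (G × G) :=
  Sum.elim
    (fun a p => if a.2 = p.1.2 then (A a.1 (p.1.1, p.2)).mapDomain (fun g => (g, (1 : G))) else 0)
    (fun a p => if a.1 = p.1.1 then (A a.2 (p.1.2, p.2)).mapDomain (fun g => ((1 : G), g)) else 0)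

/-- slice in the first factor -/
noncomputable def s1 (p2 : ι) (g2 : G) :
    L2 (((ι × ι) × μ) × (G × G)) →L[ℂ] L2 ((ι × μ) × G) :=
  KP.pull (fun a => (((a.1.1, p2), a.1.2), (a.2, g2))) (by
    rintro ⟨⟨a, b⟩, c⟩ ⟨⟨a', b'⟩, c'⟩ h
    simpa using h)

/-- slice in the second factor -/
noncomputable def s2 (p1 : ι) (g1 : G) :
    L2 (((ι × ι) × μ) × (G × G)) →L[ℂ] L2 ((ι × μ) × G) :=
  KP.pull (fun a => (((p1, a.1.1), a.1.2), (g1, a.2))) (by
    rintro ⟨⟨a, b⟩, c⟩ ⟨⟨a', b'⟩, c'⟩ h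
    simpa using h)

theorem act_sq_inl (A : GMat κ (ι × μ) G) (x : L2 (((ι × ι) × μ) × (G × G))) (k : κ) (p2 : ι)
    (g1 g2 : G) : act (sq A) x (Sum.inl (k, p2)) (g1, g2) = act A (s1 p2 g2 x) k g1 := by
  classical
  unfold act sq
  rw [Fintype.sum_prod_type, Fintype.sum_prod_type, Fintype.sum_prod_type]
  refine Finset.sum_congr rfl fun p _ => ?_
  rw [Finset.sum_eq_single p2]
  · refine Finset.sum_congr rfl fun i _ => ?_
    simp only [Sum.elim_inl, if_true]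
    rw [Finsupp.sum_mapDomain_index]
    · simp only [Prod.mk_mul_mk, mul_one]
      rfl
    · intro b; simp
    · intro b c d; ring
  · intro q _ hq
    refine Finset.sum_eq_zero fun i _ => ?_
    simp only [Sum.elim_inl]
    rw [if_neg (fun h => hq h.symm)]
    simp
  · intro h
    exact absurd (Finset.mem_univ _) h

theorem act_sq_inr (A : GMat κ (ι × μ) G) (x : L2 (((ι × ι) × μ) × (G × G))) (k : κ) (p1 : ι)
    (g1 g2 : G) : act (sq A) x (Sum.inr (p1, k)) (g1, g2) = act A (s2 p1 g1 x) k g2 := by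
  classical
  unfold act sq
  rw [Fintype.sum_prod_type, Fintype.sum_prod_type, Fintype.sum_prod_type,
    Finset.sum_eq_single p1]
  · refine Finset.sum_congr rfl fun p _ => Finset.sum_congr rfl fun i _ => ?_
    simp only [Sum.elim_inr, if_true]
    rw [Finsupp.sum_mapDomain_index]
    · simp only [Prod.mk_mul_mk, mul_one]
      rfl
    · intro b; simp
    · intro b c d; ring
  · intro q _ hq
    refine Finset.sum_eq_zero fun p _ => Finset.sum_eq_zero fun i _ => ?_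
    simp only [Sum.elim_inr]
    rw [if_neg (fun h => hq h.symm)]
    simp
  · intro h
    exact absurd (Finset.mem_univ _) h

theorem mem_sq_iff (A : GMat κ (ι × μ) G) (x : L2 (((ι × ι) × μ) × (G × G))) :
    x ∈ kerA (sq A) ↔ (∀ p g, s1 p g x ∈ kerA A) ∧ (∀ p g, s2 p g x ∈ kerA A) := by
  constructor
  · intro h
    refine ⟨fun p2 g2 k g1 => ?_, fun p1 g1 k g2 => ?_⟩
    · rw [← act_sq_inl]
      exact h _ _
    · rw [← act_sq_inr]
      exact h _ _
  · rintro ⟨h1, h2⟩ (⟨k, p2⟩ | ⟨p1, k⟩) ⟨g1, g2⟩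
    · rw [act_sq_inl]
      exact h1 p2 g2 k g1
    · rw [act_sq_inr]
      exact h2 p1 g1 k g2

theorem coef_sq {R : Subring ℂ} {A : GMat κ (ι × μ) G} (hA : Coef R A) : Coef R (sq A) := by
  classical
  rintro (⟨k, i'⟩ | ⟨i, k⟩) p g
  · unfold sq
    simp only [Sum.elim_inl]
    split_ifs
    · exact coef_mapDomain _ _ (hA _ _) _
    · exact R.zero_mem
  · unfold sq
    simp only [Sum.elim_inr]
    split_ifs
    · exact coef_mapDomain _ _ (hA _ _) _
    · exact R.zero_mem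

theorem sq_le (A : GMat κ (ι × μ) G) {Φ0 : Submodule ℂ (μ → ℂ)} (h : kerA A ≤ pt Φ0) :
    kerA (sq A) ≤ pt Φ0 := by
  rintro x hx ⟨p1, p2⟩ ⟨g1, g2⟩
  exact h (((mem_sq_iff A x).1 hx).1 p2 g2) p1 g1

theorem sq_inv (A : GMat κ (ι × μ) G) (T : (μ → ℂ) →ₗ[ℂ] (μ → ℂ))
    (hT : ∀ x ∈ kerA A, op (sc ι G T) x ∈ kerA A) :
    ∀ x ∈ kerA (sq A), op (sc (ι × ι) (G × G) T) x ∈ kerA (sq A) := by
  intro x hx
  rw [mem_sq_iff] at hx ⊢
  refine ⟨fun p g => ?_, fun p g => ?_⟩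
  · have : s1 p g (op (sc (ι × ι) (G × G) T) x) = op (sc ι G T) (s1 p g x) := by
      ext ⟨⟨q, i⟩, a⟩
      rw [op_sc]
      show op (sc (ι × ι) (G × G) T) x (((q, p), i), (a, g)) = _
      rw [op_sc]
      rfl
    rw [this]
    exact hT _ (hx.1 p g)
  · have : s2 p g (op (sc (ι × ι) (G × G) T) x) = op (sc ι G T) (s2 p g x) := by
      ext ⟨⟨q, i⟩, a⟩
      rw [op_sc]
      show op (sc (ι × ι) (G × G) T) x (((p, q), i), (g, a)) = _
      rw [op_sc]
      rfl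
    rw [this]
    exact hT _ (hx.2 p g)

theorem fd_sq (A : GMat κ (ι × μ) G) {ψ : μ → ℂ} (hψ : ψ ≠ 0) :
    fd (sq A) (Submodule.span ℂ {ψ}) = fd A (Submodule.span ℂ {ψ}) ^ 2 := by
  rw [fd_span _ hψ, fd_span _ hψ, pow_two, ← vdim_ext]
  congr 1
  ext y
  rw [mem_ev_iff, mem_sq_iff, mem_ext_iff]
  have e1 : ∀ p g, s1 p g (op (tp (ι × ι) (G × G) ψ) y) = op (tp ι G ψ) (sl1 ι G p g y) := by
    intro p g
    ext ⟨⟨q, i⟩, a⟩
    rw [op_apply, act_tp]
    show op (tp (ι × ι) (G × G) ψ) y (((q, p), i), (a, g)) = _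
    rw [op_apply, act_tp]
    rfl
  have e2 : ∀ p g, s2 p g (op (tp (ι × ι) (G × G) ψ) y) = op (tp ι G ψ) (sl2 ι G p g y) := by
    intro p g
    ext ⟨⟨q, i⟩, a⟩
    rw [op_apply, act_tp]
    show op (tp (ι × ι) (G × G) ψ) y (((p, q), i), (g, a)) = _
    rw [op_apply, act_tp]
    rfl
  simp only [e1, e2, ← mem_ev_iff]

/-! ### arithmetic -/

theorem int_of_powers {u : ℝ} {M : ℕ}
    (h : ∀ k : ℕ, ∃ m : ℕ, 1 ≤ m ∧ m ≤ M ∧ ∃ z : ℤ, (m : ℝ) * u ^ (2 ^ k) = z) :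
    ∃ z : ℤ, u = z := by
  set c := M.factorial with hc
  have hc0 : 0 < c := Nat.factorial_pos M
  have h1 : ∀ k : ℕ, ∃ z : ℤ, (c : ℝ) * u ^ (2 ^ k) = z := by
    intro k
    obtain ⟨m, hm1, hm2, z, hz⟩ := h k
    obtain ⟨e, he⟩ := Nat.dvd_factorial hm1 hm2
    refine ⟨e * z, ?_⟩
    rw [hc, he]
    push_cast
    rw [← hz]
    ring
  obtain ⟨z0, hz0⟩ := h1 0
  rw [pow_zero, pow_one] at hz0
  set q : ℚ := z0 / c with hq
  have hcR : (c : ℝ) ≠ 0 := by exact_mod_cast hc0.ne'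
  have huq : u = (q : ℝ) := by
    rw [hq]
    push_cast
    field_simp
    rw [mul_comm]
    exact hz0
  have h2 : ∀ k : ℕ, q.den ^ (2 ^ k) ∣ c := by
    intro k
    obtain ⟨z, hz⟩ := h1 k
    rw [huq] at hz
    have h3 : (c : ℚ) * q ^ (2 ^ k) = z := by exact_mod_cast hz
    have h4 : (c : ℚ) * (q.num : ℚ) ^ (2 ^ k) = z * (q.den : ℚ) ^ (2 ^ k) := by
      rw [← h3]
      have h5 : q ^ (2 ^ k) * (q.den : ℚ) ^ (2 ^ k) = (q.num : ℚ) ^ (2 ^ k) := by
        rw [← mul_pow, Rat.mul_den_eq_num]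
      rw [mul_assoc, h5]
    have h6 : (c : ℤ) * q.num ^ (2 ^ k) = z * (q.den : ℤ) ^ (2 ^ k) := by exact_mod_cast h4
    have h7 : ((q.den : ℤ) ^ (2 ^ k)) ∣ (c : ℤ) * q.num ^ (2 ^ k) := ⟨z, by rw [h6]; ring⟩
    have h8 : IsCoprime ((q.den : ℤ) ^ (2 ^ k)) (q.num ^ (2 ^ k)) := by
      apply IsCoprime.pow
      rw [Int.isCoprime_iff_gcd_eq_one, Int.gcd_comm]
      have := q.reduced
      rwa [Int.gcd, Int.natAbs_natCast]
    have h9 := h8.dvd_of_dvd_mul_right h7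
    exact_mod_cast h9
  have h3 : q.den = 1 := by
    by_contra hne
    have h4 : 2 ≤ q.den := by
      have := q.pos
      omega
    have h5 := Nat.le_of_dvd hc0 (h2 c)
    have h6 : c < 2 ^ c := Nat.lt_two_pow_self
    have h7 : 2 ^ c < 2 ^ (2 ^ c) := Nat.pow_lt_pow_right (by norm_num) h6
    have h8 : 2 ^ (2 ^ c) ≤ q.den ^ (2 ^ c) := Nat.pow_le_pow_left h4 _
    omega
  refine ⟨q.num, ?_⟩
  rw [huq]
  exact_mod_cast (Rat.den_eq_one_iff q).1 h3 |>.symm

/-- **Integrality of eigenvalue dimensions.** -/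
theorem stage2 (C : (G : Type) → [Group G] → Prop)
    (hprod : ∀ (G H : Type) [Group G] [Group H], C G → C H → C (G × H))
    (hfree : ∀ (G : Type) [Group G] (m : ℕ), C G → C (Monoid.Coprod G (FreeGroup (Fin m))))
    (R : Subring ℂ)
    (hR : ∀ (G : Type) [Group G], C G → ∀ d : ℕ, IsLcm G d → ∀ v : ℝ, Val R G v →
      ∃ z : ℤ, (d : ℝ) * v = z)
    (hG : C G) {d : ℕ} (hd : IsLcm G d) (A : GMat κ (ι × μ) G) (hA : Coef R A)
    {Φ0 : Submodule ℂ (μ → ℂ)} (hΦ0 : kerA A ≤ pt Φ0) (T : (μ → ℂ) →ₗ[ℂ] (μ → ℂ))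
    (hT : ∀ x ∈ kerA A, op (sc ι G T) x ∈ kerA A) {ψ : μ → ℂ} (hψ0 : ψ ≠ 0)
    (hker : ∀ φ ∈ Φ0, T φ = 0 → φ ∈ Submodule.span ℂ {ψ}) (hψT : T ψ = 0)
    (hs : 0 < fd A (Submodule.span ℂ {ψ})) :
    ∃ z : ℤ, (d : ℝ) * fd A (Submodule.span ℂ {ψ}) = z := by
  have key : ∀ k : ℕ, ∃ (H : Type) (_ : Group H) (ι' κ' : Type) (_ : Fintype ι') (_ : Fintype κ')
      (A' : GMat κ' (ι' × μ) H) (e : ℕ), C H ∧ IsLcm H e ∧ Coef R A' ∧ kerA A' ≤ pt Φ0 ∧
      (∀ x ∈ kerA A', op (sc ι' H T) x ∈ kerA A') ∧ 0 < fd A' (Submodule.span ℂ {ψ}) ∧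
      (e : ℝ) * fd A' (Submodule.span ℂ {ψ}) =
        ((d : ℝ) * fd A (Submodule.span ℂ {ψ})) ^ (2 ^ k) := by
    intro k
    induction k with
    | zero =>
      exact ⟨G, inferInstance, ι, κ, inferInstance, inferInstance, A, d, hG, hd, hA, hΦ0, hT, hs,
        by simp⟩
    | succ k ih =>
      obtain ⟨H, _, ι', κ', _, _, A', e, h1, h2, h3, h4, h5, h6, h7⟩ := ih
      refine ⟨H × H, inferInstance, ι' × ι', (κ' × ι') ⊕ (ι' × κ'), inferInstance, inferInstance,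
        sq A', e * e, hprod H H h1 h1, h2.prod h2, coef_sq h3, sq_le A' h4, sq_inv A' T h5, ?_, ?_⟩
      · rw [fd_sq A' hψ0]
        positivity
      · rw [fd_sq A' hψ0, pow_succ 2 k, pow_mul, ← h7]
        push_cast
        ring
  apply int_of_powers (M := Fintype.card μ)
  intro k
  obtain ⟨H, _, ι', κ', _, _, A', e, h1, h2, h3, h4, h5, h6, h7⟩ := key k
  obtain ⟨m, hm1, hm2, z, hz⟩ := break_point (A := A') (d := e) (by
    intro N j hN
    exact hR _ (hfree H _ h1) e (h2.coprod _) _ (val_of _ (coef_ct N j h3)))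
    h4 T h5 hψ0 hker hψT h6
  refine ⟨m, hm1, hm2, z, ?_⟩
  rw [← h7, ← hz]
  ring

end Pool.Agent.W656.VA
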