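import Pool.Agent.W656.VB3

/-!
Base change, part 4: windows of a pencil.
-/

set_option autoImplicit false
set_option linter.unusedSectionVars false

open scoped InnerProductSpace ENNReal
open Filter Topology

namespace Pool.Agent.W656.VA

open Pool.Agent.H80R2
open Pool.Agent.H80R2.BC (L2 GMat vdim IsTr LInv Equi act kerA dk pt vals TorDiv Coef AtR Generic)
open Pool.Agent.H812R3

variable {ι κ μ ν G : Type} [Group G] [Fintype ι] [Fintype κ] [Fintype μ] [Fintype ν]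

theorem mem_of_mx {A : GMat κ (ι × μ) G} {θ : ℝ} {Φ : Submodule ℂ (μ → ℂ)} (hΦ : IsMx A θ Φ)
    {ψ : μ → ℂ} (hψ0 : ψ ≠ 0) (hs : θ < fd A (Submodule.span ℂ {ψ})) : ψ ∈ Φ := by
  by_contra hno
  have hrank1 : Module.finrank ℂ (Submodule.span ℂ {ψ}) = 1 := finrank_span_singleton hψ0
  have hdis : Φ ⊓ Submodule.span ℂ {ψ} = ⊥ := by
    rw [eq_bot_iff]
    rintro x ⟨hx1, hx2⟩
    rw [SetLike.mem_coe, Submodule.mem_span_singleton] at hx2
    obtain ⟨c, rfl⟩ := hx2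
    by_cases hc : c = 0
    · simp [hc]
    · exact absurd ((Φ.smul_mem_iff hc).1 hx1) hno
  have h1 := hΦ (Φ ⊔ Submodule.span ℂ {ψ})
  have h2 := fd_super A Φ (Submodule.span ℂ {ψ})
  have h3 := finrank_sup_inf Φ (Submodule.span ℂ {ψ})
  rw [hdis, fd_bot] at h2
  rw [hdis, finrank_bot, hrank1] at h3
  push_cast at h3
  have h9 : (Module.finrank ℂ (Φ ⊔ Submodule.span ℂ {ψ} : Submodule ℂ (μ → ℂ)) : ℝ) =
      Module.finrank ℂ Φ + 1 := by linarith
  rw [h9, mul_add, mul_one] at h1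
  linarith

theorem top_exists {A : GMat κ (ι × μ) G} {θ : ℝ} (h : ∃ Φ, IsMx A θ Φ) :
    ∃ Φ, IsMx A θ Φ ∧ ∀ Ψ, IsMx A θ Ψ → Ψ ≤ Φ := by
  classical
  have h1 : ∃ n : ℕ, ∃ Φ, IsMx A θ Φ ∧ Fintype.card μ = n + Module.finrank ℂ Φ := by
    obtain ⟨Φ, hΦ⟩ := h
    refine ⟨Fintype.card μ - Module.finrank ℂ Φ, Φ, hΦ, ?_⟩
    have := finrank_le_card Φ
    omega
  obtain ⟨Φ, hΦ, hn⟩ := Nat.find_spec h1
  refine ⟨Φ, hΦ, fun Ψ hΨ => ?_⟩
  have h2 := mx_sup hΦ hΨ
  have h3 := finrank_le_card (Φ ⊔ Ψ)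
  have h4 := Nat.find_min' h1 (m := Fintype.card μ -
    Module.finrank ℂ (Φ ⊔ Ψ : Submodule ℂ (μ → ℂ))) ⟨_, h2, by omega⟩
  have h5 : Φ = Φ ⊔ Ψ := Submodule.eq_of_le_of_finrank_le le_sup_left (by omega)
  rw [h5]
  exact le_sup_right

theorem op_sc_comp (L : (μ → ℂ) →ₗ[ℂ] (ν → ℂ)) {ρ : Type} [Fintype ρ]
    (L' : (ρ → ℂ) →ₗ[ℂ] (μ → ℂ)) (x : L2 ((ι × ρ) × G)) :
    op (sc ι G L) (op (sc ι G L') x) = op (sc ι G (L.comp L')) x := by
  ext ⟨⟨p, n⟩, g⟩
  rw [op_sc, op_sc]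
  have : (fun i => op (sc ι G L') x ((p, i), g)) = L' (fun i => x ((p, i), g)) := by
    funext i
    rw [op_sc]
  rw [this]
  rfl

/-! ### windows -/

theorem act_Tm (Q0 Q1 : GMat κ ι G) (l : ℕ) (x : (ι × Fin (l + 1)) × G → ℂ) (k : κ) (i : Fin l)
    (g : G) : act (BC.Tm Q0 Q1 l) x (k, i) g =
      act Q0 (fun q => x ((q.1, i.castSucc), q.2)) k g +
        act Q1 (fun q => x ((q.1, i.succ), q.2)) k g := by
  classical
  unfold act BC.Tm
  rw [Fintype.sum_prod_type, ← Finset.sum_add_distrib]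
  refine Finset.sum_congr rfl fun p _ => ?_
  have h0 : ∀ n : Fin (l + 1), (((if n = i.castSucc then Q0 k p else 0) +
      (if n = i.succ then Q1 k p else 0)).sum fun h c => c * x ((p, n), g * h)) =
      (if n = i.castSucc then (Q0 k p).sum (fun h c => c * x ((p, n), g * h)) else 0) +
      (if n = i.succ then (Q1 k p).sum (fun h c => c * x ((p, n), g * h)) else 0) := by
    intro n
    rw [Finsupp.sum_add_index' (by simp) (by intros; ring)]
    congr 1
    · split_ifs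
      · rfl
      · simp
    · split_ifs
      · rfl
      · simp
  rw [Finset.sum_congr rfl fun n _ => h0 n, Finset.sum_add_distrib, Finset.sum_ite_eq',
    Finset.sum_ite_eq', if_pos (Finset.mem_univ _), if_pos (Finset.mem_univ _)]

theorem coef_Tm {R : Subring ℂ} {Q0 Q1 : GMat κ ι G} (h0 : Coef R Q0) (h1 : Coef R Q1) (l : ℕ) :
    Coef R (BC.Tm Q0 Q1 l) := by
  classical
  intro k p g
  unfold BC.Tm
  rw [Finsupp.add_apply]
  apply R.add_mem
  · split_ifs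
    · exact h0 _ _ _
    · exact R.zero_mem
  · split_ifs
    · exact h1 _ _ _
    · exact R.zero_mem

/-- drop the last entry -/
noncomputable def r0 (l : ℕ) : (Fin (l + 2) → ℂ) →ₗ[ℂ] (Fin (l + 1) → ℂ) :=
  LinearMap.funLeft ℂ ℂ Fin.castSucc

/-- drop the first entry -/
noncomputable def r1 (l : ℕ) : (Fin (l + 2) → ℂ) →ₗ[ℂ] (Fin (l + 1) → ℂ) :=
  LinearMap.funLeft ℂ ℂ Fin.succ

theorem r0_apply (l : ℕ) (φ : Fin (l + 2) → ℂ) (i : Fin (l + 1)) : r0 l φ i = φ i.castSucc := rfl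

theorem r1_apply (l : ℕ) (φ : Fin (l + 2) → ℂ) (i : Fin (l + 1)) : r1 l φ i = φ i.succ := rfl

/-- combination of the two restrictions -/
noncomputable def rr (l : ℕ) (α β : ℂ) : (Fin (l + 2) → ℂ) →ₗ[ℂ] (Fin (l + 1) → ℂ) :=
  α • r0 l + β • r1 l

theorem rr_apply (l : ℕ) (α β : ℂ) (φ : Fin (l + 2) → ℂ) (i : Fin (l + 1)) :
    rr l α β φ i = α * φ i.castSucc + β * φ i.succ := rfl

/-- windows go to windows -/
theorem window (Q0 Q1 : GMat κ ι G) (l : ℕ) (α β : ℂ) (x : L2 ((ι × Fin (l + 2)) × G))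
    (hx : x ∈ kerA (BC.Tm Q0 Q1 (l + 1))) : op (sc ι G (rr l α β)) x ∈ kerA (BC.Tm Q0 Q1 l) := by
  rintro ⟨k, i⟩ g
  rw [act_Tm]
  have e : ∀ n : Fin (l + 1), (fun q : ι × G => op (sc ι G (rr l α β)) x ((q.1, n), q.2)) =
      α • (fun q : ι × G => x ((q.1, n.castSucc), q.2)) +
      β • (fun q : ι × G => x ((q.1, n.succ), q.2)) := by
    intro n
    funext q
    rw [op_sc, rr_apply]
    rfl
  rw [e, e, BC.act_add, BC.act_add, BC.act_smul, BC.act_smul, BC.act_smul, BC.act_smul]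
  have h1 := hx (k, i.castSucc) g
  have h2 := hx (k, i.succ) g
  rw [act_Tm] at h1 h2
  rw [Fin.succ_castSucc] at h1
  rw [Fin.succ_castSucc]
  linear_combination α * h1 + β * h2

/-- geometric windows -/
noncomputable def geo (z : ℂ) (l : ℕ) : Fin (l + 1) → ℂ := fun i => z ^ (i : ℕ)

theorem geo_ne (z : ℂ) (l : ℕ) : geo z l ≠ 0 := by
  intro h
  have := congrFun h 0
  simp [geo] at this

theorem act_pen (Q0 Q1 : GMat κ ι G) (z : ℂ) (x : ι × G → ℂ) (k : κ) (g : G) :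
    act (BC.pen Q0 Q1 z) x k g = act Q0 x k g + z * act Q1 x k g := by
  unfold act BC.pen
  rw [Finset.mul_sum, ← Finset.sum_add_distrib]
  refine Finset.sum_congr rfl fun p _ => ?_
  rw [Finsupp.sum_add_index' (by simp) (by intros; ring), Finsupp.sum_smul_index (by simp)]
  congr 1
  rw [Finsupp.mul_sum]
  refine Finsupp.sum_congr fun h _ => ?_
  ring

theorem act_Tm_tp (Q0 Q1 : GMat κ ι G) (l : ℕ) (ψ : Fin (l + 1) → ℂ) (y : L2 (ι × G)) (k : κ)
    (i : Fin l) (g : G) : act (BC.Tm Q0 Q1 l) (op (tp ι G ψ) y) (k, i) g =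
      ψ i.castSucc * act Q0 y k g + ψ i.succ * act Q1 y k g := by
  rw [act_Tm]
  have e : ∀ n : Fin (l + 1), (fun q : ι × G => op (tp ι G ψ) y ((q.1, n), q.2)) =
      ψ n • (fun q : ι × G => y q) := by
    intro n
    funext q
    rw [op_apply, act_tp]
    rfl
  rw [e, e, BC.act_smul, BC.act_smul]

/-- the dimension of the kernel of the pencil at `z` -/
noncomputable def kz (Q0 Q1 : GMat κ ι G) (z : ℂ) : ℝ := vdim (kerA (BC.pen Q0 Q1 z))

theorem fd_geo (Q0 Q1 : GMat κ ι G) (z : ℂ) (l : ℕ) :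
    fd (BC.Tm Q0 Q1 (l + 1)) (Submodule.span ℂ {geo z (l + 1)}) = kz Q0 Q1 z := by
  rw [fd_span _ (geo_ne z (l + 1))]
  unfold kz
  congr 1
  ext y
  rw [mem_ev_iff, mem_kerA, mem_kerA]
  have key : ∀ (k : κ) (i : Fin (l + 1)) (g : G),
      act (BC.Tm Q0 Q1 (l + 1)) (op (tp ι G (geo z (l + 1))) y) (k, i) g =
        z ^ (i : ℕ) * act (BC.pen Q0 Q1 z) y k g := by
    intro k i g
    rw [act_Tm_tp, act_pen]
    simp only [geo, Fin.val_castSucc, Fin.val_succ]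
    ring
  constructor
  · intro h k g
    have := h (k, 0) g
    rw [key] at this
    simpa using this
  · rintro h ⟨k, i⟩ g
    rw [key, h, mul_zero]

theorem fd_last (Q0 Q1 : GMat κ ι G) (l : ℕ) :
    fd (BC.Tm Q0 Q1 (l + 1)) (Submodule.span ℂ {Pi.single (Fin.last (l + 1)) 1}) =
      vdim (kerA Q1) := by
  have hne : (Pi.single (Fin.last (l + 1)) 1 : Fin (l + 2) → ℂ) ≠ 0 := by
    simp
  rw [fd_span _ hne]
  congr 1
  ext y
  rw [mem_ev_iff, mem_kerA, mem_kerA]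
  constructor
  · intro h k g
    have := h (k, Fin.last l) g
    rw [act_Tm_tp, Fin.succ_last, Pi.single_eq_same, Pi.single_eq_of_ne, zero_mul, zero_add,
      one_mul] at this
    · exact this
    · exact (Fin.castSucc_lt_last (Fin.last l)).ne
  · rintro h ⟨k, i⟩ g
    rw [act_Tm_tp, h, Pi.single_eq_of_ne (Fin.castSucc_lt_last i).ne]
    ring

theorem fd_first (Q0 Q1 : GMat κ ι G) (l : ℕ) :
    fd (BC.Tm Q0 Q1 (l + 1)) (Submodule.span ℂ {Pi.single 0 1}) = vdim (kerA Q0) := by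
  have hne : (Pi.single 0 1 : Fin (l + 2) → ℂ) ≠ 0 := by
    simp
  rw [fd_span _ hne]
  congr 1
  ext y
  rw [mem_ev_iff, mem_kerA, mem_kerA]
  constructor
  · intro h k g
    have := h (k, 0) g
    rw [act_Tm_tp, Fin.castSucc_zero, Pi.single_eq_same, Pi.single_eq_of_ne (Fin.succ_ne_zero _),
      zero_mul, add_zero, one_mul] at this
    exact this
  · rintro h ⟨k, i⟩ g
    rw [act_Tm_tp, h, Pi.single_eq_of_ne (Fin.succ_ne_zero _)]
    ring

/-! ### kernels of the restrictions -/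

theorem ker_r0 (l : ℕ) (φ : Fin (l + 2) → ℂ) (h : r0 l φ = 0) :
    φ ∈ Submodule.span ℂ {(Pi.single (Fin.last (l + 1)) 1 : Fin (l + 2) → ℂ)} := by
  rw [Submodule.mem_span_singleton]
  refine ⟨φ (Fin.last (l + 1)), ?_⟩
  funext i
  refine Fin.lastCases ?_ (fun i => ?_) i
  · simp
  · rw [Pi.smul_apply, Pi.single_eq_of_ne (Fin.castSucc_lt_last i).ne, smul_zero]
    exact (congrFun h i).symm

theorem ker_r1 (l : ℕ) (φ : Fin (l + 2) → ℂ) (h : r1 l φ = 0) :
    φ ∈ Submodule.span ℂ {(Pi.single 0 1 : Fin (l + 2) → ℂ)} := by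
  rw [Submodule.mem_span_singleton]
  refine ⟨φ 0, ?_⟩
  funext i
  refine Fin.cases ?_ (fun i => ?_) i
  · simp
  · rw [Pi.smul_apply, Pi.single_eq_of_ne (Fin.succ_ne_zero _), smul_zero]
    exact (congrFun h i).symm

theorem ker_rr (l : ℕ) (z : ℂ) (φ : Fin (l + 2) → ℂ) (h : rr l (-z) 1 φ = 0) :
    φ = φ 0 • geo z (l + 1) := by
  have h1 : ∀ n : ℕ, ∀ hn : n < l + 2, φ ⟨n, hn⟩ = z ^ n * φ 0 := by
    intro n
    induction n with
    | zero =>
      intro hn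
      rw [pow_zero, one_mul]
      rfl
    | succ n ih =>
      intro hn
      have h2 := congrFun h ⟨n, by omega⟩
      rw [rr_apply] at h2
      have h3 : (⟨n, by omega⟩ : Fin (l + 1)).succ = ⟨n + 1, hn⟩ := rfl
      have h4 : (⟨n, by omega⟩ : Fin (l + 1)).castSucc = ⟨n, by omega⟩ := rfl
      rw [h3, h4, ih (by omega)] at h2
      have h5 : -z * (z ^ n * φ 0) + 1 * φ ⟨n + 1, hn⟩ = 0 := h2
      linear_combination h5
  funext i
  rw [Pi.smul_apply, smul_eq_mul, geo, ← Fin.eta i i.2, h1 i i.2]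
  ring

theorem rr_geo (l : ℕ) (z : ℂ) : rr l (-z) 1 (geo z (l + 1)) = 0 := by
  funext i
  rw [rr_apply]
  simp only [geo, Fin.val_castSucc, Fin.val_succ, Pi.zero_apply]
  ring

theorem r0_geo (l : ℕ) (z : ℂ) : r0 l (geo z (l + 1)) = geo z l := by
  funext i
  rw [r0_apply]
  simp [geo]

theorem rr_one_zero (l : ℕ) : rr l 1 0 = r0 l := by
  unfold rr
  simp

theorem rr_zero_one (l : ℕ) : rr l 0 1 = r1 l := by
  unfold rr
  simp

/-! ### generic dimension is minimal -/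

theorem w_upper (Q0 Q1 : GMat κ ι G) (z : ℂ) (l : ℕ) :
    fd (BC.Tm Q0 Q1 l) ⊤ ≤ Fintype.card ι + l * kz Q0 Q1 z := by
  induction l with
  | zero =>
    have h1 : fd (BC.Tm Q0 Q1 0) ⊤ ≤ (Fintype.card (ι × Fin 1) : ℝ) := vdim_le_card _
    simpa using h1
  | succ l ih =>
    have h1 := fd_rank (BC.Tm Q0 Q1 (l + 1)) (BC.Tm Q0 Q1 l) (rr l (-z) 1) ⊤
      (fun x hx => window Q0 Q1 l _ _ x hx.1)
    have h2 : (⊤ ⊓ LinearMap.ker (rr l (-z) 1) : Submodule ℂ (Fin (l + 2) → ℂ)) ≤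
        Submodule.span ℂ {geo z (l + 1)} := by
      rintro φ ⟨_, hφ⟩
      rw [Submodule.mem_span_singleton]
      exact ⟨φ 0, (ker_rr l z φ hφ).symm⟩
    have h3 := fd_mono (BC.Tm Q0 Q1 (l + 1)) h2
    rw [fd_geo] at h3
    have h4 : fd (BC.Tm Q0 Q1 l) (Submodule.map (rr l (-z) 1) ⊤) ≤ fd (BC.Tm Q0 Q1 l) ⊤ :=
      fd_mono _ le_top
    push_cast
    linarith

theorem geo_not_mem (l : ℕ) (S : Finset ℂ) (hS : S.card ≤ l) (a : ℂ) (ha : a ∉ S) :
    geo a l ∉ Submodule.span ℂ ((fun b => geo b l) '' (S : Set ℂ)) := by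
  classical
  set p : Polynomial ℂ := ∏ b ∈ S, (Polynomial.X - Polynomial.C b) with hp
  have hdeg : p.natDegree = S.card := by
    rw [hp, Polynomial.natDegree_prod_of_monic _ _ (fun b _ => Polynomial.monic_X_sub_C b)]
    simp
  let Λ : (Fin (l + 1) → ℂ) →ₗ[ℂ] ℂ :=
    { toFun := fun φ => ∑ i : Fin (l + 1), p.coeff i * φ i
      map_add' := by
        intro φ ψ
        rw [← Finset.sum_add_distrib]
        refine Finset.sum_congr rfl fun i _ => ?_
        rw [Pi.add_apply]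
        ring
      map_smul' := by
        intro c φ
        rw [RingHom.id_apply, smul_eq_mul, Finset.mul_sum]
        refine Finset.sum_congr rfl fun i _ => ?_
        rw [Pi.smul_apply, smul_eq_mul]
        ring }
  have hΛ : ∀ x : ℂ, Λ (geo x l) = p.eval x := by
    intro x
    rw [Polynomial.eval_eq_sum_range' (n := l + 1) (by omega), Finset.sum_range]
    rfl
  intro hmem
  have h1 : Submodule.span ℂ ((fun b => geo b l) '' (S : Set ℂ)) ≤ LinearMap.ker Λ := by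
    rw [Submodule.span_le]
    rintro _ ⟨b, hb, rfl⟩
    rw [SetLike.mem_coe, LinearMap.mem_ker, hΛ, hp, Polynomial.eval_prod]
    exact Finset.prod_eq_zero hb (by simp)
  have h2 := h1 hmem
  rw [LinearMap.mem_ker, hΛ, hp, Polynomial.eval_prod, Finset.prod_eq_zero_iff] at h2
  obtain ⟨b, hb, h3⟩ := h2
  simp only [Polynomial.eval_sub, Polynomial.eval_X, Polynomial.eval_C, sub_eq_zero] at h3
  exact ha (h3 ▸ hb)

theorem w_lower (Q0 Q1 : GMat κ ι G) (l : ℕ) (S : Finset ℂ) (hS : S.card ≤ l + 2) :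
    ∑ a ∈ S, kz Q0 Q1 a ≤ fd (BC.Tm Q0 Q1 (l + 1))
      (Submodule.span ℂ ((fun b => geo b (l + 1)) '' (S : Set ℂ))) := by
  classical
  induction S using Finset.induction_on with
  | empty => simpa using fd_nonneg _ _
  | insert a S ha ih =>
    rw [Finset.card_insert_of_notMem ha] at hS
    have h1 := ih (by omega)
    rw [Finset.sum_insert ha, Finset.coe_insert, Set.image_insert_eq, Submodule.span_insert]
    set Φ := Submodule.span ℂ ((fun b => geo b (l + 1)) '' (S : Set ℂ)) with hΦ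
    have h2 := fd_super (BC.Tm Q0 Q1 (l + 1)) (Submodule.span ℂ {geo a (l + 1)}) Φ
    have hno : geo a (l + 1) ∉ Φ := geo_not_mem (l + 1) S (by omega) a ha
    have h3 : Submodule.span ℂ {geo a (l + 1)} ⊓ Φ = ⊥ := by
      rw [eq_bot_iff]
      rintro x ⟨hx1, hx2⟩
      rw [SetLike.mem_coe, Submodule.mem_span_singleton] at hx1
      obtain ⟨c, rfl⟩ := hx1
      by_cases hc : c = 0
      · simp [hc]
      · exact absurd ((Φ.smul_mem_iff hc).1 hx2) hno
    rw [h3, fd_bot, fd_geo] at h2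
    linarith

/-- **Semicontinuity**: if the dimension is at least `b0` at infinitely many points, it is at
least `b0` everywhere. -/
theorem semicont (Q0 Q1 : GMat κ ι G) (b0 : ℝ) (hinf : {a : ℂ | b0 ≤ kz Q0 Q1 a}.Infinite)
    (z : ℂ) : b0 ≤ kz Q0 Q1 z := by
  by_contra hno
  push Not at hno
  obtain ⟨l, hl⟩ := exists_nat_gt ((Fintype.card ι : ℝ) / (b0 - kz Q0 Q1 z))
  have h0 : 0 < b0 - kz Q0 Q1 z := sub_pos.2 hno
  rw [div_lt_iff₀ h0] at hl
  obtain ⟨S, hS, hcard⟩ := hinf.exists_subset_card_eq (l + 1)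
  have h1 := w_lower Q0 Q1 l S (by omega)
  have h2 := (h1.trans (fd_mono _ le_top)).trans (w_upper Q0 Q1 z (l + 1))
  have h3 : (S.card : ℝ) * b0 ≤ ∑ a ∈ S, kz Q0 Q1 a := by
    rw [← nsmul_eq_mul]
    exact Finset.card_nsmul_le_sum _ _ _ fun a ha => hS ha
  rw [hcard] at h3
  push_cast at h3 h2
  nlinarith

end Pool.Agent.W656.VA
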