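import Pool.Agent.W656.VA9

/-!
Products and adjoints of matrices over the group algebra.
-/

set_option autoImplicit false
set_option linter.unusedSectionVars false

open scoped InnerProductSpace ENNReal
open Filter Topology

namespace Pool.Agent.W656.VA

open Pool.Agent.H80R2
open Pool.Agent.H80R2.BC (L2 GMat vdim IsTr LInv Equi act kerA dk pt vals TorDiv Coef AtR Generic)
open Pool.Agent.H812R3

variable {ι κ μ G G' : Type} [Group G] [Group G'] [Fintype ι] [Fintype κ] [Fintype μ]

/-- the pairing of a finitely supported function with a function -/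
noncomputable def ls (a : G →₀ ℂ) (y : G → ℂ) : ℂ := a.sum fun h c => c * y h

theorem ls_zero (y : G → ℂ) : ls (0 : G →₀ ℂ) y = 0 := by
  unfold ls
  simp

theorem ls_add (a b : G →₀ ℂ) (y : G → ℂ) : ls (a + b) y = ls a y + ls b y := by
  unfold ls
  rw [Finsupp.sum_add_index' (by simp) (by intros; ring)]

theorem ls_sub (a b : G →₀ ℂ) (y : G → ℂ) : ls (a - b) y = ls a y - ls b y := by
  unfold ls
  rw [Finsupp.sum_sub_index (by intros; ring)]

theorem ls_single (h : G) (c : ℂ) (y : G → ℂ) : ls (Finsupp.single h c) y = c * y h := by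
  unfold ls
  rw [Finsupp.sum_single_index (by simp)]

theorem ls_finset_sum {α : Type} (s : Finset α) (f : α → (G →₀ ℂ)) (y : G → ℂ) :
    ls (∑ i ∈ s, f i) y = ∑ i ∈ s, ls (f i) y := by
  classical
  induction s using Finset.induction_on with
  | empty => simp [ls_zero]
  | insert a s ha ih => rw [Finset.sum_insert ha, Finset.sum_insert ha, ls_add, ih]

theorem ls_sum (a : G →₀ ℂ) (F : G → ℂ → (G' →₀ ℂ)) (y : G' → ℂ) :
    ls (a.sum F) y = a.sum fun h c => ls (F h c) y := by
  unfold Finsupp.sum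
  rw [ls_finset_sum]

theorem ls_smul_right (a : G →₀ ℂ) (c : ℂ) (y : G → ℂ) : ls a (fun g => c * y g) = c * ls a y := by
  unfold ls
  rw [Finsupp.mul_sum]
  refine Finsupp.sum_congr fun h _ => ?_
  ring

theorem ls_finset_right {α : Type} (s : Finset α) (a : G →₀ ℂ) (y : α → G → ℂ) :
    ls a (fun g => ∑ i ∈ s, y i g) = ∑ i ∈ s, ls a (y i) := by
  unfold ls Finsupp.sum
  rw [Finset.sum_comm]
  refine Finset.sum_congr rfl fun h _ => ?_
  exact Finset.mul_sum _ _ _

theorem ls_mapDomain (f : G → G') (a : G →₀ ℂ) (y : G' → ℂ) :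
    ls (a.mapDomain f) y = ls a (fun g => y (f g)) := by
  unfold ls
  rw [Finsupp.sum_mapDomain_index (by simp) (by intros; ring)]

theorem act_eq (A : GMat κ ι G) (x : ι × G → ℂ) (k : κ) (g : G) :
    act A x k g = ∑ i, ls (A k i) (fun h => x (i, g * h)) := rfl

/-- convolution product -/
noncomputable def cv2 (a b : G →₀ ℂ) : G →₀ ℂ :=
  a.sum fun h c => b.sum fun h' c' => Finsupp.single (h * h') (c * c')

theorem ls_cv2 (a b : G →₀ ℂ) (y : G → ℂ) :
    ls (cv2 a b) y = ls a (fun h => ls b (fun h' => y (h * h'))) := by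
  unfold cv2
  rw [ls_sum]
  unfold ls
  refine Finsupp.sum_congr fun h _ => ?_
  have := ls_sum b (fun h' c' => Finsupp.single (h * h') (a h * c')) y
  unfold ls at this
  rw [this, Finsupp.mul_sum]
  refine Finsupp.sum_congr fun h' _ => ?_
  rw [Finsupp.sum_single_index (by simp)]
  ring

/-- product of matrices -/
noncomputable def cm (A : GMat κ ι G) (B : GMat ι μ G) : GMat κ μ G :=
  fun k m => ∑ i, cv2 (A k i) (B i m)

theorem op_cm (A : GMat κ ι G) (B : GMat ι μ G) (x : L2 (μ × G)) :
    op (cm A B) x = op A (op B x) := by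
  ext ⟨k, g⟩
  rw [op_apply, op_apply, act_eq, act_eq]
  unfold cm
  simp only [ls_finset_sum]
  rw [Finset.sum_comm]
  refine Finset.sum_congr rfl fun i _ => ?_
  have : (fun h => (op B x) (i, g * h)) =
      fun h => ∑ m, ls (B i m) (fun h' => x (m, g * h * h')) := by
    funext h
    rw [op_apply, act_eq]
  rw [this, ls_finset_right]
  refine Finset.sum_congr rfl fun m _ => ?_
  rw [ls_cv2]
  simp only [mul_assoc]

/-- the adjoint element -/
noncomputable def st (a : G →₀ ℂ) : G →₀ ℂ :=
  a.sum fun h c => Finsupp.single h⁻¹ ((starRingEnd ℂ) c)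

theorem ls_st (a : G →₀ ℂ) (y : G → ℂ) :
    ls (st a) y = a.sum fun h c => (starRingEnd ℂ) c * y h⁻¹ := by
  unfold st
  rw [ls_sum]
  refine Finsupp.sum_congr fun h _ => ?_
  rw [ls_single]

/-- the adjoint matrix -/
noncomputable def ad (A : GMat κ ι G) : GMat ι κ G := fun i k => st (A k i)

open Classical in
theorem el_de (k : κ) (i : ι) (h : G) (i' : ι) (g : G) :
    el k i h (de (i', g)) = if i' = i then de (k, g * h⁻¹) else 0 := by
  classical
  ext ⟨k', g'⟩
  by_cases hk : k' = k
  · subst hk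
    rw [el_self]
    by_cases hi : i' = i
    · subst hi
      rw [if_pos rfl]
      by_cases hg : g' = g * h⁻¹
      · subst hg
        rw [de_apply_self, inv_mul_cancel_right, de_apply_self]
      · rw [de_apply_ne, de_apply_ne]
        · intro h1
          exact hg (Prod.ext_iff.1 h1).2
        · intro h1
          have h2 : g' * h = g := (Prod.ext_iff.1 h1).2
          exact hg (by rw [← h2, mul_inv_cancel_right])
    · rw [if_neg hi, de_apply_ne]
      · rfl
      · intro h1
        exact hi (Prod.ext_iff.1 h1).1.symm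
  · rw [el_ne _ _ hk]
    split_ifs
    · rw [de_apply_ne]
      intro h1
      exact hk (Prod.ext_iff.1 h1).1
    · rfl

theorem adj_el (k : κ) (i : ι) (h : G) :
    ContinuousLinearMap.adjoint (el k i h : L2 (ι × G) →L[ℂ] L2 (κ × G)) = el i k h⁻¹ := by
  classical
  ext x ⟨i', g⟩
  rw [← inner_de (i', g), ContinuousLinearMap.adjoint_inner_right, el_de]
  split_ifs with hi
  · subst hi
    rw [inner_de, el_self]
  · rw [inner_zero_left, el_ne _ _ hi]

theorem op_ad (A : GMat κ ι G) : op (ad A) = ContinuousLinearMap.adjoint (op A) := by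
  classical
  unfold op
  rw [map_sum, Finset.sum_comm]
  refine Finset.sum_congr rfl fun k _ => ?_
  rw [map_sum]
  refine Finset.sum_congr rfl fun i _ => ?_
  unfold ad st
  rw [Finsupp.sum_sum_index (by intro; simp) (by intro a b c; rw [add_smul])]
  conv_rhs => rw [Finsupp.sum, map_sum]
  conv_lhs => rw [Finsupp.sum]
  refine Finset.sum_congr rfl fun h _ => ?_
  rw [Finsupp.sum_single_index (by simp)]
  ext x
  rw [map_smulₛₗ, adj_el]

theorem coef_cv2 {R : Subring ℂ} {a b : G →₀ ℂ} (ha : ∀ g, a g ∈ R) (hb : ∀ g, b g ∈ R) (g : G) :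
    cv2 a b g ∈ R := by
  classical
  unfold cv2 Finsupp.sum
  rw [Finsupp.finsetSum_apply]
  refine Subring.sum_mem _ fun h _ => ?_
  rw [Finsupp.finsetSum_apply]
  refine Subring.sum_mem _ fun h' _ => ?_
  exact coef_single _ _ (R.mul_mem (ha _) (hb _)) _

theorem coef_cm {R : Subring ℂ} {A : GMat κ ι G} {B : GMat ι μ G} (hA : Coef R A)
    (hB : Coef R B) : Coef R (cm A B) := by
  intro k m g
  unfold cm
  rw [Finsupp.finsetSum_apply]
  exact Subring.sum_mem _ fun i _ => coef_cv2 (hA k i) (hB i m) g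

theorem coef_ad {R : Subring ℂ} (hR : ∀ z ∈ R, (starRingEnd ℂ) z ∈ R) {A : GMat κ ι G}
    (hA : Coef R A) : Coef R (ad A) := by
  intro i k g
  unfold ad st Finsupp.sum
  rw [Finsupp.finsetSum_apply]
  exact Subring.sum_mem _ fun h _ => coef_single _ _ (hR _ (hA _ _ _)) _

theorem kerA_ad_mul (A : GMat κ ι G) : kerA (cm (ad A) A) = kerA A := by
  rw [kerA_eq, kerA_eq]
  ext x
  rw [mem_kr, mem_kr, op_cm, op_ad]
  constructor
  · intro h
    have h1 : ⟪ContinuousLinearMap.adjoint (op A) (op A x), x⟫_ℂ = 0 := by rw [h, inner_zero_left]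
    rw [ContinuousLinearMap.adjoint_inner_left] at h1
    exact inner_self_eq_zero.1 h1
  · intro h
    rw [h, map_zero]

end Pool.Agent.W656.VA
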