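import Pool.Agent.W656.VC1

/-!
Kernel dimensions of single elements of group rings: products and coproducts.
-/

set_option autoImplicit false
set_option linter.unusedSectionVars false

open scoped InnerProductSpace ENNReal
open Filter Topology

namespace Pool.Agent.W656.VA

open Pool.Agent.H80R2
open Pool.Agent.H80R2.BC (L2 GMat vdim IsTr LInv Equi act kerA dk pt vals TorDiv Coef AtR Generic)
open Pool.Agent.H812R3

section comm
variable {ι G : Type} [Group G] [Fintype ι]

/-- the dimension of the kernel of a product of two operators commuting with each other and with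
the adjoints -/
theorem vdim_comm_mul (S T : L2 (ι × G) →L[ℂ] L2 (ι × G))
    (h1 : ∀ x, S (T x) = T (S x))
    (h2 : ∀ x, S (ContinuousLinearMap.adjoint T x) = ContinuousLinearMap.adjoint T (S x)) :
    vdim (kr (S.comp T)) = vdim (kr S) + vdim (kr T) - vdim (kr S ⊓ kr T) := by
  have iA := hasProj (isClosed_kr S)
  have hAE : kr S ≤ kr (S.comp T) := by
    intro x hx
    rw [mem_kr] at hx ⊢
    rw [ContinuousLinearMap.comp_apply, h1, hx, map_zero]
  have e1 := vdim_diff (isClosed_kr S) (isClosed_kr (S.comp T)) hAE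
  have e2 := vdim_diff (isClosed_inf (isClosed_kr S) (isClosed_kr T)) (isClosed_kr T)
    (inf_le_right : kr S ⊓ kr T ≤ kr T)
  have hTP : ∀ x, T ((kr S).starProjection x) = (kr S).starProjection (T x) := by
    intro x
    apply Eq.symm
    apply Submodule.eq_starProjection_of_mem_of_inner_eq_zero
    · have h3 : (kr S).starProjection x ∈ kr S := Submodule.starProjection_apply_mem _ _
      rw [mem_kr] at h3 ⊢
      rw [h1, h3, map_zero]
    · intro w hw
      rw [← map_sub, ← ContinuousLinearMap.adjoint_inner_right]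
      apply Submodule.starProjection_inner_eq_zero
      rw [mem_kr] at hw ⊢
      rw [h2, hw, map_zero]
  have e3 : kr (S.comp T) ⊓ (kr S)ᗮ = kr T ⊓ (kr S ⊓ kr T)ᗮ := by
    apply le_antisymm
    · rintro x ⟨hx1, hx2⟩
      have hx3 : T x ∈ kr S := hx1
      have hx4 : (kr S).starProjection x = 0 :=
        (Submodule.starProjection_apply_eq_zero_iff _).2 hx2
      have hx5 : T x = 0 := by
        rw [← Submodule.starProjection_eq_self_iff.2 hx3, ← hTP, hx4, map_zero]
      refine ⟨(mem_kr _ _).2 hx5, ?_⟩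
      exact Submodule.orthogonal_le inf_le_left hx2
    · rintro x ⟨hx1, hx2⟩
      have hx3 : T x = 0 := (mem_kr T x).1 hx1
      refine ⟨?_, ?_⟩
      · show x ∈ kr (S.comp T)
        rw [mem_kr, ContinuousLinearMap.comp_apply, hx3, map_zero]
      · have h3 : (kr S).starProjection x ∈ kr S ⊓ kr T := by
          refine ⟨Submodule.starProjection_apply_mem _ _, ?_⟩
          show (kr S).starProjection x ∈ kr T
          rw [mem_kr, hTP, hx3, map_zero]
        have h4 : ⟪(kr S).starProjection x, x⟫_ℂ = 0 := hx2 _ h3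
        have h5 : (kr S).starProjection x = 0 := by
          have h6 : ⟪(kr S).starProjection x, (kr S).starProjection x⟫_ℂ = 0 := by
            rw [Submodule.inner_starProjection_left_eq_right,
              Submodule.starProjection_eq_self_iff.2 (Submodule.starProjection_apply_mem _ _)]
            rw [← inner_conj_symm, h4, map_zero]
          exact inner_self_eq_zero.1 h6
        exact (Submodule.starProjection_apply_eq_zero_iff _).1 h5
  rw [e3] at e1
  linarith

end comm

variable {G H : Type} [Group G] [Group H]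

/-- the matrix with one entry -/
def m1 (a : G →₀ ℂ) : GMat Unit Unit G := fun _ _ => a

theorem m1_eta (A : GMat Unit Unit G) : A = m1 (A () ()) := rfl

/-- the two matrices over the product -/
noncomputable def pa (H : Type) [Group H] (a : G →₀ ℂ) : GMat Unit Unit (G × H) :=
  BC.push (MonoidHom.inl G H) (m1 a)

noncomputable def pb (G : Type) [Group G] (b : H →₀ ℂ) : GMat Unit Unit (G × H) :=
  BC.push (MonoidHom.inr G H) (m1 b)

theorem vdim_pa (a : G →₀ ℂ) : vdim (kerA (pa H a)) = vdim (kerA (m1 a)) :=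
  vdim_push _ (fun _ _ h => (Prod.ext_iff.1 h).1) _

theorem vdim_pb (b : H →₀ ℂ) : vdim (kerA (pb G b)) = vdim (kerA (m1 b)) :=
  vdim_push _ (fun _ _ h => (Prod.ext_iff.1 h).2) _

/-- reindexing -/
def eU : (Unit ⊕ Unit) ≃ ((Unit × Unit) ⊕ (Unit × Unit)) where
  toFun := Sum.map (fun _ => ((), ())) (fun _ => ((), ()))
  invFun := Sum.map (fun _ => ()) (fun _ => ())
  left_inv := by rintro (x | x) <;> rfl
  right_inv := by rintro (x | x) <;> rfl

def fU : Unit ≃ Unit × Unit where
  toFun _ := ((), ())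
  invFun _ := ()
  left_inv _ := rfl
  right_inv _ := rfl

theorem ri_ext (a : G →₀ ℂ) (b : H →₀ ℂ) :
    ri eU fU (BC.ext (m1 a) (m1 b)) = BC.stack (pa H a) (pb G b) := by
  classical
  funext k i
  rcases k with k | k
  · show BC.ext (m1 a) (m1 b) (Sum.inl ((), ())) ((), ()) = (a.mapDomain (MonoidHom.inl G H))
    unfold BC.ext
    simp only [Sum.elim_inl, if_true]
    rfl
  · show BC.ext (m1 a) (m1 b) (Sum.inr ((), ())) ((), ()) = (b.mapDomain (MonoidHom.inr G H))
    unfold BC.ext
    simp only [Sum.elim_inr, if_true]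
    rfl

theorem vdim_inf (a : G →₀ ℂ) (b : H →₀ ℂ) :
    vdim (kerA (pa H a) ⊓ kerA (pb G b)) = vdim (kerA (m1 a)) * vdim (kerA (m1 b)) := by
  rw [← kerA_stack, ← ri_ext, vdim_ri, vdim_ext]

theorem cv2_comm (a : G →₀ ℂ) (b : H →₀ ℂ) :
    cv2 (a.mapDomain (MonoidHom.inl G H)) (b.mapDomain (MonoidHom.inr G H)) =
      cv2 (b.mapDomain (MonoidHom.inr G H)) (a.mapDomain (MonoidHom.inl G H)) := by
  have key : ∀ (a : (G × H) →₀ ℂ) (b : (G × H) →₀ ℂ), cv2 a b =
    a.sum fun h c => b.sum fun h' c' => Finsupp.single (h * h') (c * c') := fun _ _ => rfl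
  have z1 : ∀ (b : H →₀ ℂ) (g : G × H) (c : ℂ),
      ((b.mapDomain (MonoidHom.inr G H)).sum fun h' c' =>
        (Finsupp.single (g * h') (c * c') : (G × H) →₀ ℂ))
        = b.sum fun h' c' => Finsupp.single (g * ((1 : G), h')) (c * c') := by
    intro b g c
    rw [Finsupp.sum_mapDomain_index (by simp) (by intros; rw [mul_add, Finsupp.single_add])]
    rfl
  have z2 : ∀ (a : G →₀ ℂ) (g : G × H) (c : ℂ),
      ((a.mapDomain (MonoidHom.inl G H)).sum fun h' c' =>
        (Finsupp.single (g * h') (c * c') : (G × H) →₀ ℂ))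
        = a.sum fun h' c' => Finsupp.single (g * (h', (1 : H))) (c * c') := by
    intro b g c
    rw [Finsupp.sum_mapDomain_index (by simp) (by intros; rw [mul_add, Finsupp.single_add])]
    rfl
  rw [key, key]
  simp only [z1, z2]
  rw [Finsupp.sum_mapDomain_index (by intro; simp) (by
      intro m b₁ b₂
      rw [← Finsupp.sum_add]
      refine Finsupp.sum_congr fun h _ => ?_
      rw [add_mul, Finsupp.single_add]),
    Finsupp.sum_mapDomain_index (by intro; simp) (by
      intro m b₁ b₂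
      rw [← Finsupp.sum_add]
      refine Finsupp.sum_congr fun h _ => ?_
      rw [add_mul, Finsupp.single_add]), Finsupp.sum_comm]
  refine Finsupp.sum_congr fun h _ => Finsupp.sum_congr fun h' _ => ?_
  rw [mul_comm (a h')]
  congr 1
  ext
  · simp
  · simp

theorem cm_comm (a : G →₀ ℂ) (b : H →₀ ℂ) : cm (pa H a) (pb G b) = cm (pb G b) (pa H a) := by
  funext k m
  unfold cm
  rw [Fintype.sum_unique, Fintype.sum_unique]
  exact cv2_comm a b

theorem st_mapDomain (f : G →* H) (a : G →₀ ℂ) : st (a.mapDomain f) = (st a).mapDomain f := by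
  unfold st
  rw [Finsupp.sum_mapDomain_index (by simp) (by intros; rw [map_add, Finsupp.single_add])]
  unfold Finsupp.sum
  rw [Finsupp.mapDomain_finsetSum]
  refine Finset.sum_congr rfl fun h _ => ?_
  rw [Finsupp.mapDomain_single, map_inv]

theorem ad_pb (b : H →₀ ℂ) : ad (pb G b) = pb G (st b) := by
  funext i k
  exact st_mapDomain (MonoidHom.inr G H) b

theorem vdim_mul_elt (a : G →₀ ℂ) (b : H →₀ ℂ) :
    vdim (kerA (cm (pa H a) (pb G b))) = vdim (kerA (m1 a)) + vdim (kerA (m1 b)) -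
      vdim (kerA (m1 a)) * vdim (kerA (m1 b)) := by
  have e0 : kr (op (cm (pa H a) (pb G b))) = kr ((op (pa H a)).comp (op (pb G b))) := by
    ext x
    rw [mem_kr, mem_kr, op_cm]
    rfl
  rw [kerA_eq, e0, vdim_comm_mul (op (pa H a)) (op (pb G b))]
  · rw [← kerA_eq, ← kerA_eq, vdim_inf, vdim_pa, vdim_pb]
  · intro x
    rw [← op_cm, ← op_cm, cm_comm]
  · intro x
    rw [← op_ad, ad_pb, ← op_cm, ← op_cm, cm_comm]

/-- the values of kernel dimensions of single elements -/
def EV (R : Subring ℂ) (G : Type) [Group G] (v : ℝ) : Prop :=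
  ∃ a : G →₀ ℂ, (∀ g, a g ∈ R) ∧ vdim (kerA (m1 a)) = v

theorem coef_pa {R : Subring ℂ} {a : G →₀ ℂ} (ha : ∀ g, a g ∈ R) : Coef R (pa H a) :=
  coef_push _ _ fun _ _ g => ha g

theorem coef_pb {R : Subring ℂ} {b : H →₀ ℂ} (hb : ∀ g, b g ∈ R) : Coef R (pb G b) :=
  coef_push _ _ fun _ _ g => hb g

theorem ev_mul {R : Subring ℂ} (hR : ∀ z ∈ R, (starRingEnd ℂ) z ∈ R) {v w : ℝ}
    (hv : EV R G v) (hw : EV R H w) : EV R (G × H) (v * w) := by
  obtain ⟨a, ha, rfl⟩ := hv
  obtain ⟨b, hb, rfl⟩ := hw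
  have hc : Coef R (BC.stack (pa H a) (pb G b)) := coef_stack (coef_pa ha) (coef_pb hb)
  refine ⟨cm (ad (BC.stack (pa H a) (pb G b))) (BC.stack (pa H a) (pb G b)) () (), fun g =>
    coef_cm (coef_ad hR hc) hc () () g, ?_⟩
  rw [← m1_eta, kerA_ad_mul, kerA_stack, vdim_inf]

theorem ev_comul {R : Subring ℂ} {v w : ℝ}
    (hv : EV R G v) (hw : EV R H w) : EV R (G × H) (v + w - v * w) := by
  obtain ⟨a, ha, rfl⟩ := hv
  obtain ⟨b, hb, rfl⟩ := hw
  refine ⟨cm (pa H a) (pb G b) () (), fun g => coef_cm (coef_pa ha) (coef_pb hb) () () g, ?_⟩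
  rw [← m1_eta, vdim_mul_elt]

theorem ev_incl {R : Subring ℂ} {v : ℝ} (f : G →* H) (hf : Function.Injective f)
    (hv : EV R G v) : EV R H v := by
  obtain ⟨a, ha, rfl⟩ := hv
  refine ⟨BC.push f (m1 a) () (), fun g => coef_push f (m1 a) (fun _ _ g => ha g) () () g, ?_⟩
  rw [← m1_eta, vdim_push f hf]

theorem ev_bounds {R : Subring ℂ} {v : ℝ} (hv : EV R G v) : 0 ≤ v ∧ v ≤ 1 := by
  obtain ⟨a, _, rfl⟩ := hv
  refine ⟨vdim_nonneg _, ?_⟩
  have := vdim_le_card (kerA (m1 a))
  simpa using this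

end Pool.Agent.W656.VA
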