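import Mathlib

/-!
The wedge trick: a zero divisor over `ℂ` gives a zero divisor over `ℤ` for a power of the group.
-/

set_option autoImplicit false
set_option linter.unusedSectionVars false

open Finset

namespace Pool.Agent.W656.VA

/-- product function -/
def pf {k : ℕ} {G : Type} (f : G → ℂ) (g : Fin k → G) : ℂ := ∏ j, f (g j)

theorem summable_pf {k : ℕ} {G : Type} (f : G → ℂ) (hf : Summable fun g => ‖f g‖ ^ 2) :
    Summable fun g : Fin k → G => ‖pf f g‖ ^ 2 := by
  classical
  refine summable_of_sum_le (c := (∑' g, ‖f g‖ ^ 2) ^ k) (fun _ => by positivity) ?_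
  intro S
  set T : Finset G := Finset.univ.biUnion fun j : Fin k => S.image fun g => g j
  have hS : S ⊆ Fintype.piFinset fun _ : Fin k => T := by
    intro g hg
    rw [Fintype.mem_piFinset]
    intro j
    exact Finset.mem_biUnion.2 ⟨j, Finset.mem_univ _, Finset.mem_image.2 ⟨g, hg, rfl⟩⟩
  calc ∑ g ∈ S, ‖pf f g‖ ^ 2 ≤ ∑ g ∈ Fintype.piFinset (fun _ : Fin k => T), ‖pf f g‖ ^ 2 :=
        Finset.sum_le_sum_of_subset_of_nonneg hS (fun _ _ _ => by positivity)
    _ = ∏ _j : Fin k, ∑ g ∈ T, ‖f g‖ ^ 2 := by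
        rw [Finset.prod_univ_sum]
        refine Finset.sum_congr rfl fun g _ => ?_
        unfold pf
        rw [norm_prod, Finset.prod_pow]
    _ ≤ (∑' g, ‖f g‖ ^ 2) ^ k := by
        rw [Finset.prod_const, Finset.card_univ, Fintype.card_fin]
        exact pow_le_pow_left₀ (Finset.sum_nonneg fun _ _ => by positivity)
          (hf.sum_le_tsum T (fun _ _ => by positivity)) k

section wd
variable {G : Type} [Group G] {k : ℕ}

open Classical in
/-- the wedge product of the functions `a i` -/
noncomputable def wd (T : Finset G) (a : Fin k → G → ℂ) (ha : ∀ i g, g ∉ T → a i g = 0) :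
    (Fin k → G) →₀ ℂ :=
  Finsupp.onFinset (Fintype.piFinset fun _ => T)
    (fun h => Matrix.det (Matrix.of fun i j => a i (h j))) (by
      intro h hh
      rw [Fintype.mem_piFinset]
      intro j
      by_contra hj
      apply hh
      apply Matrix.det_eq_zero_of_column_eq_zero j
      intro i
      exact ha i _ hj)

theorem wd_apply (T : Finset G) (a : Fin k → G → ℂ) (ha : ∀ i g, g ∉ T → a i g = 0)
    (h : Fin k → G) : wd T a ha h = Matrix.det (Matrix.of fun i j => a i (h j)) := rfl

theorem conv_wd (T : Finset G) (a : Fin k → G → ℂ) (ha : ∀ i g, g ∉ T → a i g = 0)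
    (f : G → ℂ) (g : Fin k → G) :
    (wd T a ha).sum (fun h c => c * pf f (h⁻¹ * g)) =
      Matrix.det (Matrix.of fun i j => ∑ u ∈ T, a i u * f (u⁻¹ * g j)) := by
  classical
  unfold wd
  rw [Finsupp.onFinset_sum _ (by intro; rw [zero_mul]), Matrix.det_apply']
  simp only [Matrix.of_apply]
  have h1 : ∀ σ : Equiv.Perm (Fin k), ∏ i, ∑ u ∈ T, a (σ i) u * f (u⁻¹ * g i)
      = ∑ h ∈ Fintype.piFinset (fun _ : Fin k => T), (∏ i, a (σ i) (h i)) * pf f (h⁻¹ * g) := by
    intro σ
    rw [Finset.prod_univ_sum]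
    refine Finset.sum_congr rfl fun h _ => ?_
    rw [Finset.prod_mul_distrib]
    rfl
  simp only [h1]
  simp only [Finset.mul_sum]
  rw [Finset.sum_comm]
  refine Finset.sum_congr rfl fun h _ => ?_
  rw [Matrix.det_apply', Finset.sum_mul]
  refine Finset.sum_congr rfl fun σ _ => ?_
  rw [mul_assoc]
  rfl

end wd

theorem wedge {G : Type} [Group G] (α : G →₀ ℂ) (hα : α ≠ 0) (f : G → ℂ)
    (hf : Summable fun g => ‖f g‖ ^ 2) (hf0 : f ≠ 0)
    (h : ∀ g, α.sum (fun h c => c * f (h⁻¹ * g)) = 0) :
    ∃ (k : ℕ) (D : (Fin k → G) →₀ ℂ), (∀ h, ∃ n : ℤ, D h = n) ∧ D ≠ 0 ∧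
      ∃ F : (Fin k → G) → ℂ, (Summable fun g => ‖F g‖ ^ 2) ∧ F ≠ 0 ∧
        ∀ g, D.sum (fun h c => c * F (h⁻¹ * g)) = 0 := by
  classical
  set S : Finset ℂ := α.support.image α with hS
  set V : Submodule ℤ ℂ := Submodule.span ℤ (S : Set ℂ) with hV
  have hfin : Module.Finite ℤ V := Module.Finite.iff_fg.2 (Submodule.fg_span S.finite_toSet)
  have hfree : Module.Free ℤ V := inferInstance
  set k := Module.finrank ℤ V with hk
  set b : Module.Basis (Fin k) ℤ V := Module.finBasis ℤ V with hb
  have hmem : ∀ g, α g ∈ V := by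
    intro g
    by_cases hg : g ∈ α.support
    · exact Submodule.subset_span (Finset.mem_image_of_mem _ hg)
    · rw [Finsupp.notMem_support_iff.1 hg]
      exact V.zero_mem
  set a : Fin k → G → ℂ := fun i g => ((b.repr ⟨α g, hmem g⟩ i : ℤ) : ℂ) with ha
  have ha0 : ∀ i g, g ∉ α.support → a i g = 0 := by
    intro i g hg
    have : (⟨α g, hmem g⟩ : V) = 0 := Subtype.ext (Finsupp.notMem_support_iff.1 hg)
    rw [ha]
    simp only [this, map_zero]
    simp
  have hrepr : ∀ x : V, (x : ℂ) = ∑ i, (b i : ℂ) * ((b.repr x i : ℤ) : ℂ) := by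
    intro x
    conv_lhs => rw [← b.sum_repr x]
    rw [Submodule.coe_sum]
    refine Finset.sum_congr rfl fun i _ => ?_
    rw [Submodule.coe_smul, zsmul_eq_mul, mul_comm]
  have hsum : ∀ g, α g = ∑ i, (b i : ℂ) * a i g := fun g => hrepr ⟨α g, hmem g⟩
  refine ⟨k, wd α.support a ha0, ?_, ?_, pf f, summable_pf f hf, ?_, ?_⟩
  · intro h
    refine ⟨Matrix.det (Matrix.of fun i j => b.repr ⟨α (h j), hmem (h j)⟩ i), ?_⟩
    exact (RingHom.map_det (Int.castRingHom ℂ)
      (Matrix.of fun i j => b.repr ⟨α (h j), hmem (h j)⟩ i)).symm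
  · -- the wedge is nonzero
    set w : G → (Fin k → ℂ) := fun g i => a i g with hw
    have hL : ∀ x (hx : x ∈ V), (fun i => ((b.repr ⟨x, hx⟩ i : ℤ) : ℂ)) ∈
        Submodule.span ℂ (Set.range w) := by
      intro x hx
      refine Submodule.span_induction (p := fun x hx => (fun i => ((b.repr ⟨x, hx⟩ i : ℤ) : ℂ)) ∈
        Submodule.span ℂ (Set.range w)) ?_ ?_ ?_ ?_ hx
      · intro x hx
        obtain ⟨g, _, rfl⟩ := Finset.mem_image.1 (Finset.mem_coe.1 hx)
        exact Submodule.subset_span ⟨g, rfl⟩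
      · have : (⟨0, V.zero_mem⟩ : V) = 0 := rfl
        simp only [this, map_zero]
        convert Submodule.zero_mem (Submodule.span ℂ (Set.range w)) using 1
        funext i
        simp
      · intro x y hx hy h1 h2
        have : (⟨x + y, V.add_mem hx hy⟩ : V) = ⟨x, hx⟩ + ⟨y, hy⟩ := rfl
        convert Submodule.add_mem _ h1 h2 using 1
        funext i
        show ((b.repr (⟨x + y, _⟩ : V) i : ℤ) : ℂ) = _
        rw [this, map_add]
        simp
      · intro n x hx h1
        have : (⟨n • x, V.smul_mem n hx⟩ : V) = n • ⟨x, hx⟩ := rfl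
        convert Submodule.smul_mem _ (n : ℂ) h1 using 1
        funext i
        show ((b.repr (⟨n • x, _⟩ : V) i : ℤ) : ℂ) = _
        rw [this, map_smul]
        simp
    have htop : Submodule.span ℂ (Set.range w) = ⊤ := by
      rw [eq_top_iff, ← (Pi.basisFun ℂ (Fin k)).span_eq, Submodule.span_le]
      rintro _ ⟨i, rfl⟩
      have h1 := hL (b i) (b i).2
      have h2 : (fun j => ((b.repr ⟨(b i : ℂ), (b i).2⟩ j : ℤ) : ℂ)) = Pi.basisFun ℂ (Fin k) i := by
        funext j
        have : (⟨(b i : ℂ), (b i).2⟩ : V) = b i := rfl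
        rw [this, b.repr_self, Pi.basisFun_apply, Finsupp.single_apply, Pi.single_apply]
        by_cases hij : i = j
        · simp [hij]
        · rw [if_neg hij, if_neg (fun h => hij h.symm)]
          simp
      rw [h2] at h1
      exact h1
    obtain ⟨F, hF1, _, hF3⟩ := Submodule.exists_fun_fin_finrank_span_eq ℂ (Set.range w)
    have e : Module.finrank ℂ (Submodule.span ℂ (Set.range w)) = k := by
      rw [htop, finrank_top, Module.finrank_fin_fun]
    choose q hq using hF1
    intro h0
    set hh : Fin k → G := fun j => q (Fin.cast e.symm j) with hhh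
    have h1 : LinearIndependent ℂ (fun j : Fin k => w (hh j)) := by
      have h2 := hF3.comp (Fin.cast e.symm) (Fin.cast_injective _)
      have h3 : (fun j : Fin k => w (hh j)) = F ∘ Fin.cast e.symm := funext fun j => hq _
      rw [h3]
      exact h2
    have h2 : IsUnit (Matrix.of fun j i => a i (hh j) : Matrix (Fin k) (Fin k) ℂ) :=
      Matrix.linearIndependent_rows_iff_isUnit.1 h1
    have h3 := (Matrix.isUnit_iff_isUnit_det _).1 h2
    have h4 := DFunLike.congr_fun h0 hh
    rw [wd_apply, Finsupp.coe_zero, Pi.zero_apply] at h4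
    have h5 : (Matrix.of fun j i => a i (hh j) : Matrix (Fin k) (Fin k) ℂ).det = 0 := by
      rw [← Matrix.det_transpose]
      exact h4
    rw [h5] at h3
    exact not_isUnit_zero h3
  · intro h0
    obtain ⟨g, hg⟩ := Function.ne_iff.1 hf0
    have := congrFun h0 (fun _ => g)
    unfold pf at this
    rw [Finset.prod_const, Pi.zero_apply] at this
    exact hg (eq_zero_of_pow_eq_zero this)
  · intro g
    rw [conv_wd]
    apply Matrix.exists_vecMul_eq_zero_iff.1
    refine ⟨fun i => (b i : ℂ), ?_, ?_⟩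
    · intro h0
      apply hα
      ext x
      rw [hsum x, Finsupp.coe_zero, Pi.zero_apply]
      refine Finset.sum_eq_zero fun i _ => ?_
      have := congrFun h0 i
      simp only [Pi.zero_apply] at this
      rw [this, zero_mul]
    · funext j
      rw [Pi.zero_apply, Matrix.vecMul, dotProduct]
      simp only [Matrix.of_apply, Finset.mul_sum]
      rw [Finset.sum_comm, ← h (g j), Finsupp.sum]
      refine Finset.sum_congr rfl fun u _ => ?_
      rw [hsum u, Finset.sum_mul]
      refine Finset.sum_congr rfl fun i _ => ?_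
      ring

end Pool.Agent.W656.VA
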