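import Pool.Agent.W656.VC2
import Pool.Agent.W656.VC3

/-!
The analytic zero divisor conjecture for classes of groups: all or nothing, base change.
-/

set_option autoImplicit false
set_option linter.unusedSectionVars false

open scoped InnerProductSpace ENNReal
open Filter Topology

namespace Pool.Agent.W656.VA

open Pool.Agent.H80R2
open Pool.Agent.H80R2.BC (L2 GMat vdim IsTr LInv Equi act kerA dk pt vals TorDiv Coef AtR Generic)
open Pool.Agent.H812R3

section J
variable {ι G : Type} [Group G]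

theorem inj_inv : Function.Injective (fun p : ι × G => (p.1, p.2⁻¹)) := by
  rintro ⟨a, b⟩ ⟨c, d⟩ h
  simpa using h

/-- inversion on the group coordinate -/
noncomputable def Jv (ι G : Type) [Group G] : L2 (ι × G) →L[ℂ] L2 (ι × G) :=
  KP.pull (fun p => (p.1, p.2⁻¹)) inj_inv

theorem Jv_apply (x : L2 (ι × G)) (i : ι) (g : G) : Jv ι G x (i, g) = x (i, g⁻¹) := rfl

theorem Jv_Jv (x : L2 (ι × G)) : Jv ι G (Jv ι G x) = x := by
  ext ⟨i, g⟩
  rw [Jv_apply, Jv_apply, inv_inv]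

theorem norm_Jv (x : L2 (ι × G)) : ‖Jv ι G x‖ = ‖x‖ := by
  have h1 : ∀ y : L2 (ι × G), ‖Jv ι G y‖ ≤ ‖y‖ := by
    intro y
    have h2 := (Jv ι G).le_opNorm y
    have h3 : ‖Jv ι G‖ ≤ 1 := KP.norm_pull_le _ _
    nlinarith [norm_nonneg y]
  apply le_antisymm (h1 x)
  conv_lhs => rw [← Jv_Jv x]
  exact h1 _

theorem isometry_Jv : Isometry (Jv ι G) := AddMonoidHomClass.isometry_of_norm _ norm_Jv

theorem Jv_dl (i : ι) : Jv ι G (BC.dl G i) = BC.dl G i := by
  rw [dl_eq]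
  ext ⟨j, g⟩
  rw [Jv_apply]
  by_cases h : (j, g) = (i, (1 : G))
  · have h1 : g = 1 := (Prod.ext_iff.1 h).2
    subst h1
    rw [inv_one]
  · rw [de_apply_ne h, de_apply_ne]
    intro h2
    apply h
    obtain ⟨h3, h4⟩ := Prod.ext_iff.1 h2
    exact Prod.ext h3 (inv_eq_one.1 h4)

end J

section fmt
variable {G : Type} [Group G]

/-- the kernel of left multiplication by a matrix over the group algebra -/
def krn {m n : ℕ} (A : Matrix (Fin m) (Fin n) (G →₀ ℂ)) :
    Set (lp (fun _ : Fin n × G => ℂ) 2) :=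
  {x | ∀ (i : Fin m) (g : G), ∑ j : Fin n, (A i j).sum (fun h c => c * x (j, h⁻¹ * g)) = 0}

open Classical in
/-- its rank -/
noncomputable def rnk {m n : ℕ} (A : Matrix (Fin m) (Fin n) (G →₀ ℂ)) : ℝ :=
  ∑ j : Fin n, (Metric.infDist
    (lp.single 2 (j, (1 : G)) (1 : ℂ) : lp (fun _ : Fin n × G => ℂ) 2) (krn A)) ^ 2

/-- the same matrix -/
def tg {m n : ℕ} (A : Matrix (Fin m) (Fin n) (G →₀ ℂ)) : GMat (Fin m) (Fin n) G :=
  fun i j => A i j

theorem mem_krn {m n : ℕ} (A : Matrix (Fin m) (Fin n) (G →₀ ℂ)) (x : L2 (Fin n × G)) :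
    x ∈ krn A ↔ Jv _ G x ∈ kerA (tg A) := by
  rw [mem_kerA]
  have h1 : ∀ k g, act (tg A) (Jv _ G x) k g =
      ∑ j : Fin n, (A k j).sum (fun h c => c * x (j, h⁻¹ * g⁻¹)) := by
    intro k g
    unfold act
    refine Finset.sum_congr rfl fun i _ => Finsupp.sum_congr fun h _ => ?_
    rw [Jv_apply, mul_inv_rev]
  constructor
  · intro h k g
    rw [h1]
    exact h k g⁻¹
  · intro h k g
    have := h k g⁻¹
    rw [h1, inv_inv] at this
    exact this

theorem krn_eq {m n : ℕ} (A : Matrix (Fin m) (Fin n) (G →₀ ℂ)) :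
    krn A = Jv _ G '' (kerA (tg A) : Set (L2 (Fin n × G))) := by
  ext x
  rw [mem_krn]
  constructor
  · intro h
    exact ⟨_, h, Jv_Jv x⟩
  · rintro ⟨y, hy, rfl⟩
    rw [Jv_Jv]
    exact hy

theorem rnk_eq {m n : ℕ} (A : Matrix (Fin m) (Fin n) (G →₀ ℂ)) :
    rnk A = n - vdim (kerA (tg A)) := by
  classical
  have h1 : ∀ j : Fin n, Metric.infDist
      (lp.single 2 (j, (1 : G)) (1 : ℂ) : lp (fun _ : Fin n × G => ℂ) 2) (krn A) =
      Metric.infDist (BC.dl G j)
        (kerA (tg A) : Set (L2 (Fin n × G))) := by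
    intro j
    have h2 : (lp.single 2 (j, (1 : G)) (1 : ℂ) : lp (fun _ : Fin n × G => ℂ) 2) = BC.dl G j := by
      rw [dl_eq]
      unfold de
      rw [← KP.dl_eq_single]
    rw [h2, krn_eq]
    conv_lhs => rw [← Jv_dl]
    rw [Metric.infDist_image isometry_Jv]
  unfold rnk vdim
  simp only [h1]
  rw [Finset.sum_sub_distrib]
  simp

/-- the one by one matrix -/
def mx (a : G →₀ ℂ) : Matrix (Fin 1) (Fin 1) (G →₀ ℂ) := fun _ _ => a

theorem vdim_mx (a : G →₀ ℂ) :
    vdim (kerA (tg (mx a))) = vdim (kerA (m1 a)) := by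
  have e : Fin 1 ≃ Unit := Equiv.ofUnique _ _
  exact vdim_ri e e (m1 a)

theorem rnk_mx (a : G →₀ ℂ) : rnk (mx a) = 1 - vdim (kerA (m1 a)) := by
  rw [rnk_eq, vdim_mx, Nat.cast_one]

/-- the vector given by a function -/
noncomputable def vf (f : G → ℂ) (hf : Summable fun g => ‖f g‖ ^ 2) : L2 (Unit × G) :=
  ⟨fun p => f p.2⁻¹, KP.mem_of_summable (by
    have h1 : Function.Injective (fun p : Unit × G => p.2⁻¹) := by
      rintro ⟨_, b⟩ ⟨_, d⟩ h
      simpa using h
    exact hf.comp_injective h1)⟩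

theorem vf_apply (f : G → ℂ) (hf : Summable fun g => ‖f g‖ ^ 2) (g : G) :
    vf f hf ((), g) = f g⁻¹ := rfl

theorem act_m1 (a : G →₀ ℂ) (x : Unit × G → ℂ) (g : G) :
    act (m1 a) x () g = a.sum fun h c => c * x ((), g * h) := by
  unfold act m1
  rw [Fintype.sum_unique]

theorem vf_mem (a : G →₀ ℂ) (f : G → ℂ) (hf : Summable fun g => ‖f g‖ ^ 2)
    (h : ∀ g, a.sum (fun h c => c * f (h⁻¹ * g)) = 0) : vf f hf ∈ kerA (m1 a) := by
  rintro ⟨⟩ g
  rw [act_m1, ← h g⁻¹]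
  refine Finsupp.sum_congr fun h' _ => ?_
  rw [vf_apply, mul_inv_rev]

/-- a nonzero element with a kernel vector has positive kernel dimension -/
theorem vdim_pos (a : G →₀ ℂ) (f : G → ℂ) (hf : Summable fun g => ‖f g‖ ^ 2) (hf0 : f ≠ 0)
    (h : ∀ g, a.sum (fun h c => c * f (h⁻¹ * g)) = 0) : 0 < vdim (kerA (m1 a)) := by
  by_contra hcon
  have h1 := eq_bot_of_vdim (isClosed_kerA (m1 a)) (linv_kerA (m1 a)) (not_lt.1 hcon)
  have h2 := vf_mem a f hf h
  rw [h1, Submodule.mem_bot] at h2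
  apply hf0
  funext g
  have h3 : vf f hf ((), g⁻¹) = 0 := by rw [h2]; rfl
  rw [vf_apply, inv_inv] at h3
  exact h3

/-- conversely -/
theorem exists_of_vdim_pos (a : G →₀ ℂ) (h : 0 < vdim (kerA (m1 a))) :
    ∃ f : G → ℂ, Memℓp f 2 ∧ f ≠ 0 ∧ ∀ g, a.sum (fun h c => c * f (h⁻¹ * g)) = 0 := by
  have h1 : kerA (m1 a) ≠ ⊥ := by
    intro h2
    rw [h2, vdim_bot] at h
    exact lt_irrefl _ h
  obtain ⟨x, hx, hx0⟩ := Submodule.exists_mem_ne_zero_of_ne_bot h1
  refine ⟨fun g => x ((), g⁻¹), ?_, ?_, ?_⟩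
  · apply KP.mem_of_summable
    have h2 : Function.Injective (fun g : G => ((), g⁻¹)) := by
      intro a b h
      simpa using h
    exact (KP.summable_sq x).comp_injective h2
  · intro h2
    apply hx0
    ext ⟨_, g⟩
    have := congrFun h2 g⁻¹
    simp only [inv_inv] at this
    exact this
  · intro g
    have h2 := hx () g⁻¹
    rw [act_m1] at h2
    rw [← h2]
    refine Finsupp.sum_congr fun h' _ => ?_
    show a h' * x ((), (h'⁻¹ * g)⁻¹) = _
    rw [mul_inv_rev, inv_inv]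

theorem vdim_lt_one (a : G →₀ ℂ) (ha : a ≠ 0) : vdim (kerA (m1 a)) < 1 := by
  by_contra hcon
  have h1 : kerA (m1 a) = ⊤ := by
    apply eq_of_vdim (isClosed_kerA (m1 a)) (linv_kerA (m1 a)) (by exact isClosed_univ)
      (fun _ _ _ _ _ => Submodule.mem_top) le_top
    rw [vdim_top]
    simpa using not_lt.1 hcon
  apply ha
  ext g
  have h2 : (de ((), (1 : G)) : L2 (Unit × G)) ∈ kerA (m1 a) := by rw [h1]; exact Submodule.mem_top
  have h3 := h2 () g⁻¹
  rw [act_m1, Finsupp.sum, Finset.sum_eq_single g] at h3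
  · rw [inv_mul_cancel, de_apply_self, mul_one] at h3
    exact h3
  · intro b _ hb
    rw [de_apply_ne, mul_zero]
    intro h4
    apply hb
    have h5 := (Prod.ext_iff.1 h4).2
    simp only at h5
    exact (inv_mul_eq_one.1 h5).symm
  · intro h4
    rw [Finsupp.notMem_support_iff.1 h4, zero_mul]

theorem vdim_eq_one_iff (a : G →₀ ℂ) : vdim (kerA (m1 a)) < 1 → a ≠ 0 := by
  rintro h rfl
  have : kerA (m1 (0 : G →₀ ℂ)) = ⊤ := by
    rw [eq_top_iff]
    rintro x _ ⟨⟩ g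
    rw [act_m1]
    simp
  rw [this, vdim_top] at h
  simp at h

end fmt

/-! ### density -/

theorem dens (Q : ℝ → Prop) (hm : ∀ v w, Q v → Q w → Q (v * w))
    (hc : ∀ v w, Q v → Q w → Q (v + w - v * w)) {v : ℝ} (hv : Q v) (h0 : 0 < v) (h1 : v < 1)
    {a b : ℝ} (ha : 0 ≤ a) (ha1 : a < 1) (hab : a < b) : ∃ w, Q w ∧ a < w ∧ w < b := by
  have hpow : ∀ n : ℕ, Q (v ^ (n + 1)) := by
    intro n
    induction n with
    | zero => simpa using hv
    | succ n ih =>
      rw [pow_succ]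
      exact hm _ _ ih hv
  obtain ⟨n, hn⟩ := exists_pow_lt_of_lt_one (sub_pos.2 hab) h1
  have hu : v ^ (n + 1) < b - a := by
    refine lt_of_le_of_lt ?_ hn
    exact pow_le_pow_of_le_one h0.le h1.le (Nat.le_succ n)
  set u := v ^ (n + 1) with hu'
  have hu0 : 0 < u := pow_pos h0 _
  have hu1 : u < 1 := pow_lt_one₀ h0.le h1 (Nat.succ_ne_zero n)
  have hco : ∀ m : ℕ, Q (1 - (1 - u) ^ (m + 1)) := by
    intro m
    induction m with
    | zero =>
      have := hpow n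
      simpa using this
    | succ m ih =>
      have := hc _ _ ih (hpow n)
      rw [← hu'] at this
      convert this using 1
      ring
  obtain ⟨M, hM⟩ := exists_pow_lt_of_lt_one (sub_pos.2 ha1) (show 1 - u < 1 by linarith)
  classical
  have hex : ∃ m : ℕ, a < 1 - (1 - u) ^ m := ⟨M, by linarith⟩
  have hmin : ∀ m : ℕ, m < Nat.find hex → ¬ a < 1 - (1 - u) ^ m :=
    fun m h => Nat.find_min hex h
  have hspec := Nat.find_spec hex
  obtain ⟨k, hk⟩ : ∃ k, Nat.find hex = k + 1 := by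
    refine Nat.exists_eq_succ_of_ne_zero ?_
    intro h
    rw [h, pow_zero] at hspec
    linarith
  have h2 := hmin k (by omega)
  rw [hk] at hspec
  refine ⟨_, hco k, hspec, ?_⟩
  have h3 : 1 - (1 - u) ^ k ≤ a := not_lt.1 h2
  have h4 : (1 - u) ^ k ≤ 1 := pow_le_one₀ (by linarith) (by linarith)
  have h5 : 0 ≤ (1 - u) ^ k := pow_nonneg (by linarith) _
  rw [pow_succ]
  nlinarith

end Pool.Agent.W656.VA
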