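import Pool.Agent.W656.VC4
import Pool.Agent.W656.VA9

/-!
The analytic zero divisor conjecture for classes of groups: the equivalences.
-/

set_option autoImplicit false
set_option linter.unusedSectionVars false

open scoped InnerProductSpace ENNReal
open Filter Topology

namespace Pool.Agent.W656.VA

open Pool.Agent.H80R2
open Pool.Agent.H80R2.BC (L2 GMat vdim IsTr LInv Equi act kerA dk pt vals TorDiv Coef AtR Generic)
open Pool.Agent.H812R3

/-- Each sequence of groups in `C` has all its finite direct products embedded in one group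
in `C`. -/
def PC (C : (G : Type) → [Group G] → Prop) : Prop :=
  ∀ (G : ℕ → Type) [∀ i, Group (G i)], (∀ i, C (G i)) →
    ∃ (H : Type) (_ : Group H), C H ∧
      ∀ n : ℕ, ∃ f : (∀ i : Fin n, G i) →* H, Function.Injective f

/-- the sequence `G, H, H, …` -/
def sq (G H : Type) : ℕ → Type
  | 0 => G
  | (_ + 1) => H

instance sqGroup (G H : Type) [Group G] [Group H] : ∀ i, Group (sq G H i)
  | 0 => inferInstanceAs (Group G)
  | (_ + 1) => inferInstanceAs (Group H)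

/-- the embedding of the product -/
def sqHom (G H : Type) [Group G] [Group H] : G × H →* (∀ i : Fin 2, sq G H i) where
  toFun x := fun i => match i with
    | ⟨0, _⟩ => x.1
    | ⟨1, _⟩ => x.2
  map_one' := by
    funext i
    match i with
    | ⟨0, _⟩ => rfl
    | ⟨1, _⟩ => rfl
  map_mul' x y := by
    funext i
    match i with
    | ⟨0, _⟩ => rfl
    | ⟨1, _⟩ => rfl

theorem sqHom_injective (G H : Type) [Group G] [Group H] : Function.Injective (sqHom G H) := by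
  intro x y h
  have h0 := congrFun h ⟨0, by norm_num⟩
  have h1 := congrFun h ⟨1, by norm_num⟩
  exact Prod.ext h0 h1

theorem PC.prod {C : (G : Type) → [Group G] → Prop} (hC : PC C) {G H : Type} [Group G] [Group H]
    (hG : C G) (hH : C H) : ∃ (K : Type) (_ : Group K), C K ∧ ∃ f : G × H →* K,
      Function.Injective f := by
  obtain ⟨K, iK, hK, h⟩ := hC (sq G H) (by
    intro i
    match i with
    | 0 => exact hG
    | (i + 1) => exact hH)
  obtain ⟨f, hf⟩ := h 2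
  exact ⟨K, iK, hK, f.comp (sqHom G H), hf.comp (sqHom_injective G H)⟩

theorem PC.pow {C : (G : Type) → [Group G] → Prop} (hC : PC C) {G : Type} [Group G]
    (hG : C G) (k : ℕ) : ∃ (K : Type) (_ : Group K), C K ∧ ∃ f : (Fin k → G) →* K,
      Function.Injective f := by
  obtain ⟨K, iK, hK, h⟩ := hC (fun _ => G) (fun _ => hG)
  exact ⟨K, iK, hK, h k⟩

/-- the values over the class -/
def EVC (C : (G : Type) → [Group G] → Prop) (R : Subring ℂ) (v : ℝ) : Prop :=
  ∃ (G : Type) (_ : Group G), C G ∧ EV R G v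

theorem evc_mul {C : (G : Type) → [Group G] → Prop} (hC : PC C) {R : Subring ℂ}
    (hR : ∀ z ∈ R, (starRingEnd ℂ) z ∈ R) (v w : ℝ) (hv : EVC C R v) (hw : EVC C R w) :
    EVC C R (v * w) := by
  obtain ⟨G, iG, hG, hv⟩ := hv
  obtain ⟨H, iH, hH, hw⟩ := hw
  obtain ⟨K, iK, hK, f, hf⟩ := hC.prod hG hH
  exact ⟨K, iK, hK, ev_incl f hf (ev_mul hR hv hw)⟩

theorem evc_comul {C : (G : Type) → [Group G] → Prop} (hC : PC C) {R : Subring ℂ}
    (v w : ℝ) (hv : EVC C R v) (hw : EVC C R w) : EVC C R (v + w - v * w) := by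
  obtain ⟨G, iG, hG, hv⟩ := hv
  obtain ⟨H, iH, hH, hw⟩ := hw
  obtain ⟨K, iK, hK, f, hf⟩ := hC.prod hG hH
  exact ⟨K, iK, hK, ev_incl f hf (ev_comul hv hw)⟩

/-- the integers -/
def ZZ : Subring ℂ := (Int.castRingHom ℂ).range

theorem mem_ZZ (z : ℂ) : z ∈ ZZ ↔ ∃ n : ℤ, z = n := by
  constructor
  · rintro ⟨n, rfl⟩
    exact ⟨n, rfl⟩
  · rintro ⟨n, rfl⟩
    exact ⟨n, rfl⟩

theorem conj_ZZ : ∀ z ∈ ZZ, (starRingEnd ℂ) z ∈ ZZ := by
  intro z hz
  obtain ⟨n, rfl⟩ := (mem_ZZ z).1 hz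
  rw [mem_ZZ]
  exact ⟨n, by simp⟩

/-- the embedding into one group: all values occur there -/
theorem one_group {C : (G : Type) → [Group G] → Prop} (hC : PC C) {R : Subring ℂ}
    (h : ∀ a b : ℝ, 0 ≤ a → a < b → b ≤ 1 → ∃ w, EVC C R w ∧ a < w ∧ w < b)
    (G₀ : Type) [Group G₀] (hG₀ : C G₀) :
    ∃ (H : Type) (_ : Group H), C H ∧ ∀ a b : ℝ, 0 ≤ a → a < b → b ≤ 1 →
      ∃ w, EV R H w ∧ a < w ∧ w < b := by
  classical
  have h1 : ∀ p : ℚ × ℚ, ∃ (H : Type) (_ : Group H), C H ∧ ((0 ≤ p.1 ∧ p.1 < p.2 ∧ p.2 ≤ 1) →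
      ∃ w : ℝ, EV R H w ∧ (p.1 : ℝ) < w ∧ w < p.2) := by
    intro p
    by_cases hp : 0 ≤ p.1 ∧ p.1 < p.2 ∧ p.2 ≤ 1
    · obtain ⟨w, ⟨H, iH, hH, hw⟩, h2, h3⟩ := h p.1 p.2 (by exact_mod_cast hp.1)
        (by exact_mod_cast hp.2.1) (by exact_mod_cast hp.2.2)
      exact ⟨H, iH, hH, fun _ => ⟨w, hw, h2, h3⟩⟩
    · exact ⟨G₀, inferInstance, hG₀, fun h => absurd h hp⟩
  choose H iH hH hHv using h1
  obtain ⟨e⟩ : Nonempty (ℕ ≃ ℚ × ℚ) := by
    have : Infinite (ℚ × ℚ) := inferInstance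
    obtain ⟨D⟩ : Nonempty (Denumerable (ℚ × ℚ)) := nonempty_denumerable _
    exact ⟨(Denumerable.eqv (ℚ × ℚ)).symm⟩
  obtain ⟨K, iK, hK, hf⟩ := hC (fun i => H (e i)) (fun i => hH (e i))
  refine ⟨K, iK, hK, fun a b ha hab hb => ?_⟩
  obtain ⟨p, hp1, hp2⟩ := exists_rat_btwn hab
  obtain ⟨q, hq1, hq2⟩ := exists_rat_btwn hp2
  have hpq : p < q := by exact_mod_cast hq1
  have hp0 : 0 ≤ p := by
    have : (0 : ℝ) ≤ p := by linarith
    exact_mod_cast this
  have hq1' : q ≤ 1 := by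
    have : (q : ℝ) ≤ 1 := by linarith
    exact_mod_cast this
  obtain ⟨w, hw, h3, h4⟩ := hHv (p, q) ⟨hp0, hpq, hq1'⟩
  set i := e.symm (p, q) with hi
  have hei : e i = (p, q) := e.apply_symm_apply _
  have hw' : EV R (H (e i)) w := by
    rw [hei]
    exact hw
  obtain ⟨f, hf⟩ := hf (i + 1)
  have h5 : EV R K w := by
    have h6 : Function.Injective
        (MonoidHom.mulSingle (fun j : Fin (i + 1) => H (e j)) ⟨i, Nat.lt_succ_self i⟩) := by
      intro a b h
      have := congrFun h ⟨i, Nat.lt_succ_self i⟩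
      simpa using this
    exact ev_incl (f.comp (MonoidHom.mulSingle (fun j : Fin (i + 1) => H (e j))
      ⟨i, Nat.lt_succ_self i⟩)) (hf.comp h6) hw'
  exact ⟨w, h5, by simp only at h3; linarith, by simp only at h4; linarith⟩

section matrix
variable {G : Type} [Group G]

theorem rank_matrix (hG : ∀ (α : G →₀ ℂ), α ≠ 0 → vdim (kerA (m1 α)) = 0) {m n : ℕ}
    (A : Matrix (Fin m) (Fin n) (G →₀ ℂ)) (hA : A ≠ 0) : 1 ≤ rnk A := by
  classical
  obtain ⟨i0, hi0⟩ := Function.ne_iff.1 hA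
  obtain ⟨j0, hij⟩ := Function.ne_iff.1 hi0
  have hij' : A i0 j0 ≠ 0 := hij
  rw [rnk_eq]
  have inj1 : Function.Injective (fun p : {j : Fin n // j ≠ j0} × G => (p.1.1, p.2)) := by
    rintro ⟨a, b⟩ ⟨c, d⟩ h
    simp only [Prod.mk.injEq] at h
    exact Prod.ext (Subtype.ext h.1) h.2
  set T : L2 (Fin n × G) →L[ℂ] L2 ({j : Fin n // j ≠ j0} × G) := KP.pull _ inj1 with hT
  have hTe : Equi T := by
    intro g x y hxy i h
    exact hxy _ _
  have h1 : vdim (kerA (tg A)) ≤ vdim (⊤ : Submodule ℂ (L2 ({j : Fin n // j ≠ j0} × G))) := by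
    apply vdim_inj_le (isClosed_kerA _) (linv_kerA _) T hTe (by exact isClosed_univ)
      (fun _ _ => Submodule.mem_top)
    intro x hx hTx
    have hx0 : ∀ j, j ≠ j0 → ∀ g, x (j, g) = 0 := by
      intro j hj g
      have : T x (⟨j, hj⟩, g) = 0 := by rw [hTx]; rfl
      exact this
    have hy0 : ∀ g, x (j0, g) = 0 := by
      have inj2 : Function.Injective (fun p : Unit × G => (j0, p.2)) := by
        rintro ⟨⟨⟩, b⟩ ⟨⟨⟩, d⟩ h
        simp only [Prod.mk.injEq] at h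
        rw [h.2]
      have hy : KP.pull (fun p : Unit × G => (j0, p.2)) inj2 x ∈ kerA (m1 (A i0 j0)) := by
        rintro ⟨⟩ g
        rw [act_m1, ← hx i0 g]
        unfold act
        rw [Finset.sum_eq_single j0]
        · rfl
        · intro j _ hj
          refine Finset.sum_eq_zero fun h _ => ?_
          show (tg A i0 j) h * x (j, g * h) = 0
          rw [hx0 j hj, mul_zero]
        · intro h
          exact absurd (Finset.mem_univ _) h
      have h2 := eq_bot_of_vdim (isClosed_kerA (m1 (A i0 j0))) (linv_kerA _) (hG _ hij').le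
      rw [h2, Submodule.mem_bot] at hy
      intro g
      have : KP.pull (fun p : Unit × G => (j0, p.2)) inj2 x ((), g) = 0 := by rw [hy]; rfl
      exact this
    ext ⟨j, g⟩
    by_cases hj : j = j0
    · subst hj
      exact hy0 g
    · exact hx0 j hj g
  rw [vdim_top] at h1
  have h2 : Fintype.card {j : Fin n // j ≠ j0} = n - 1 := by
    rw [Fintype.card_subtype_compl, Fintype.card_fin, Fintype.card_unique]
  have h3 : 1 ≤ n := Nat.one_le_iff_ne_zero.2 (by rintro rfl; exact j0.elim0)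
  rw [h2, Nat.cast_sub h3, Nat.cast_one] at h1
  linarith

end matrix

/-- the equivalences -/
theorem azdc_tfae (C : (G : Type) → [Group G] → Prop) (hC : PC C) : List.TFAE [
      ∀ (G : Type) [Group G], C G → ∀ (α : G →₀ ℂ) (f : G → ℂ), α ≠ 0 → Memℓp f 2 → f ≠ 0 →
        ∃ g : G, α.sum (fun h c => c * f (h⁻¹ * g)) ≠ 0,
      ∀ (G : Type) [Group G], C G → ∀ (α : G →₀ ℂ) (f : G → ℂ), (∀ g, ∃ n : ℤ, α g = n) →
        α ≠ 0 → Memℓp f 2 → f ≠ 0 → ∃ g : G, α.sum (fun h c => c * f (h⁻¹ * g)) ≠ 0,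
      ∀ (G : Type) [Group G], C G → ∀ (m n : ℕ) (A : Matrix (Fin m) (Fin n) (G →₀ ℂ)), A ≠ 0 →
        1 ≤ rnk A,
      ∃ ε : ℝ, 0 < ε ∧ ∀ (G : Type) [Group G], C G → ∀ α : G →₀ ℂ, (∀ g, ∃ n : ℤ, α g = n) →
        α ≠ 0 → ε ≤ rnk (mx α),
      ∀ (G : Type) [Group G], C G → ∃ a b : ℝ, 0 ≤ a ∧ a < b ∧ b ≤ 1 ∧
        ∀ α : G →₀ ℂ, (∀ g, ∃ n : ℤ, α g = n) → ¬ (a < rnk (mx α) ∧ rnk (mx α) < b)] := by
  have key : ∀ (G : Type) [Group G], C G → ∀ (α : G →₀ ℂ) (f : G → ℂ),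
      (∀ g, ∃ n : ℤ, α g = n) → α ≠ 0 → Memℓp f 2 → f ≠ 0 →
      (¬ ∃ g : G, α.sum (fun h c => c * f (h⁻¹ * g)) ≠ 0) →
      ∀ a b : ℝ, 0 ≤ a → a < b → b ≤ 1 → ∃ w, EVC C ZZ w ∧ a < w ∧ w < b := by
    intro G _ hG α f hα hα0 hf hf0 hcon a b ha hab hb
    push Not at hcon
    have h1 := vdim_pos α f (KP.summable_sq (⟨f, hf⟩ : L2 G)) hf0 hcon
    have h2 := vdim_lt_one α hα0
    refine dens (EVC C ZZ) (evc_mul hC conj_ZZ) (evc_comul hC)
      (v := vdim (kerA (m1 α))) ?_ h1 h2 ha (by linarith) hab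
    exact ⟨G, inferInstance, hG, α, fun g => (mem_ZZ _).2 (hα g), rfl⟩
  tfae_have 1 → 2 := fun h G _ hG α f _ => h G hG α f
  tfae_have 2 → 1 := by
    intro h G _ hG α f hα hf hf0
    by_contra hcon
    push Not at hcon
    obtain ⟨k, D, hD1, hD2, F, hF1, hF2, hF3⟩ :=
      wedge α hα f (KP.summable_sq (⟨f, hf⟩ : L2 G)) hf0 hcon
    obtain ⟨K, iK, hK, φ, hφ⟩ := hC.pow hG k
    have h1 := vdim_pos D F hF1 hF2 hF3
    have h2 := vdim_lt_one D hD2
    obtain ⟨β, hβ1, hβ2⟩ := ev_incl (R := ZZ) φ hφ ⟨D, fun g => (mem_ZZ _).2 (hD1 g), rfl⟩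
    rw [← hβ2] at h1 h2
    obtain ⟨F', hF'1, hF'2, hF'3⟩ := exists_of_vdim_pos β h1
    obtain ⟨g, hg⟩ := h K hK β F' (fun g => (mem_ZZ _).1 (hβ1 g)) (vdim_eq_one_iff β h2) hF'1 hF'2
    exact hg (hF'3 g)
  tfae_have 1 → 3 := by
    intro h G _ hG m n A hA
    apply rank_matrix _ A hA
    intro α hα
    by_contra hcon
    have h1 : 0 < vdim (kerA (m1 α)) := lt_of_le_of_ne (vdim_nonneg _) (Ne.symm hcon)
    obtain ⟨F', hF'1, hF'2, hF'3⟩ := exists_of_vdim_pos α h1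
    obtain ⟨g, hg⟩ := h G hG α F' hα hF'1 hF'2
    exact hg (hF'3 g)
  tfae_have 3 → 4 := by
    intro h
    refine ⟨1, one_pos, fun G _ hG α _ hα => h G hG 1 1 (mx α) ?_⟩
    intro h0
    exact hα (congrFun (congrFun h0 0) 0)
  tfae_have 4 → 2 := by
    rintro ⟨ε, hε, h⟩ G _ hG α f hα hα0 hf hf0
    by_contra hcon
    obtain ⟨w, ⟨H, iH, hH, β, hβ, rfl⟩, h1, h2⟩ := key G hG α f hα hα0 hf hf0 hcon
      (max 0 (1 - ε)) 1 (le_max_left _ _) (max_lt one_pos (by linarith)) le_rfl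
    have h3 := h H hH β (fun g => (mem_ZZ _).1 (hβ g)) (vdim_eq_one_iff β h2)
    rw [rnk_mx] at h3
    have h4 := le_max_right 0 (1 - ε)
    linarith
  tfae_have 3 → 5 := by
    intro h G _ hG
    refine ⟨0, 1, le_rfl, one_pos, le_rfl, ?_⟩
    rintro α _ ⟨h1, h2⟩
    by_cases h0 : α = 0
    · subst h0
      rw [rnk_mx] at h1 h2
      have : kerA (m1 (0 : G →₀ ℂ)) = ⊤ := by
        rw [eq_top_iff]
        rintro x _ ⟨⟩ g
        rw [act_m1]
        simp
      rw [this, vdim_top] at h1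
      simp at h1
    · have := h G hG 1 1 (mx α) (fun h1 => h0 (congrFun (congrFun h1 0) 0))
      linarith
  tfae_have 5 → 2 := by
    intro h G _ hG α f hα hα0 hf hf0
    by_contra hcon
    obtain ⟨H, iH, hH, h1⟩ := one_group hC (key G hG α f hα hα0 hf hf0 hcon) G hG
    obtain ⟨a, b, ha, hab, hb, h2⟩ := h H hH
    obtain ⟨w, ⟨β, hβ, rfl⟩, h3, h4⟩ := h1 (1 - b) (1 - a) (by linarith) (by linarith)
      (by linarith)
    refine h2 β (fun g => (mem_ZZ _).1 (hβ g)) ?_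
    rw [rnk_mx]
    constructor <;> linarith
  tfae_finish

/-! ### examples of classes -/

theorem pc_torsionFree : PC (fun G _ => ∀ g : G, ∀ n : ℕ, 0 < n → g ^ n = 1 → g = 1) := by
  intro G _ hG
  refine ⟨∀ i, G i, inferInstance, ?_, ?_⟩
  · intro g n hn h
    funext i
    exact hG i (g i) n hn (congrFun h i)
  · intro n
    refine ⟨{ toFun := fun x i => if h : i < n then x ⟨i, h⟩ else 1, map_one' := ?_,
              map_mul' := ?_ }, ?_⟩
    · funext i
      split_ifs <;> rfl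
    · intro x y
      funext i
      simp only [Pi.mul_apply]
      split_ifs
      · rfl
      · rw [one_mul]
    · intro x y h
      funext i
      have := congrFun h i
      simp only [MonoidHom.coe_mk, OneHom.coe_mk] at this
      rw [dif_pos i.2, dif_pos i.2] at this
      exact this

theorem pow_embed {G : Type} [Group G] (f : G × G →* G) (hf : Function.Injective f) (n : ℕ) :
    ∃ φ : (Fin n → G) →* G, Function.Injective φ := by
  induction n with
  | zero => exact ⟨1, fun x y _ => funext fun i => i.elim0⟩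
  | succ n ih =>
    obtain ⟨φ, hφ⟩ := ih
    refine ⟨f.comp ((Pi.evalMonoidHom (fun _ : Fin (n + 1) => G) 0).prod
      (φ.comp (MonoidHom.pi fun i : Fin n =>
        Pi.evalMonoidHom (fun _ : Fin (n + 1) => G) i.succ))), ?_⟩
    intro x y h
    have h1 := hf h
    have h2 := (Prod.ext_iff.1 h1).1
    have h3 := hφ (Prod.ext_iff.1 h1).2
    funext i
    refine Fin.cases h2 (fun j => ?_) i
    exact congrFun h3 j

theorem pc_single {G : Type} [Group G] (f : G × G →* G) (hf : Function.Injective f) :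
    PC (fun H _ => Nonempty (H ≃* G)) := by
  intro H _ hH
  refine ⟨G, inferInstance, ⟨MulEquiv.refl G⟩, fun n => ?_⟩
  obtain ⟨φ, hφ⟩ := pow_embed f hf n
  refine ⟨φ.comp (MonoidHom.pi fun i : Fin n =>
    ((hH i).some.toMonoidHom.comp (Pi.evalMonoidHom (fun i : Fin n => H i) i))), ?_⟩
  intro x y h
  have h1 := hφ h
  funext i
  exact (hH i).some.injective (congrFun h1 i)

end Pool.Agent.W656.VA
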