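import Pool.Agent.W792.WA.Stm5

/-!
Project WA (MP_28b024_mp), part NPFIN: from the normalised energy interval to any interval.
-/

set_option autoImplicit false

namespace Pool.Agent.W656.WANpfin

open MeasureTheory Filter Pool.Agent.W792.LL Pool.Agent.W792.WA
open scoped Topology

theorem acik_scale {d : ℕ} (K : C(UnitAddTorus (Fin d), ℝ)) (α : ℝ) (v : (Fin d → ℤ) → ℝ)
    (a b : ℝ) (h : ACIK K 1 (fun y => α * v y) a b) : ACIK K (α * 1) v a b := by
  unfold ACIK Sol at h ⊢
  simpa only [one_mul, mul_one] using h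

theorem main : S_NPN → S_AFF → S_SCA → S_VRS → S_NPFIN := by
  intro hN hAFF hSCA hVRS d K a b p κ ε hd hab hp1 hp2 hκ hε
  have hd' : (0 : ℝ) < 4 * d := by positivity
  have hba : 0 < b - a := by linarith
  obtain ⟨α, hα⟩ : ∃ α : ℝ, α = 4 * d / (b - a) := ⟨_, rfl⟩
  have hα0 : 0 < α := by rw [hα]; positivity
  have hαM : α * (b - a) = 4 * d := by
    rw [hα]
    field_simp
  have hmin : 0 < min (α ^ 2) (1 / α ^ 2) := lt_min (by positivity) (by positivity)
  have hp0 : 0 < p := by linarith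
  have hαp : 0 < α ^ p := Real.rpow_pos_of_pos hα0 p
  obtain ⟨g1, ⟨B, hB⟩, hg1, hmain⟩ := hN d (α • (K - ContinuousMap.const _ a)) p
    (min (α ^ 2) (1 / α ^ 2) * κ) (α ^ p * ε) hd hp1 hp2 (by positivity) (by positivity)
  refine ⟨α⁻¹ • g1, ⟨α⁻¹ * B, fun t => ?_⟩, ?_, ?_⟩
  · rw [ContinuousMap.smul_apply, smul_eq_mul, abs_mul, abs_of_pos (by positivity : 0 < α⁻¹)]
    exact mul_le_mul_of_nonneg_left (hB t) (by positivity)
  · have h1 : ∀ k : UnitAddTorus (Fin d), |(α⁻¹ • g1) (lap d k)| ^ p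
        = (α ^ p)⁻¹ * |g1 (lap d k)| ^ p := by
      intro k
      rw [ContinuousMap.smul_apply, smul_eq_mul, abs_mul, abs_of_pos (by positivity : 0 < α⁻¹),
        Real.mul_rpow (by positivity) (abs_nonneg _), Real.inv_rpow hα0.le]
    simp only [h1]
    rw [integral_const_mul]
    calc (α ^ p)⁻¹ * ∫ k : UnitAddTorus (Fin d), |g1 (lap d k)| ^ p
        ≤ (α ^ p)⁻¹ * (α ^ p * ε) := mul_le_mul_of_nonneg_left hg1 (by positivity)
      _ = ε := by field_simp
  · intro ν _ hν
    have hpr : IsProbabilityMeasure (ν.map fun x => α * x) :=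
      Measure.isProbabilityMeasure_map (measurable_const_mul α).aemeasurable
    have h1 := hmain (ν.map fun x => α * x)
      ((mul_le_mul_of_nonneg_left hν hmin.le).trans (hVRS ν α hα0))
    have h2 := hSCA ν α d _ h1
    have hkey : (α • (K - ContinuousMap.const _ a) + gK g1 d : C(UnitAddTorus (Fin d), ℝ)) =
        α • ((K + gK (α⁻¹ • g1) d) - ContinuousMap.const _ a) := by
      ext k
      simp only [ContinuousMap.add_apply, ContinuousMap.smul_apply, ContinuousMap.sub_apply,
        ContinuousMap.const_apply, smul_eq_mul, gK, ContinuousMap.comp_apply]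
      field_simp
      ring
    filter_upwards [h2] with v hv
    rw [hkey] at hv
    have h3 := hAFF d (K + gK (α⁻¹ • g1) d) α a 1 0 (4 * d) v hα0 (acik_scale _ α v _ _ hv)
    have h4 : a + 0 / α = a := by simp
    have h5 : a + 4 * d / α = b := by
      rw [← hαM]
      field_simp
      ring
    rw [h4, h5] at h3
    exact h3

end Pool.Agent.W656.WANpfin
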